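import Pool.Agent.MP_1037db_co.LP.SoundB
import Pool.Agent.MP_1037db_co.LP.Ctp0
import Pool.Agent.MP_1037db_co.LP.Ctp1
import Pool.Agent.MP_1037db_co.LP.Ctp2
import Pool.Agent.MP_1037db_co.LP.Cap0
import Pool.Agent.MP_1037db_co.LP.Cap1
import Pool.Agent.MP_1037db_co.LP.Cap2
import Pool.Agent.MP_1037db_co.LP.Cbp0
import Pool.Agent.MP_1037db_co.LP.Cbp1
import Pool.Agent.MP_1037db_co.LP.Ccp0
import Pool.Agent.MP_1037db_co.LP.Cep0

namespace Pool.Agent.MP_1037db_co.LP

noncomputable section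

section

@[reducible] def Gt : Geo := ⟨FAt, FBt, FTt, 52384, 9819, 38103, geot⟩

attribute [local instance] Gt

theorem manyt : Many Gt 10005 := fun _ E ht h hc => by
  have gtp := E.gr tabtp (ro := 10005) (by norm_num) (by decide +kernel) ht
  have s : (E.re tabtp).St Htp (0 * 32) _ _ _ := gtp.init Htp (by decide +kernel) h
  have s := s.rng gtp xttp0 rtp0 (by norm_num)
  have s := s.rng gtp xttp0 rtp1.1 (by norm_num)
  have s := s.top gtp xttp0 tptp0
  have s := s.rng gtp xttp1 rtp1.2.1 (by norm_num)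
  have s := s.top gtp xttp1 tptp1
  have s := s.rng gtp xttp2 rtp1.2.2 (by norm_num)
  have s := s.rng gtp xttp2 rtp2.1 (by norm_num)
  have s := s.top gtp xttp2 tptp2
  have s := s.rng gtp xttp3 rtp2.2.1 (by norm_num)
  have s := s.top gtp xttp3 tptp3
  have s := s.rng gtp xttp4 rtp2.2.2.1 (by norm_num)
  have s := s.top gtp xttp4 tptp4
  have s := s.rng gtp xttp5 rtp2.2.2.2.1 (by norm_num)
  have s := s.top gtp xttp5 tptp5
  have s := s.rng gtp xttp6 rtp2.2.2.2.2.1 (by norm_num)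
  have s := s.top gtp xttp6 tptp6
  have s := s.rng gtp xttp7 rtp2.2.2.2.2.2 (by norm_num)
  have s := s.top gtp xttp7 tptp7
  exact s.fin gtp (by decide +kernel) hc

end

theorem clst {p : ℝ} (hp : 1 ≤ p) {n : ℕ} (hn : 7 < n) (x : Fin n → ℝ × ℝ)
    (hx : ∀ i, lp p hp (x i) ≤ 1)
    (l0 : 1 / 2 ≤ max (1 / p) (1 - 1 / p)) (l1 : max (1 / p) (1 - 1 / p) ≤ 10 / 19) :
    ∃ T : BinaryTree (Fin n), labels T = Finset.univ.val ∧
      span (lp p hp) x 0 T ≤ 1 + 2 ^ (1 + max (1 / p) (1 - 1 / p)) :=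
  manyt.cls hn (a := 2 / 1) (b := 2 / 1) (by norm_num) (by norm_num) (by norm_num) (by norm_num)
    (lpk_spec _ (by norm_num) lpkta) polyta (lpk_spec _ (by norm_num) lpkta) polyta
    (le_two (x := 10000 / (9819 : ℕ)) (m := 1) (n := 38) (by norm_num) (by norm_num) (by norm_num)
      (by norm_num))
    (two_le (x := ((38103 : ℕ) - (9819 : ℕ)) / 10000) (m := 3) (n := 2) (by norm_num) (by norm_num)
      (by norm_num) (by norm_num))
    (by decide) hp x hx l0 l1

section

@[reducible] def Ga : Geo := ⟨FAa, FBa, FTa, 52430, 9612, 38416, geoa⟩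

attribute [local instance] Ga

theorem manya : Many Ga 10006 := fun _ E ht h hc => by
  have gap := E.gr tabap (ro := 10006) (by norm_num) (by decide +kernel) ht
  have s : (E.re tabap).St Hap (0 * 32) _ _ _ := gap.init Hap (by decide +kernel) h
  have s := s.rng gap xtap0 rap0 (by norm_num)
  have s := s.rng gap xtap0 rap1.1 (by norm_num)
  have s := s.top gap xtap0 tpap0
  have s := s.rng gap xtap1 rap1.2.1 (by norm_num)
  have s := s.top gap xtap1 tpap1
  have s := s.rng gap xtap2 rap1.2.2.1 (by norm_num)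
  have s := s.top gap xtap2 tpap2
  have s := s.rng gap xtap3 rap1.2.2.2 (by norm_num)
  have s := s.rng gap xtap3 rap2.1 (by norm_num)
  have s := s.top gap xtap3 tpap3
  have s := s.rng gap xtap4 rap2.2.1 (by norm_num)
  have s := s.top gap xtap4 tpap4
  have s := s.rng gap xtap5 rap2.2.2.1 (by norm_num)
  have s := s.top gap xtap5 tpap5
  have s := s.rng gap xtap6 rap2.2.2.2.1 (by norm_num)
  have s := s.top gap xtap6 tpap6
  have s := s.rng gap xtap7 rap2.2.2.2.2.1 (by norm_num)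
  have s := s.top gap xtap7 tpap7
  have s := s.rng gap xtap8 rap2.2.2.2.2.2 (by norm_num)
  have s := s.top gap xtap8 tpap8
  exact s.fin gap (by decide +kernel) hc

end

theorem clsa {p : ℝ} (hp : 1 ≤ p) {n : ℕ} (hn : 7 < n) (x : Fin n → ℝ × ℝ)
    (hx : ∀ i, lp p hp (x i) ≤ 1)
    (l0 : 10 / 19 ≤ max (1 / p) (1 - 1 / p)) (l1 : max (1 / p) (1 - 1 / p) ≤ 7 / 12) :
    ∃ T : BinaryTree (Fin n), labels T = Finset.univ.val ∧
      span (lp p hp) x 0 T ≤ 1 + 2 ^ (1 + max (1 / p) (1 - 1 / p)) :=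
  manya.cls hn (a := 19 / 10) (b := 19 / 9) (by norm_num) (by norm_num) (by norm_num) (by norm_num)
    (lpk_spec _ (by norm_num) lpkaa) polyaa (lpk_spec _ (by norm_num) lpkab) polyab
    (le_two (x := 10000 / (9612 : ℕ)) (m := 13) (n := 228) (by norm_num) (by norm_num) (by norm_num)
      (by norm_num))
    (two_le (x := ((38416 : ℕ) - (9612 : ℕ)) / 10000) (m := 29) (n := 19) (by norm_num) (by norm_num)
      (by norm_num) (by norm_num))
    (by decide) hp x hx l0 l1

section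

@[reducible] def Gb : Geo := ⟨FAb, FBb, FTb, 52887, 9438, 39404, geob⟩

attribute [local instance] Gb

theorem manyb : Many Gb 10009 := fun _ E ht h hc => by
  have gbp := E.gr tabbp (ro := 10009) (by norm_num) (by decide +kernel) ht
  have s : (E.re tabbp).St Hbp (0 * 32) _ _ _ := gbp.init Hbp (by decide +kernel) h
  have s := s.rng gbp xtbp0 rbp0.1 (by norm_num)
  have s := s.top gbp xtbp0 tpbp0
  have s := s.rng gbp xtbp1 rbp0.2 (by norm_num)
  have s := s.rng gbp xtbp1 rbp1.1 (by norm_num)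
  have s := s.top gbp xtbp1 tpbp1
  have s := s.rng gbp xtbp2 rbp1.2.1 (by norm_num)
  have s := s.top gbp xtbp2 tpbp2
  have s := s.rng gbp xtbp3 rbp1.2.2.1 (by norm_num)
  have s := s.top gbp xtbp3 tpbp3
  have s := s.rng gbp xtbp4 rbp1.2.2.2.1 (by norm_num)
  have s := s.top gbp xtbp4 tpbp4
  have s := s.rng gbp xtbp5 rbp1.2.2.2.2.1 (by norm_num)
  have s := s.top gbp xtbp5 tpbp5
  have s := s.rng gbp xtbp6 rbp1.2.2.2.2.2 (by norm_num)
  have s := s.top gbp xtbp6 tpbp6
  exact s.fin gbp (by decide +kernel) hc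

end

theorem clsb {p : ℝ} (hp : 1 ≤ p) {n : ℕ} (hn : 7 < n) (x : Fin n → ℝ × ℝ)
    (hx : ∀ i, lp p hp (x i) ≤ 1)
    (l0 : 7 / 12 ≤ max (1 / p) (1 - 1 / p)) (l1 : max (1 / p) (1 - 1 / p) ≤ 2 / 3) :
    ∃ T : BinaryTree (Fin n), labels T = Finset.univ.val ∧
      span (lp p hp) x 0 T ≤ 1 + 2 ^ (1 + max (1 / p) (1 - 1 / p)) :=
  manyb.cls hn (a := 12 / 7) (b := 12 / 5) (by norm_num) (by norm_num) (by norm_num) (by norm_num)
    (lpk_spec _ (by norm_num) lpkba) polyba (lpk_spec _ (by norm_num) lpkbb) polybb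
    (le_two (x := 10000 / (9438 : ℕ)) (m := 1) (n := 12) (by norm_num) (by norm_num) (by norm_num)
      (by norm_num))
    (two_le (x := ((39404 : ℕ) - (9438 : ℕ)) / 10000) (m := 19) (n := 12) (by norm_num) (by norm_num)
      (by norm_num) (by norm_num))
    (by decide) hp x hx l0 l1

section

@[reducible] def Gc : Geo := ⟨FAc, FBc, FTc, 54352, 9438, 41186, geoc⟩

attribute [local instance] Gc

theorem manyc : Many Gc 10014 := fun _ E ht h hc => by
  have gcp := E.gr tabcp (ro := 10014) (by norm_num) (by decide +kernel) ht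
  have s : (E.re tabcp).St Hcp (0 * 32) _ _ _ := gcp.init Hcp (by decide +kernel) h
  have s := s.rng gcp xtcp0 rcp0.1 (by norm_num)
  have s := s.top gcp xtcp0 tpcp0
  have s := s.rng gcp xtcp1 rcp0.2.1 (by norm_num)
  have s := s.top gcp xtcp1 tpcp1
  have s := s.rng gcp xtcp2 rcp0.2.2.1 (by norm_num)
  have s := s.top gcp xtcp2 tpcp2
  have s := s.rng gcp xtcp3 rcp0.2.2.2.1 (by norm_num)
  have s := s.top gcp xtcp3 tpcp3
  have s := s.rng gcp xtcp4 rcp0.2.2.2.2.1 (by norm_num)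
  have s := s.top gcp xtcp4 tpcp4
  have s := s.rng gcp xtcp5 rcp0.2.2.2.2.2 (by norm_num)
  have s := s.top gcp xtcp5 tpcp5
  exact s.fin gcp (by decide +kernel) hc

end

theorem clsc {p : ℝ} (hp : 1 ≤ p) {n : ℕ} (hn : 7 < n) (x : Fin n → ℝ × ℝ)
    (hx : ∀ i, lp p hp (x i) ≤ 1)
    (l0 : 2 / 3 ≤ max (1 / p) (1 - 1 / p)) (l1 : max (1 / p) (1 - 1 / p) ≤ 3 / 4) :
    ∃ T : BinaryTree (Fin n), labels T = Finset.univ.val ∧
      span (lp p hp) x 0 T ≤ 1 + 2 ^ (1 + max (1 / p) (1 - 1 / p)) :=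
  manyc.cls hn (a := 3 / 2) (b := 3 / 1) (by norm_num) (by norm_num) (by norm_num) (by norm_num)
    (lpk_spec _ (by norm_num) lpkca) polyca (lpk_spec _ (by norm_num) lpkcb) polycb
    (le_two (x := 10000 / (9438 : ℕ)) (m := 1) (n := 12) (by norm_num) (by norm_num) (by norm_num)
      (by norm_num))
    (two_le (x := ((41186 : ℕ) - (9438 : ℕ)) / 10000) (m := 5) (n := 3) (by norm_num) (by norm_num)
      (by norm_num) (by norm_num))
    (by decide) hp x hx l0 l1

section

@[reducible] def Ge : Geo := ⟨FAe, FBe, FTe, 56641, 9082, 42717, geoe⟩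

attribute [local instance] Ge

theorem manye : Many Ge 10017 := fun _ E ht h hc => by
  have gep := E.gr tabep (ro := 10017) (by norm_num) (by decide +kernel) ht
  have s : (E.re tabep).St Hep (0 * 32) _ _ _ := gep.init Hep (by decide +kernel) h
  have s := s.rng gep xtep0 rep0.1 (by norm_num)
  have s := s.top gep xtep0 tpep0
  have s := s.rng gep xtep1 rep0.2.1 (by norm_num)
  have s := s.top gep xtep1 tpep1
  have s := s.rng gep xtep2 rep0.2.2.1 (by norm_num)
  have s := s.top gep xtep2 tpep2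
  have s := s.rng gep xtep3 rep0.2.2.2 (by norm_num)
  have s := s.top gep xtep3 tpep3
  exact s.fin gep (by decide +kernel) hc

end

theorem clse {p : ℝ} (hp : 1 ≤ p) {n : ℕ} (hn : 7 < n) (x : Fin n → ℝ × ℝ)
    (hx : ∀ i, lp p hp (x i) ≤ 1)
    (l0 : 3 / 4 ≤ max (1 / p) (1 - 1 / p)) (l1 : max (1 / p) (1 - 1 / p) ≤ 8 / 9) :
    ∃ T : BinaryTree (Fin n), labels T = Finset.univ.val ∧
      span (lp p hp) x 0 T ≤ 1 + 2 ^ (1 + max (1 / p) (1 - 1 / p)) :=
  manye.cls hn (a := 4 / 3) (b := 4 / 1) (by norm_num) (by norm_num) (by norm_num) (by norm_num)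
    (lpk_spec _ (by norm_num) lpkea) polyea (lpk_spec _ (by norm_num) lpkeb) polyeb
    (le_two (x := 10000 / (9082 : ℕ)) (m := 5) (n := 36) (by norm_num) (by norm_num) (by norm_num)
      (by norm_num))
    (two_le (x := ((42717 : ℕ) - (9082 : ℕ)) / 10000) (m := 7) (n := 4) (by norm_num) (by norm_num)
      (by norm_num) (by norm_num))
    (by decide) hp x hx l0 l1

theorem all_lp {p : ℝ} (hp : 1 ≤ p) {n : ℕ} (x : Fin n → ℝ × ℝ)
    (hx : ∀ i, lp p hp (x i) ≤ 1) :
    ∃ T : BinaryTree (Fin n), labels T = Finset.univ.val ∧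
      span (lp p hp) x 0 T ≤ 1 + 2 ^ (1 + max (1 / p) (1 - 1 / p)) := by
  rcases le_or_gt n 7 with hn | hn
  · obtain ⟨T, h1, h2⟩ := seven _ (lp_def hp) n hn x hx
    exact ⟨T, h1, by linarith [lam_lp hp]⟩
  have l : 1 / 2 ≤ max (1 / p) (1 - 1 / p) := by
    linarith [le_max_left (1 / p) (1 - 1 / p), le_max_right (1 / p) (1 - 1 / p)]
  refine (le_total _ _).elim (clst hp hn x hx l) fun l => ?_
  refine (le_total _ _).elim (clsa hp hn x hx l) fun l => ?_
  refine (le_total _ _).elim (clsb hp hn x hx l) fun l => ?_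
  refine (le_total _ _).elim (clsc hp hn x hx l) fun l => ?_
  refine (le_total _ _).elim (clse hp hn x hx l) fun l => ?_
  obtain ⟨T, h1, h2⟩ := main_lam (lp_def hp) n x hx
  have := (two_le (x := 37 / 10) (m := 17) (n := 9) (y := 1 + 8 / 9) (by norm_num) (by norm_num)
    (by norm_num) (by norm_num)).trans (Real.rpow_le_rpow_of_exponent_le one_le_two
      (show _ ≤ 1 + max (1 / p) (1 - 1 / p) by linarith))
  exact ⟨T, h1, by linarith [max_le this (lam_lp hp)]⟩

end

end Pool.Agent.MP_1037db_co.LP
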