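import Pool.Agent.MP_1037db_co.Mg.LamMain
import Pool.Agent.MP_1037db_co.LP.Chk

set_option linter.unusedSectionVars false

/-! What the packed comparisons of the checker say. -/

namespace Pool.Agent.MP_1037db_co.LP

theorem an_iff {a b : Bool} : an a b = true ↔ a = true ∧ b = true := by
  cases a <;> cases b <;> simp [an]

theorem orr_iff {a b : Bool} : orr a b = true ↔ a = true ∨ b = true := by
  cases a <;> cases b <;> simp [orr]

theorem brec_iff {a r : Bool} : (Bool.rec false r a : Bool) = true ↔ a = true ∧ r = true := an_iff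

theorem cb_eq (c a b : Bool) : cb c a b = if c = true then a else b := by cases c <;> rfl

theorem cn_eq (c : Bool) (a b : ℕ) : cn c a b = if c = true then a else b := by cases c <;> rfl

theorem nz_eq (c : Bool) (a : ℕ) : nz c a = if c = true then a else 0 := by cases c <;> rfl

theorem fb_eq (n : ℕ) (f : ℕ → Bool) : fb n f = f n := (rfl)

theorem lt_iff {a b : ℕ} : lt a b = true ↔ a < b := by simp [lt]

theorem mn_eq (a b : ℕ) : mn a b = min a b := by simp [mn, cn_eq, min_def]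

theorem mx_eq (a b : ℕ) : mx a b = max a b := by simp [mx, cn_eq, max_def]

theorem al_iff {n : ℕ} {f : ℕ → Bool} : al n f = true ↔ ∀ k < n, f k = true := by
  induction n with
  | zero => simp [al]
  | succ n ih =>
    change an (f n) (al n f) = true ↔ _
    rw [an_iff, ih, Nat.forall_lt_succ_right, and_comm]

theorem nrec {α : Type} (a : α) (b : ℕ → α) (n : ℕ) :
    (Nat.rec a (fun m _ => b m) n : α) = if n = 0 then a else b (n - 1) := by cases n <;> rfl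

theorem bt_le (x i m : ℕ) : bt x i m ≤ m := Nat.and_le_right

theorem bt_sh (x a i m : ℕ) : bt (x >>> a) i m = bt x (a + i) m := by
  simp [bt, Nat.shiftRight_add]

theorem bt_zero (x m : ℕ) : x &&& m = bt x 0 m := rfl

theorem split (x W g G : ℕ) (hg : g < 2 ^ W) :
    x &&& (g + 2 ^ W * G) = (x % 2 ^ W &&& g) + 2 ^ W * (x / 2 ^ W &&& G) := by
  have h0 : 0 < 2 ^ W := by positivity
  conv_lhs => rw [← Nat.mod_add_div (x &&& (g + 2 ^ W * G)) (2 ^ W)]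
  rw [Nat.and_mod_two_pow, Nat.and_div_two_pow, Nat.add_mul_mod_self_left, Nat.mod_eq_of_lt hg,
    Nat.add_mul_div_left _ _ h0, Nat.div_eq_of_lt hg, Nat.zero_add]

theorem fld (x p m : ℕ) : x &&& (2 ^ p * m) = 2 ^ p * bt x p m := by
  simpa [bt, Nat.shiftRight_eq_div_pow] using split x p 0 m (by positivity)

/-- one more field of a mask -/
theorem fld_add (x p m g : ℕ) (hg : g < 2 ^ p) :
    x &&& (g + 2 ^ p * m) = (x &&& g) + 2 ^ p * bt x p m := by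
  have h1 := split x p g 0 hg
  rw [split x p g m hg, ← fld, fld]
  simp only [Nat.mul_zero, Nat.add_zero, Nat.and_zero] at h1
  rw [h1]
  simp [bt, Nat.shiftRight_eq_div_pow]

theorem peel {L R W g G t T : ℕ} (hL : L < 2 ^ W) (hg : g < 2 ^ W) (ht : t < 2 ^ W)
    (h : (L + 2 ^ W * R) &&& (g + 2 ^ W * G) = t + 2 ^ W * T) : L &&& g = t ∧ R &&& G = T := by
  have h0 : 0 < 2 ^ W := by positivity
  rw [split _ _ _ _ hg, Nat.add_mul_mod_self_left, Nat.mod_eq_of_lt hL,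
    Nat.add_mul_div_left _ _ h0, Nat.div_eq_of_lt hL, Nat.zero_add] at h
  have h1 : L &&& g < 2 ^ W := Nat.and_le_left.trans_lt hL
  have h2 := congrArg (· % 2 ^ W) h
  simp only [Nat.add_mul_mod_self_left, Nat.mod_eq_of_lt h1, Nat.mod_eq_of_lt ht] at h2
  rw [h2] at h
  exact ⟨h2, Nat.eq_of_mul_eq_mul_left h0 (Nat.add_left_cancel h)⟩

theorem peel' {L R W g G T : ℕ} (hL : L < 2 ^ W) (hg : g < 2 ^ W)
    (h : (L + 2 ^ W * R) &&& (g + 2 ^ W * G) = g + 2 ^ W * T) : g ≤ L ∧ R &&& G = T :=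
  ⟨(peel hL hg hg h).1 ▸ Nat.and_le_left, (peel hL hg hg h).2⟩

def wv (a b c d : ℕ) : ℕ := a + 2 ^ 18 * b + 2 ^ 72 * c + 2 ^ 90 * d

def q4 (a b c d : ℕ) : ℕ := a + 2 ^ 18 * b + 2 ^ 36 * c + 2 ^ 54 * d

theorem m36 (x : ℕ) : x &&& 17179672575 = bt x 0 65535 + 2 ^ 18 * bt x 18 65535 :=
  fld_add x 18 65535 65535 (by norm_num)

theorem mw (x : ℕ) : x &&& 81128709954854851177730365259775 =
    wv (bt x 0 65535) (bt x 18 65535) (bt x 72 65535) (bt x 90 65535) := by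
  rw [wv, ← m36, ← fld_add _ _ _ _ (by norm_num), ← fld_add _ _ _ _ (by norm_num)]
  rfl

theorem sw_eq (x : ℕ) :
    sw x = wv (bt x 72 65535) (bt x 90 65535) (bt x 0 65535) (bt x 18 65535) := by
  simp only [sw, Nat.add_eq, Nat.mul_eq, Nat.land_eq, Nat.shiftRight_eq', m36, bt_sh, wv]
  ring

def cw (x : ℕ) : ℕ := 2 ^ 36 * bt x 36 3 + 2 ^ 40 * bt x 40 31 + 2 ^ 46 * bt x 46 31 +
  2 ^ 52 * bt x 52 31 + 2 ^ 60 * bt x 60 1 + 2 ^ 62 * bt x 62 1 + 2 ^ 64 * bt x 64 1 +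
  2 ^ 108 * bt x 108 255 + 2 ^ 119 * bt x 119 255

theorem mc (x : ℕ) : x &&& 169559321693759672634918283878271549440 = cw x := by
  rw [cw, ← fld]
  iterate 8 rw [← fld_add _ _ _ _ (by norm_num)]
  rfl

theorem mcw (x : ℕ) : x &&& 169559402822469627489769461608636809215 =
    cw x + wv (bt x 0 65535) (bt x 18 65535) (bt x 72 65535) (bt x 90 65535) := by
  have : cw x + wv (bt x 0 65535) (bt x 18 65535) (bt x 72 65535) (bt x 90 65535) =
      (x &&& 17179672575) + 2 ^ 36 * bt x 36 3 + 2 ^ 40 * bt x 40 31 + 2 ^ 46 * bt x 46 31 +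
      2 ^ 52 * bt x 52 31 + 2 ^ 60 * bt x 60 1 + 2 ^ 62 * bt x 62 1 + 2 ^ 64 * bt x 64 1 +
      2 ^ 72 * bt x 72 65535 + 2 ^ 90 * bt x 90 65535 +
      2 ^ 108 * bt x 108 255 + 2 ^ 119 * bt x 119 255 := by
    rw [m36, cw, wv]
    ring
  rw [this]
  iterate 11 rw [← fld_add _ _ _ _ (by norm_num)]
  rfl

def e4 (x p : ℕ) : ℕ :=
  q4 (bt x p 65535) (bt x (p + 18) 65535) (bt x (p + 36) 65535) (bt x (p + 54) 65535)

theorem m72 (x : ℕ) : x &&& 1180578109866989387775 = e4 x 0 := by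
  rw [e4, q4, ← m36]
  iterate 2 rw [← fld_add _ _ _ _ (by norm_num)]
  rfl

theorem e4_sh (x a p : ℕ) : e4 (x >>> a) p = e4 x (a + p) := by
  simp only [e4, bt_sh, Nat.add_assoc]

theorem m144 (x : ℕ) :
    x &&& 5575122496445468265719638887927621074354175 = e4 x 0 + 2 ^ 72 * e4 x 72 := by
  have := fld_add x 72 1180578109866989387775 1180578109866989387775 (by norm_num)
  rw [m72, bt, Nat.land_eq, Nat.shiftRight_eq', m72, e4_sh] at this
  exact this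

def lo (a b c d e f g h i j k l m n R : ℕ) : ℕ :=
  a + 2 ^ 18 * (b + 2 ^ 18 * (c + 2 ^ 4 * (d + 2 ^ 6 * (e + 2 ^ 6 * (f + 2 ^ 6 * (g + 2 ^ 4 *
    (h + 2 ^ 2 * (i + 2 ^ 8 * (j + 2 ^ 18 * (k + 2 ^ 18 * (l + 2 ^ 11 * (m + 2 ^ 11 *
    (n + 2 ^ 22 * R)))))))))))))

/-- the node with header `x` covers the region -/
structure Cov (x ref K jx c1 c2 xL xI xO A cA B cB i : ℕ) : Prop where
  k : bt x 36 3 ≤ K
  p : bt x 40 31 = jx
  r1 : bt x 46 31 ≤ c1
  r2 : bt x 52 31 ≤ c2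
  l : 4 * bt x 60 1 ≤ 3 * xL + ref / 2 % 4
  fi : bt x 62 1 ≤ xI
  fo : bt x 64 1 ≤ xO
  a : bt x 108 255 + cA ≤ A + 120 * (ref / 2 % 4)
  b : B + 120 * (ref / 2 % 4) + bt x 119 255 ≤ 255 + cB
  n : ref / 8 < i

def cx (K jx c1 c2 xI xO i : ℕ) : ℕ := 2 ^ 36 * K + 2 ^ 40 * jx + 2 ^ 46 * c1 + 2 ^ 52 * c2 +
  2 ^ 62 * xI + 2 ^ 64 * xO + 2 ^ 133 * i

/-- bounds for the data of a context -/
structure Bd (ref K jx c1 c2 xL xR xI xO A cA B cB i : ℕ) : Prop where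
  r : ref ≤ 1048575
  k : K ≤ 7
  j : jx ≤ 31
  c1 : c1 ≤ 31
  c2 : c2 ≤ 31
  l : xL ≤ 1
  xr : xR ≤ 1
  xi : xI ≤ 1
  xo : xO ≤ 1
  a : A ≤ 598
  ca : cA ≤ 598
  b : B ≤ 598
  cb : cB ≤ 598
  i : i ≤ 262144

theorem and6 (r : ℕ) : r &&& 6 = 2 * (r / 2 % 4) := by
  have := fld r 1 3
  rw [bt, Nat.land_eq, Nat.shiftRight_eq', Nat.shiftRight_eq_div_pow,
    Nat.and_two_pow_sub_one_eq_mod _ 2] at this
  exact this

theorem lane (x y G W : ℕ) (hy : y ≤ G + x) (hx : G + x < 2 ^ W) :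
    ∃ L, L + y = G + x ∧ L < 2 ^ W ∧ (G ≤ L → y ≤ x) := ⟨G + x - y, by omega⟩

theorem core0 {r T U K jx c1 c2 xL xI xO A cA B cB i g w0 w1 w2 w3 v0 v1 v2 v3 Y Gm Gt
    k p r1 r2 l fi fo a b z : ℕ}
    (hr : r ≤ 1048575) (hK : K ≤ 7) (hj : jx ≤ 31) (h1 : c1 ≤ 31) (h2 : c2 ≤ 31) (hL : xL ≤ 1)
    (hI : xI ≤ 1) (hO : xO ≤ 1) (hA : A ≤ 599) (hcA : cA ≤ 599) (hB : B ≤ 599) (hcB : cB ≤ 599)
    (hi : i ≤ 262144) (hg : g ≤ 131072) (a0 : w0 ≤ g) (a1 : w1 ≤ g) (a2 : w2 ≤ g) (a3 : w3 ≤ g)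
    (b0 : v0 ≤ 65535) (b1 : v1 ≤ 65535) (b2 : v2 ≤ 65535) (b3 : v3 ≤ 65535)
    (f1 : k ≤ 3) (f2 : p ≤ 31) (f3 : r1 ≤ 31) (f4 : r2 ≤ 31) (f5 : l ≤ 1) (f6 : fi ≤ 1)
    (f7 : fo ≤ 1) (f8 : a ≤ 255) (f9 : b ≤ 255) (hz : z ≤ 3) :
    T + 2 ^ 108 * cA + 2 ^ 119 * B + wv w0 w1 w2 w3 + (2 ^ 36 * k + 2 ^ 40 * p + 2 ^ 46 * r1 +
      2 ^ 52 * r2 + 2 ^ 60 * l + 2 ^ 62 * fi + 2 ^ 64 * fo + 2 ^ 108 * a + 2 ^ 119 * b) +
      2 * z * 39857368760327970583363107259099906048 + r * 2 ^ 130 =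
      U + 2854494705179492919185874028944833089804173312 + wv g g g g + wv v0 v1 v2 v3 +
      cx K jx c1 c2 xI xO i + 864691128455135232 * xL + 2 ^ 108 * A + 2 ^ 119 * (255 + cB) +
      2 ^ 152 * Y →
    (T - U) &&& lo g g 8 63 32 32 8 2 2 g g 1024 1024 2097152 Gm =
      lo g g 8 32 32 32 8 2 2 g g 1024 1024 2097152 Gt →
    (k ≤ K ∧ p = jx ∧ r1 ≤ c1 ∧ r2 ≤ c2 ∧ 4 * l ≤ 3 * xL + z ∧ fi ≤ xI ∧ fo ≤ xO ∧
      a + cA ≤ A + 120 * z ∧ B + 120 * z + b ≤ 255 + cB ∧ r / 8 < i) ∧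
      (w0 ≤ v0 ∧ w1 ≤ v1 ∧ w2 ≤ v2 ∧ w3 ≤ v3) ∧ Y &&& Gm = Gt := by
  obtain ⟨L0, e0, u0, q0⟩ := lane v0 w0 g 18 (by linarith) (by linarith)
  obtain ⟨L1, e1, u1, q1⟩ := lane v1 w1 g 18 (by linarith) (by linarith)
  obtain ⟨L2, e2, u2, q2⟩ := lane K k 8 4 (by linarith) (by linarith)
  obtain ⟨L3, e3, u3, q3⟩ := lane jx p 32 6 (by linarith) (by linarith)
  obtain ⟨L4, e4, u4, q4⟩ := lane c1 r1 32 6 (by linarith) (by linarith)
  obtain ⟨L5, e5, u5, q5⟩ := lane c2 r2 32 6 (by linarith) (by linarith)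
  obtain ⟨L6, e6, u6, q6⟩ := lane (3 * xL + z) (4 * l) 8 4 (by linarith) (by linarith)
  obtain ⟨L7, e7, u7, q7⟩ := lane xI fi 2 2 (by linarith) (by linarith)
  obtain ⟨L8, e8, u8, q8⟩ := lane xO fo 2 8 (by linarith) (by linarith)
  obtain ⟨L9, e9, u9, q9⟩ := lane v2 w2 g 18 (by linarith) (by linarith)
  obtain ⟨L10, e10, u10, q10⟩ := lane v3 w3 g 18 (by linarith) (by linarith)
  obtain ⟨L11, e11, u11, q11⟩ := lane (A + 120 * z) (a + cA) 1024 11 (by linarith) (by linarith)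
  obtain ⟨L12, e12, u12, q12⟩ := lane (255 + cB) (B + 120 * z + b) 1024 11 (by linarith) (by linarith)
  obtain ⟨L13, e13, u13, q13⟩ : ∃ L, L + (r + 1) = 2097152 + 8 * i ∧ L < 2 ^ 22 ∧
      (2097152 ≤ L → r / 8 < i) := ⟨2097151 + 8 * i - r, by clear * - hr hi; omega⟩
  have u : g < 2 ^ 18 := by linarith
  have q3' : L3 % 2 ^ 6 = 32 → p = jx := by clear * - e3 u3; omega
  intro hT h
  have e : T - U = lo L0 L1 L2 L3 L4 L5 L6 L7 L8 L9 L10 L11 L12 L13 Y := by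
    refine Nat.sub_eq_of_eq_add ?_
    delta lo
    delta wv cx at hT
    zify at hT e0 e1 e2 e3 e4 e5 e6 e7 e8 e9 e10 e11 e12 e13 ⊢
    linear_combination hT - e0 - 2 ^ 18 * e1 - 2 ^ 36 * e2 - 2 ^ 40 * e3 - 2 ^ 46 * e4 -
      2 ^ 52 * e5 - 2 ^ 58 * e6 - 2 ^ 62 * e7 - 2 ^ 64 * e8 - 2 ^ 72 * e9 - 2 ^ 90 * e10 -
      2 ^ 108 * e11 - 2 ^ 119 * e12 - 2 ^ 130 * e13
  rw [e] at h
  delta lo at h
  obtain ⟨p0, h⟩ := peel' u0 u h
  obtain ⟨p1, h⟩ := peel' u1 u h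
  obtain ⟨p2, h⟩ := peel' u2 (by norm_num) h
  obtain ⟨p3, h⟩ := peel u3 (by norm_num) (by norm_num) h
  obtain ⟨p4, h⟩ := peel' u4 (by norm_num) h
  obtain ⟨p5, h⟩ := peel' u5 (by norm_num) h
  obtain ⟨p6, h⟩ := peel' u6 (by norm_num) h
  obtain ⟨p7, h⟩ := peel' u7 (by norm_num) h
  obtain ⟨p8, h⟩ := peel' u8 (by norm_num) h
  obtain ⟨p9, h⟩ := peel' u9 u h
  obtain ⟨p10, h⟩ := peel' u10 u h
  obtain ⟨p11, h⟩ := peel' u11 (by norm_num) h
  obtain ⟨p12, h⟩ := peel' u12 (by norm_num) h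
  obtain ⟨p13, h⟩ := peel' u13 (by norm_num) h
  have p3' : L3 % 2 ^ 6 = 32 := (Nat.and_two_pow_sub_one_eq_mod L3 6).symm.trans p3
  exact ⟨⟨q2 p2, q3' p3', q4 p4, q5 p5, q6 p6, q7 p7, q8 p8, q11 p11, q12 p12, q13 p13⟩,
    ⟨q0 p0, q1 p1, q9 p9, q10 p10⟩, h⟩

theorem core {x ref T U K jx c1 c2 xL xI xO A cA B cB i g w0 w1 w2 w3 v0 v1 v2 v3 Y Gm Gt : ℕ}
    (hr : ref ≤ 1048575) (hK : K ≤ 7) (hj : jx ≤ 31) (h1 : c1 ≤ 31) (h2 : c2 ≤ 31) (hL : xL ≤ 1)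
    (hI : xI ≤ 1) (hO : xO ≤ 1) (hA : A ≤ 599) (hcA : cA ≤ 599) (hB : B ≤ 599) (hcB : cB ≤ 599)
    (hi : i ≤ 262144) (hg : g ≤ 131072) (a0 : w0 ≤ g) (a1 : w1 ≤ g) (a2 : w2 ≤ g) (a3 : w3 ≤ g)
    (b0 : v0 ≤ 65535) (b1 : v1 ≤ 65535) (b2 : v2 ≤ 65535) (b3 : v3 ≤ 65535)
    (hT : T + 2 ^ 108 * cA + 2 ^ 119 * B + wv w0 w1 w2 w3 + cw x +
      (ref &&& 6) * 39857368760327970583363107259099906048 + ref * 2 ^ 130 =
      U + 2854494705179492919185874028944833089804173312 + wv g g g g + wv v0 v1 v2 v3 +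
      cx K jx c1 c2 xI xO i + 864691128455135232 * xL + 2 ^ 108 * A + 2 ^ 119 * (255 + cB) +
      2 ^ 152 * Y)
    (h : (T - U) &&& lo g g 8 63 32 32 8 2 2 g g 1024 1024 2097152 Gm =
      lo g g 8 32 32 32 8 2 2 g g 1024 1024 2097152 Gt) :
    Cov x ref K jx c1 c2 xL xI xO A cA B cB i ∧ (w0 ≤ v0 ∧ w1 ≤ v1 ∧ w2 ≤ v2 ∧ w3 ≤ v3) ∧
      Y &&& Gm = Gt := by
  rw [and6, cw] at hT
  obtain ⟨⟨q1, q2, q3, q4, q5, q6, q7, q8, q9, q10⟩, q⟩ := core0 hr hK hj h1 h2 hL hI hO hA hcA hB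
    hcB hi hg a0 a1 a2 a3 b0 b1 b2 b3 (bt_le _ _ _) (bt_le _ _ _) (bt_le _ _ _) (bt_le _ _ _)
    (bt_le _ _ _) (bt_le _ _ _) (bt_le _ _ _) (bt_le _ _ _) (bt_le _ _ _)
    (Nat.le_of_lt_succ (Nat.mod_lt _ (by norm_num))) hT h
  exact ⟨⟨q1, q2, q3, q4, q5, q6, q7, q8, q9, q10⟩, q⟩

def hq (a b c d R : ℕ) : ℕ := a + 2 ^ 18 * (b + 2 ^ 18 * (c + 2 ^ 18 * (d + 2 ^ 18 * R)))

theorem blk4 {a0 a1 a2 a3 y0 y1 y2 y3 : ℕ} (h0 : a0 ≤ 65535) (h1 : a1 ≤ 65535) (h2 : a2 ≤ 65535)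
    (h3 : a3 ≤ 65535) (k0 : y0 ≤ 131070) (k1 : y1 ≤ 131070) (k2 : y2 ≤ 131070) (k3 : y3 ≤ 131070) :
    ∃ Z : ℕ → ℕ, (∀ R, Z R + q4 y0 y1 y2 y3 =
      q4 131072 131072 131072 131072 + q4 a0 a1 a2 a3 + 2 ^ 72 * R) ∧
      ∀ {R g0 g1 g2 g3 G : ℕ}, g0 ≤ 131072 → g1 ≤ 131072 → g2 ≤ 131072 → g3 ≤ 131072 →
      Z R &&& hq g0 g1 g2 g3 G = hq g0 g1 g2 g3 G → ((g0 = 131072 → y0 ≤ a0) ∧
      (g1 = 131072 → y1 ≤ a1) ∧ (g2 = 131072 → y2 ≤ a2) ∧ (g3 = 131072 → y3 ≤ a3)) ∧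
      R &&& G = G := by
  obtain ⟨L0, e0, u0, q0⟩ := lane a0 y0 131072 18 (by linarith) (by linarith)
  obtain ⟨L1, e1, u1, q1⟩ := lane a1 y1 131072 18 (by linarith) (by linarith)
  obtain ⟨L2, e2, u2, q2⟩ := lane a2 y2 131072 18 (by linarith) (by linarith)
  obtain ⟨L3, e3, u3, q3⟩ := lane a3 y3 131072 18 (by linarith) (by linarith)
  refine ⟨hq L0 L1 L2 L3, fun R => ?_, fun b0 b1 b2 b3 h => ?_⟩
  · delta hq q4
    zify at e0 e1 e2 e3 ⊢
    linear_combination e0 + 2 ^ 18 * e1 + 2 ^ 36 * e2 + 2 ^ 54 * e3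
  · unfold hq at h
    obtain ⟨p0, h⟩ := peel' u0 (by linarith) h
    obtain ⟨p1, h⟩ := peel' u1 (by linarith) h
    obtain ⟨p2, h⟩ := peel' u2 (by linarith) h
    obtain ⟨p3, h⟩ := peel' u3 (by linarith) h
    exact ⟨⟨fun e => q0 (e ▸ p0), fun e => q1 (e ▸ p1), fun e => q2 (e ▸ p2),
      fun e => q3 (e ▸ p3)⟩, h⟩

theorem add_le2 (x p y q : ℕ) : bt x p 65535 + bt y q 65535 ≤ 131070 :=
  Nat.add_le_add (bt_le _ _ _) (bt_le _ _ _)

theorem qc_spec {x ref T U y K jx c1 c2 xL xI xO A cA B cB i m0 m1 : ℕ}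
    (hr : ref ≤ 1048575) (hK : K ≤ 7) (hj : jx ≤ 31) (h1 : c1 ≤ 31) (h2 : c2 ≤ 31) (hL : xL ≤ 1)
    (hI : xI ≤ 1) (hO : xO ≤ 1) (hA : A ≤ 599) (hcA : cA ≤ 599) (hB : B ≤ 599) (hcB : cB ≤ 599)
    (hi : i ≤ 262144) (b0 : m0 ≤ 65535) (b1 : m1 ≤ 65535)
    (hT : T + 2 ^ 108 * cA + 2 ^ 119 * B = U + 2854494705179492919185874028944833089804173312 + cx K jx c1 c2 xI xO i + 864691128455135232 * xL +
      2 ^ 108 * A + 2 ^ 119 * (255 + cB) + (63657617094990558659628931840444436415748764348552169814906247509277216087877029839503360 + vb m0 m1 * 7067415219060204468974481253372378698352689322148743724669014129235722240))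
    (h : qc x ref T U (y &&& 1180578109866989387775) = true) :
    Cov x ref K jx c1 c2 xL xI xO A cA B cB i ∧
      (bt y 0 65535 + bt x 0 65535 ≤ m0 ∧ bt y 18 65535 + bt x 18 65535 ≤ m0 ∧
        bt y 36 65535 + bt x 0 65535 ≤ m1 ∧ bt y 54 65535 + bt x 18 65535 ≤ m1) ∧
      bt y 0 65535 + bt x 72 65535 ≤ m0 ∧ bt y 18 65535 + bt x 90 65535 ≤ m0 ∧
        bt y 36 65535 + bt x 72 65535 ≤ m1 ∧ bt y 54 65535 + bt x 90 65535 ≤ m1 := by
  obtain ⟨Z0, e0, s0⟩ := blk4 b0 b0 b1 b1 (add_le2 y 0 x 0) (add_le2 y 18 x 18) (add_le2 y 36 x 0)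
    (add_le2 y 54 x 18)
  obtain ⟨Z1, e1, s1⟩ := blk4 b0 b0 b1 b1 (add_le2 y 0 x 72) (add_le2 y 18 x 90)
    (add_le2 y 36 x 72) (add_le2 y 54 x 90)
  have h' := Nat.eq_of_beq_eq_true h
  simp only [Nat.add_eq, Nat.mul_eq, Nat.sub_eq, Nat.land_eq, mc, mw, m72] at h'
  obtain ⟨c, -, h'⟩ := core (Y := Z0 (Z1 0)) (g := 0) (w0 := 0) (w1 := 0) (w2 := 0) (w3 := 0)
    (v0 := 0) (v1 := 0) (v2 := 0) (v3 := 0)
    (Gm := hq 131072 131072 131072 131072 (hq 131072 131072 131072 131072 0))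
    (Gt := hq 131072 131072 131072 131072 (hq 131072 131072 131072 131072 0))
    hr hK hj h1 h2 hL hI hO hA hcA hB hcB hi (by norm_num) le_rfl le_rfl le_rfl le_rfl
    (by norm_num) (by norm_num) (by norm_num) (by norm_num) (by
      have e0 := e0 (Z1 0)
      have e1 := e1 0
      simp only [e4, q4, wv, vb, Nat.add_eq, Nat.mul_eq, Nat.zero_add] at hT e0 e1 ⊢
      zify at hT e0 e1 ⊢
      linear_combination hT - 2 ^ 152 * e0 - 2 ^ 224 * e1) h'
  obtain ⟨p, h'⟩ := s0 le_rfl le_rfl le_rfl le_rfl h'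
  obtain ⟨q, -⟩ := s1 le_rfl le_rfl le_rfl le_rfl h'
  exact ⟨c, ⟨p.1 rfl, p.2.1 rfl, p.2.2.1 rfl, p.2.2.2 rfl⟩, q.1 rfl, q.2.1 rfl, q.2.2.1 rfl,
    q.2.2.2 rfl⟩

/-- the four comparisons of a block -/
def S4 (g c e y p v v' w w' : ℕ) : Prop :=
  (g = 131072 → bt y p 65535 + w ≤ v) ∧ (c = 131072 → bt y (p + 18) 65535 + w' ≤ v) ∧
    (e = 131072 → bt y (p + 36) 65535 + w ≤ v') ∧ (g = 131072 → bt y (p + 54) 65535 + w' ≤ v')

def gx (a a1 a2 c e b b1 b2 : ℕ) : ℕ := lo 0 0 8 32 32 32 8 2 2 0 0 1024 1024 2097152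
  (hq a a1 a2 a (hq 131072 c e 131072 (hq 131072 c e 131072 (hq b b1 b2 b 0))))

theorem qe_spec {x ref T U y K jx c1 c2 xL xI xO A cA B cB i p0 p1 p2 p3 a a1 a2 c e b b1 b2 : ℕ}
    (hr : ref ≤ 1048575) (hK : K ≤ 7) (hj : jx ≤ 31) (h1 : c1 ≤ 31) (h2 : c2 ≤ 31) (hL : xL ≤ 1)
    (hI : xI ≤ 1) (hO : xO ≤ 1) (hA : A ≤ 599) (hcA : cA ≤ 599) (hB : B ≤ 599) (hcB : cB ≤ 599)
    (hi : i ≤ 262144) (t0 : p0 ≤ 65535) (t1 : p1 ≤ 65535) (t2 : p2 ≤ 65535) (t3 : p3 ≤ 65535)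
    (hg : a ≤ 131072 ∧ a1 ≤ 131072 ∧ a2 ≤ 131072 ∧ c ≤ 131072 ∧ e ≤ 131072 ∧ b ≤ 131072 ∧
      b1 ≤ 131072 ∧ b2 ≤ 131072)
    (hT : T + 2 ^ 108 * cA + 2 ^ 119 * B = U + 2854494705179492919185874028944833089804173312 + cx K jx c1 c2 xI xO i + 864691128455135232 * xL +
      2 ^ 108 * A + 2 ^ 119 * (255 + cB) + (1419612298781011615649678952475016771720260989886843619185417813866810540483857042694289260734059777086614141044292360906313165701120 + (vb p0 p1 * 7067415219060204468974481253372378698352689322148743724669014129235722240 + vb p2 p3 * 157608626012479106950455875032358246031540767862531061979056877007350196635150709975299591994347402807817141055651840)))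
    (h : qe x ref T U (y &&& 26327771615106622073631788543845694075442754821128109490054168575) (gx a a1 a2 c e b b1 b2) = true) :
    Cov x ref K jx c1 c2 xL xI xO A cA B cB i ∧
      S4 a a1 a2 y 0 p0 p1 (bt x 0 65535) (bt x 18 65535) ∧
      S4 131072 c e y 72 p0 p1 (bt x 72 65535) (bt x 90 65535) ∧
      S4 131072 c e y 72 p2 p3 (bt x 0 65535) (bt x 18 65535) ∧
      S4 b b1 b2 y 144 p2 p3 (bt x 72 65535) (bt x 90 65535) := by
  obtain ⟨Z0, e0, s0⟩ := blk4 t0 t0 t1 t1 (add_le2 y 0 x 0) (add_le2 y (0 + 18) x 18)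
    (add_le2 y (0 + 36) x 0) (add_le2 y (0 + 54) x 18)
  obtain ⟨Z1, e1, s1⟩ := blk4 t0 t0 t1 t1 (add_le2 y 72 x 72) (add_le2 y (72 + 18) x 90)
    (add_le2 y (72 + 36) x 72) (add_le2 y (72 + 54) x 90)
  obtain ⟨Z2, e2, s2⟩ := blk4 t2 t2 t3 t3 (add_le2 y 72 x 0) (add_le2 y (72 + 18) x 18)
    (add_le2 y (72 + 36) x 0) (add_le2 y (72 + 54) x 18)
  obtain ⟨Z3, e3, s3⟩ := blk4 t2 t2 t3 t3 (add_le2 y 144 x 72) (add_le2 y (144 + 18) x 90)
    (add_le2 y (144 + 36) x 72) (add_le2 y (144 + 54) x 90)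
  have h' := Nat.eq_of_beq_eq_true h
  have m1 : y &&& 26327771615106622073631788543845694075442754821128109490054168575 &&& 5575122496445468265719638887927621074354175 = e4 y 0 + 2 ^ 72 * e4 y 72 := by
    rw [Nat.and_assoc, ← m144]
    rfl
  have m2 : (y &&& 26327771615106622073631788543845694075442754821128109490054168575) >>> 72 = e4 y 72 + 2 ^ 72 * e4 y 144 := by
    rw [Nat.shiftRight_and_distrib]
    exact (m144 _).trans (by rw [e4_sh, e4_sh])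
  have m3 : gx a a1 a2 c e b b1 b2 + 34084860461056 = lo 0 0 8 63 32 32 8 2 2 0 0 1024 1024 2097152
      (hq a a1 a2 a (hq 131072 c e 131072 (hq 131072 c e 131072 (hq b b1 b2 b 0)))) := by
    delta gx lo
    ring
  simp only [Nat.add_eq, Nat.mul_eq, Nat.sub_eq, Nat.land_eq, Nat.shiftRight_eq', mc, mw, m1, m2,
    m3] at h'
  obtain ⟨g0, g1, g2, g3, g4, g5, g6, g7⟩ := hg
  obtain ⟨c, -, h'⟩ := core (Y := Z0 (Z1 (Z2 (Z3 0)))) (g := 0) (w0 := 0) (w1 := 0) (w2 := 0)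
    (w3 := 0) (v0 := 0) (v1 := 0) (v2 := 0) (v3 := 0)
    hr hK hj h1 h2 hL hI hO hA hcA hB hcB hi (by norm_num) le_rfl le_rfl le_rfl le_rfl
    (by norm_num) (by norm_num) (by norm_num) (by norm_num) (by
      have e0 := e0 (Z1 (Z2 (Z3 0)))
      have e1 := e1 (Z2 (Z3 0))
      have e2 := e2 (Z3 0)
      have e3 := e3 0
      simp only [e4, q4, wv, vb, Nat.add_eq, Nat.mul_eq, Nat.zero_add, Nat.reduceAdd]
        at hT e0 e1 e2 e3 ⊢
      zify at hT e0 e1 e2 e3 ⊢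
      linear_combination hT - 2 ^ 152 * e0 - 2 ^ 224 * e1 - 2 ^ 256 * 2 ^ 40 * e2 -
        2 ^ 256 * 2 ^ 112 * e3) h'
  obtain ⟨p, h'⟩ := s0 g0 g1 g2 g0 h'
  obtain ⟨q, h'⟩ := s1 le_rfl g3 g4 le_rfl h'
  obtain ⟨r, h'⟩ := s2 le_rfl g3 g4 le_rfl h'
  exact ⟨c, p, q, r, (s3 g5 g6 g7 g5 h').1⟩

theorem pl_aux {x ref T U K jx c1 c2 xL xI xO A cA B cB i v0 v1 v2 v3 : ℕ}
    (hr : ref ≤ 1048575) (hK : K ≤ 7) (hj : jx ≤ 31) (h1 : c1 ≤ 31) (h2 : c2 ≤ 31) (hL : xL ≤ 1)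
    (hI : xI ≤ 1) (hO : xO ≤ 1) (hA : A ≤ 599) (hcA : cA ≤ 599) (hB : B ≤ 599) (hcB : cB ≤ 599)
    (hi : i ≤ 262144) (b0 : v0 ≤ 65535) (b1 : v1 ≤ 65535) (b2 : v2 ≤ 65535) (b3 : v3 ≤ 65535)
    (hT : T + 2 ^ 108 * cA + 2 ^ 119 * B = U + 2854494705179492919185874028944833089804173312 + 162259895799233006081749819719680 + wv v0 v1 v2 v3 +
      cx K jx c1 c2 xI xO i + 864691128455135232 * xL + 2 ^ 108 * A + 2 ^ 119 * (255 + cB))
    (h : (T - ((x &&& 169559402822469627489769461608636809215) + U + ((ref &&& 6) * 39857368760327970583363107259099906048 + ref * 1361129467683753853853498429727072845824))) &&& 2854496066309122862835527115449378651557199872 = 2854496066309122862835527115449344566696738816) :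
    Cov x ref K jx c1 c2 xL xI xO A cA B cB i ∧ bt x 0 65535 ≤ v0 ∧ bt x 18 65535 ≤ v1 ∧
      bt x 72 65535 ≤ v2 ∧ bt x 90 65535 ≤ v3 := by
  have u : ∀ p, bt x p 65535 ≤ 131072 := fun p => (bt_le _ _ _).trans (by norm_num)
  rw [mcw] at h
  have := core (Y := 0) (g := 131072) (Gm := 0) (Gt := 0) hr hK hj h1 h2 hL hI hO hA hcA hB hcB hi
    le_rfl (u 0) (u 18) (u 72) (u 90) b0 b1 b2 b3 (by
      simp only [wv] at hT ⊢
      zify at hT ⊢
      linear_combination hT) h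
  exact ⟨this.1, this.2.1⟩

end Pool.Agent.MP_1037db_co.LP

/-! A model of distances in polar coordinates with 120 columns, given by a table of linear forms. -/

namespace Pool.Agent.MP_1037db_co.LP

open Real

noncomputable section

def co (x : ℝ) : ℝ := cos (π * x / 60)

theorem co_neg (x : ℝ) : co (-x) = co x := by simp [co, neg_div]

theorem co_abs {n : ℝ} (z : ℤ) : co n = co |n - 120 * z| := by
  rw [co, co, ← cos_sub_int_mul_two_pi _ z, ← cos_abs]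
  congr 1
  rw [show π * n / 60 - z * (2 * π) = π / 60 * (n - 120 * z) by ring, abs_mul,
    abs_of_pos (by positivity : 0 < π / 60)]
  ring

theorem co_anti {K n : ℝ} (z : ℤ) (h : |n - 120 * z| ≤ K) (hK : K ≤ 60) : co K ≤ co n := by
  rw [co_abs (n := n) z]
  refine cos_le_cos_of_nonneg_of_le_pi (by positivity) (by nlinarith [pi_pos]) ?_
  gcongr

theorem co_sixty (n : ℝ) : co 60 ≤ co n := by
  rw [co, mul_div_cancel_right₀ _ (by norm_num), cos_pi]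
  exact neg_one_le_cos _

theorem exists_cell (f : ℕ → ℝ) {x : ℝ} {lo hi : ℕ} (h : lo < hi) (h1 : f lo ≤ x) (h2 : x ≤ f hi) :
    ∃ j, lo ≤ j ∧ j < hi ∧ f j ≤ x ∧ x ≤ f (j + 1) := by
  induction h with
  | refl => exact ⟨lo, le_rfl, lo.lt_succ_self, h1, h2⟩
  | @step hi h ih =>
    rcases le_total x (f hi) with c | c
    · obtain ⟨j, a, b, d⟩ := ih c
      exact ⟨j, a, b.trans hi.lt_succ_self, d⟩
    · exact ⟨hi, le_of_lt h, hi.lt_succ_self, c, h2⟩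

def bil (v0 v1 v2 v3 x z : ℝ) : ℝ := (1 - z) * ((1 - x) * v0 + x * v1) + z * ((1 - x) * v2 + x * v3)

/-- distance of columns -/
def fz (n : ℤ) : ℕ := min (n % 120).toNat (120 - (n % 120).toNat)

theorem fz_le (n : ℤ) : fz n ≤ 60 := by unfold fz; omega

theorem fz_co (n : ℤ) : co (fz n) = co n := by
  obtain ⟨z, h⟩ : ∃ z : ℤ, |n - 120 * z| = fz n := by
    unfold fz
    rcases le_total (n % 120) 60 with c | c
    · exact ⟨n / 120, by rw [abs_eq (by omega)]; omega⟩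
    · exact ⟨n / 120 + 1, by rw [abs_eq (by omega)]; omega⟩
  rw [co_abs (n := n) z]
  congr 1
  exact_mod_cast h.symm

theorem fz_of_co {k : ℕ} {n : ℤ} (h : co k ≤ co n) : fz n ≤ k := by
  rw [← fz_co] at h
  refine not_lt.1 fun c => h.not_gt ?_
  have a : (k : ℝ) < fz n := by exact_mod_cast c
  have b : (fz n : ℝ) ≤ 60 := by exact_mod_cast fz_le n
  refine cos_lt_cos_of_nonneg_of_le_pi (by positivity) (by nlinarith [pi_pos]) ?_
  gcongr

theorem fo_eq (n : ℕ) : fo n = fz n := by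
  simp only [fo, fz, mn_eq, Nat.sub_eq]
  change min (n % 120) (120 - n % 120) = _
  omega

/-- numbers with given digits in base `2 ^ 72` -/
def pk : ℕ → (ℕ → ℕ) → ℕ
  | 0, _ => 0
  | n + 1, f => f 0 + 2 ^ 72 * pk n fun y => f (y + 1)

theorem pk_lin (a b n : ℕ) : ∀ f g : ℕ → ℕ,
    a * pk n f + b * pk n g = pk n fun y => a * f y + b * g y := by
  induction n with
  | zero => intro f g; rfl
  | succ n ih => intro f g; simp only [pk, ← ih]; ring

theorem ones_eq (n m : ℕ) : ones n * m = pk n fun _ => m := by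
  induction n with
  | zero => exact Nat.zero_mul m
  | succ n ih =>
    change (1 + 2 ^ 72 * ones n) * m = _
    rw [pk, ← ih]
    ring

theorem pk_and (n m : ℕ) (hm : m < 2 ^ 72) : ∀ x : ℕ,
    x &&& ones n * m = pk n fun y => bt x (y * 72) m := by
  rw [ones_eq]
  induction n with
  | zero => intro x; simp [pk]
  | succ n ih =>
    intro x
    have := split x 72 m 0 hm
    simp only [Nat.mul_zero, Nat.add_zero, Nat.and_zero] at this
    rw [pk, pk, split _ _ _ _ hm, ← this, ih, ← Nat.shiftRight_eq_div_pow]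
    simp only [bt_sh, Nat.add_mul, Nat.add_comm, Nat.one_mul, Nat.zero_mul]
    rfl

theorem lv_spec (n : ℕ) : ∀ f g : ℕ → ℕ, (∀ y, f y < 2 ^ 71) → (∀ y, g y < 2 ^ 71) →
    lv (ones n * 2 ^ 71) (pk n f) (pk n g) = true → ∀ y < n, g y ≤ f y := by
  simp only [lv, Nat.beq_eq, Nat.add_eq, Nat.sub_eq, Nat.land_eq, ones_eq]
  have le : ∀ n (f g : ℕ → ℕ), (∀ y, g y < 2 ^ 71) → pk n g ≤ pk n f + pk n fun _ => 2 ^ 71 := by
    intro n
    induction n with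
    | zero => intro f g _; rfl
    | succ n ih =>
      intro f g hg
      have := ih (fun y => f (y + 1)) (fun y => g (y + 1)) fun y => hg _
      have := hg 0
      simp only [pk]
      omega
  induction n with
  | zero => exact fun _ _ _ _ _ _ h => nomatch h
  | succ n ih =>
    intro f g hf hg h y hy
    have a := le n (fun y => f (y + 1)) (fun y => g (y + 1)) fun y => hg _
    have b := hf 0
    have c := hg 0
    simp only [pk] at h
    rw [show f 0 + 2 ^ 72 * (pk n fun y => f (y + 1)) + (2 ^ 71 + 2 ^ 72 * pk n fun _ => 2 ^ 71) -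
      (g 0 + 2 ^ 72 * pk n fun y => g (y + 1)) = (f 0 + 2 ^ 71 - g 0) + 2 ^ 72 *
      ((pk n fun y => f (y + 1)) + (pk n fun _ => 2 ^ 71) - pk n fun y => g (y + 1)) by omega] at h
    obtain ⟨d, e⟩ := peel' (by omega) (by norm_num) h
    cases y with
    | zero => omega
    | succ y => exact ih _ _ (fun y => hf _) (fun y => hg _) e y (by omega)

/-- the data of a model -/
class Geo where
  A : Tr
  B : Tr
  T : Tr
  hc : ℕ
  c0 : ℕ
  lim : ℕ
  ok : geo A B T hc = true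

variable [G : Geo]

def fm (k l : ℕ) (a b : ℝ) : ℝ := (fa G.A (k + 1) l * a + (fc G.B (k + 1) l - 65536) * b) / 65536

def Ph (k : ℕ) (a b : ℝ) : ℝ :=
  (Finset.range 12).sup' ⟨0, by simp⟩ fun l => max (fm k l a b) (fm k l b a)

def dd (a s b t : ℝ) : ℝ := (1 - (t - s - ⌊t - s⌋)) * Ph (fz ⌊t - s⌋) a b +
  (t - s - ⌊t - s⌋) * Ph (fz (⌊t - s⌋ + 1)) a b

theorem fm_wf (k l x y : ℕ) : fm k l x y = (wf G.A G.B k l x y - 65536 * y) / 65536 := by
  simp only [fm, wf, Nat.add_eq, Nat.mul_eq]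
  push_cast
  ring

theorem le_Ph {l : ℕ} (k : ℕ) (hl : l < 12) (a b : ℝ) :
    fm k l a b ≤ Ph k a b ∧ fm k l b a ≤ Ph k a b :=
  max_le_iff.1 (Finset.le_sup' (fun l => max (fm k l a b) (fm k l b a)) (Finset.mem_range.2 hl))

theorem Ph_le {k : ℕ} {a b d : ℝ} (h : ∀ l < 12, fm k l a b ≤ d ∧ fm k l b a ≤ d) : Ph k a b ≤ d :=
  Finset.sup'_le _ _ fun l hl => max_le_iff.2 (h l (Finset.mem_range.1 hl))

theorem Ph_comm (k : ℕ) (a b : ℝ) : Ph k a b = Ph k b a :=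
  le_antisymm (Ph_le fun _ hl => (le_Ph k hl b a).symm) (Ph_le fun _ hl => (le_Ph k hl a b).symm)

theorem Ph_sub (k : ℕ) {l m n : ℝ} (hl : 0 ≤ l) (hm : 0 ≤ m) (hn : 0 ≤ n) (a b a' b' x y : ℝ) :
    Ph k (l * a + m * a' + n * x) (l * b + m * b' + n * y) ≤
      l * Ph k a b + m * Ph k a' b' + n * Ph k x y := by
  have e : ∀ i a b a' b' x y, fm k i (l * a + m * a' + n * x) (l * b + m * b' + n * y) =
      l * fm k i a b + m * fm k i a' b' + n * fm k i x y := by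
    intros
    unfold fm
    ring
  refine Ph_le fun i hi => ⟨?_, ?_⟩ <;> rw [e] <;> gcongr
  exacts [(le_Ph k hi _ _).1, (le_Ph k hi _ _).1, (le_Ph k hi _ _).1, (le_Ph k hi _ _).2,
    (le_Ph k hi _ _).2, (le_Ph k hi _ _).2]

theorem geo_spec : (∀ l < 12, G.A.get l = pk 123 (fun y => fa G.A y l) ∧
      G.B.get l = pk 123 (fun y => fc G.B y l) ∧
      (∀ y < 123, fa G.A y l = fa G.A (fo (y + 119) + 1) l ∧ fc G.B y l = fc G.B (fo (y + 119) + 1) l) ∧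
      ∀ k < 61, fa G.A (k + 1) l ≤ 65536 ∧ fc G.B (k + 1) l ≤ 131072 ∧
        wf G.A G.B k l 1 1 * 1000000 ≤ (G.hc * k + 1000000) * 65536) ∧
    (∀ k < 61, ta G.T k 0 = 0 ∧ ta G.T k 12 = 1024 ∧ ∀ i < 12, ta G.T k i < ta G.T k (i + 1)) ∧
    ∀ k < 60, ∀ i < 13, ∀ l < 12, wf G.A G.B k l 1024 (ta G.T (k + 1) i) ≤ wr G.A G.B G.T (k + 1) i ∧
      wf G.A G.B k l (ta G.T (k + 1) i) 1024 + ta G.T (k + 1) i * 65536 ≤
        wr G.A G.B G.T (k + 1) i + 67108864 := by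
  have h := G.ok
  simp only [geo, an_iff, al_iff, fb_eq, lt_iff, Nat.ble_eq, Nat.beq_eq, Nat.add_eq, Nat.mul_eq,
    Nat.land_eq] at h
  refine ⟨fun l hl => ?_, h.2⟩
  obtain ⟨a, b, c⟩ := h.1 l hl
  exact ⟨a.symm.trans (pk_and _ _ (by norm_num) _), b.symm.trans (pk_and _ _ (by norm_num) _), c⟩

/-- a sublinear function that is bounded on the rays is bounded -/
theorem dom {k : ℕ} (hk : k ≤ 60) (f : ℝ → ℝ → ℝ) (hf : ∀ l m a b c : ℝ, 0 ≤ l → 0 ≤ m →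
      f (l * a + m * a) (l * b + m * c) ≤ l * f a b + m * f a c)
    (h : ∀ i < 13, f 1024 (ta G.T k i) ≤ (wr G.A G.B G.T k i - 65536 * ta G.T k i) / 65536)
    {a b : ℝ} (hb : 0 ≤ b) (ha : b ≤ a) : f a b ≤ Ph k a b := by
  obtain ⟨t0, t1, t2⟩ := geo_spec.2.1 k (by omega)
  rcases (hb.trans ha).eq_or_lt with rfl | h0
  · obtain rfl := le_antisymm ha hb
    have := hf 0 0 0 0 0 le_rfl le_rfl
    have e := (le_Ph k (l := 0) (by norm_num) 0 0).1
    simp only [fm, mul_zero, add_zero, zero_div, zero_mul] at this e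
    exact this.trans e
  obtain ⟨i, -, hi, a1, a2⟩ := exists_cell (fun i => ta G.T k i) (x := 1024 * b / a) (lo := 0) (hi := 12)
    (by norm_num) (by rw [t0, Nat.cast_zero]; positivity)
    (by rw [t1, div_le_iff₀ h0]; push_cast; linarith)
  have d : (0 : ℝ) < ta G.T k (i + 1) - ta G.T k i := sub_pos.2 (by exact_mod_cast t2 i hi)
  have w1 : (wr G.A G.B G.T k i : ℝ) ≤ wf G.A G.B k i 1024 (ta G.T k i) := by
    rw [wr, mn_eq, mn_eq, min_eq_left (by omega : i ≤ 11)]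
    exact_mod_cast min_le_left _ _
  have w2 : (wr G.A G.B G.T k (i + 1) : ℝ) ≤ wf G.A G.B k i 1024 (ta G.T k (i + 1)) := by
    rw [wr, mn_eq]
    exact_mod_cast min_le_right _ _
  have b1 := h i (by omega)
  have b2 := h (i + 1) (by omega)
  have f1 := fm_wf k i 1024 (ta G.T k i)
  have f2 := fm_wf k i 1024 (ta G.T k (i + 1))
  rw [le_div_iff₀ h0] at a1
  rw [div_le_iff₀ h0] at a2
  generalize (ta G.T k i : ℝ) = u, (ta G.T k (i + 1) : ℝ) = w at *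
  have l0 : 0 ≤ (w * a - 1024 * b) / (1024 * (w - u)) := div_nonneg (by linarith) (by linarith)
  have m0 : 0 ≤ (1024 * b - u * a) / (1024 * (w - u)) := div_nonneg (by linarith) (by linarith)
  have e1 : (w * a - 1024 * b) / (1024 * (w - u)) * 1024 +
      (1024 * b - u * a) / (1024 * (w - u)) * 1024 = a := by field_simp; ring
  have e2 : (w * a - 1024 * b) / (1024 * (w - u)) * u +
      (1024 * b - u * a) / (1024 * (w - u)) * w = b := by field_simp; ring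
  have := hf _ _ 1024 u w l0 m0
  rw [e1, e2] at this
  refine this.trans (le_trans ?_ (le_Ph k hi a b).1)
  generalize (w * a - 1024 * b) / (1024 * (w - u)) = x, (1024 * b - u * a) / (1024 * (w - u)) = y at *
  have e : fm k i a b = x * fm k i (1024 : ℕ) u + y * fm k i (1024 : ℕ) w := by
    rw [← e1, ← e2]
    unfold fm
    push_cast
    ring
  rw [e, f1, f2]
  gcongr
  · linarith
  · linarith

theorem Ph_mono {k n : ℕ} (h : k ≤ n) (hn : n ≤ 60) {a b : ℝ} (ha : 0 ≤ a) (hb : 0 ≤ b) :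
    Ph k a b ≤ Ph n a b := by
  induction h with
  | refl => exact le_rfl
  | @step n h ih =>
    refine (ih (by omega)).trans ?_
    have key : ∀ a b : ℝ, 0 ≤ b → b ≤ a → Ph n a b ≤ Ph (n + 1) a b := fun a b hb ha =>
      dom hn (Ph n) (fun l m a b c hl hm => by
        simpa using Ph_sub n hl hm le_rfl a b a c 0 0) (fun i hi => Ph_le fun l hl => by
          obtain ⟨x, y⟩ := geo_spec.2.2 n (by omega) i hi l hl
          have x := (Nat.cast_le (α := ℝ)).2 x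
          have y := (Nat.cast_le (α := ℝ)).2 y
          have f1 := fm_wf n l 1024 (ta G.T (n + 1) i)
          have f2 := fm_wf n l (ta G.T (n + 1) i) 1024
          push_cast at x y f1 f2
          exact ⟨by linarith, by linarith⟩) hb ha
    rcases le_total a b with c | c
    · rw [Ph_comm, Ph_comm (n + 1)]
      exact key b a ha c
    · exact key a b hb c

theorem Ph_lip {k : ℕ} (hk : k ≤ 60) {a b : ℝ} (ha : 0 ≤ a) (hb : 0 ≤ b) :
    Ph k a b ≤ G.hc / 1000000 * min a b * k + |a - b| := by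
  have key : ∀ l < 12, ∀ a b : ℝ, 0 ≤ a → 0 ≤ b →
      fm k l a b ≤ G.hc / 1000000 * min a b * k + |a - b| := by
    intro l hl a b ha hb
    obtain ⟨x, y, z⟩ := (geo_spec.1 l hl).2.2.2 k (by omega)
    simp only [wf, Nat.add_eq, Nat.mul_eq] at z
    have x := (Nat.cast_le (α := ℝ)).2 x
    have y := (Nat.cast_le (α := ℝ)).2 y
    have z := (Nat.cast_le (α := ℝ)).2 z
    push_cast at x y z
    unfold fm
    rcases le_total a b with c | c
    · rw [min_eq_left c, abs_of_nonpos (sub_nonpos.2 c)]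
      nlinarith [mul_le_mul_of_nonneg_left z ha, mul_le_mul_of_nonneg_left y (sub_nonneg.2 c)]
    · rw [min_eq_right c, abs_of_nonneg (sub_nonneg.2 c)]
      nlinarith [mul_le_mul_of_nonneg_left z hb, mul_le_mul_of_nonneg_left x (sub_nonneg.2 c)]
  exact Ph_le fun l hl => ⟨key l hl a b ha hb, by
    rw [min_comm, abs_sub_comm]; exact key l hl b a hb ha⟩

theorem dd_eq {a s b t : ℝ} (n : ℤ) (h1 : n ≤ t - s) (h2 : t - s ≤ n + 1) :
    dd a s b t = (1 - (t - s - n)) * Ph (fz n) a b + (t - s - n) * Ph (fz (n + 1)) a b := by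
  rcases h2.eq_or_lt with h | h
  · have : ⌊(n : ℝ) + 1⌋ = n + 1 := by simp
    simp [dd, h, this]
  · rw [dd, Int.floor_eq_iff.2 ⟨h1, h⟩]

theorem dd_int (a b : ℝ) (i j : ℤ) : dd a i b j = Ph (fz (j - i)) a b := by
  rw [dd_eq (j - i) (by simp) (by simp)]
  simp

theorem dd_add (a s b t : ℝ) (k : ℤ) : dd a (s + k) b (t + k) = dd a s b t := by
  simp only [dd, add_sub_add_right_eq_sub]

theorem dd_per (a s b t : ℝ) (z w : ℤ) : dd a (s + 120 * z) b (t + 120 * w) = dd a s b t := by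
  rw [dd_eq (⌊t - s⌋ + 120 * (w - z)) (by push_cast; linarith [Int.floor_le (t - s)])
    (by push_cast; linarith [Int.lt_floor_add_one (t - s)]), dd,
    show fz (⌊t - s⌋ + 120 * (w - z)) = fz ⌊t - s⌋ by unfold fz; omega,
    show fz (⌊t - s⌋ + 120 * (w - z) + 1) = fz (⌊t - s⌋ + 1) by unfold fz; omega]
  push_cast
  ring

theorem dd_neg (a s b t : ℝ) : dd a (-s) b (-t) = dd a s b t := by
  rw [dd_eq (-(⌊t - s⌋ + 1)) (by push_cast; linarith [Int.lt_floor_add_one (t - s)])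
    (by push_cast; linarith [Int.floor_le (t - s)]), dd,
    show fz (-(⌊t - s⌋ + 1)) = fz (⌊t - s⌋ + 1) by unfold fz; omega,
    show fz (-(⌊t - s⌋ + 1) + 1) = fz ⌊t - s⌋ by unfold fz; omega]
  push_cast
  ring

theorem dd_comm (a s b t : ℝ) : dd a s b t = dd b t a s := by
  rw [← dd_neg b]
  simp only [dd, Ph_comm _ a, neg_sub_neg]

theorem conv_a {c a b v0 v1 w0 w1 x y : ℝ} {i j : ℤ} (_ : 0 ≤ c) (h1 : 0 ≤ x) (h2 : x ≤ 1)
    (h3 : 0 ≤ y) (h4 : y ≤ 1) (p : c * dd a i b j + w0 ≤ v0)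
    (q : c * dd a (i + 1 : ℤ) b (j + 1 : ℤ) + w1 ≤ v1)
    (d : x < y → c * dd a i b (j + 1 : ℤ) + w1 ≤ v0)
    (e : y < x → c * dd a (i + 1 : ℤ) b j + w0 ≤ v1) :
    c * dd a (i + x) b (j + y) + ((1 - y) * w0 + y * w1) ≤ (1 - x) * v0 + x * v1 := by
  simp only [dd_int, add_sub_add_right_eq_sub] at p q d e
  rcases lt_trichotomy x y with h | rfl | h
  · rw [dd_eq (j - i) (by push_cast; linarith) (by push_cast; linarith), ← add_sub_right_comm]
    push_cast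
    nlinarith [d h]
  · rw [dd_eq (j - i) (by push_cast; linarith) (by push_cast; linarith)]
    push_cast
    nlinarith
  · rw [dd_eq (j - (i + 1)) (by push_cast; linarith) (by push_cast; linarith),
      show j - (i + 1) + 1 = j - i by ring]
    push_cast
    nlinarith [e h]

theorem conv_r {c a a' b b' v0 v1 w0 w1 x y : ℝ} {s t : ℤ} (hc : 0 ≤ c) (h1 : 0 ≤ x) (h2 : x ≤ 1)
    (h3 : 0 ≤ y) (h4 : y ≤ 1) (p : c * dd a s b t + w0 ≤ v0) (q : c * dd a' s b' t + w1 ≤ v1)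
    (d : x < y → c * dd a s b' t + w1 ≤ v0) (e : y < x → c * dd a' s b t + w0 ≤ v1) :
    c * dd (a + x * (a' - a)) s (b + y * (b' - b)) t + ((1 - y) * w0 + y * w1) ≤
      (1 - x) * v0 + x * v1 := by
  simp only [dd_int] at p q d e ⊢
  generalize fz (t - s) = k at *
  rcases lt_trichotomy x y with h | rfl | h
  · have := mul_le_mul_of_nonneg_left (Ph_sub k (sub_nonneg.2 h4) h1 (sub_nonneg.2 h.le) a b a' b' a b') hc
    rw [show a + x * (a' - a) = (1 - y) * a + x * a' + (y - x) * a by ring,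
      show b + y * (b' - b) = (1 - y) * b + x * b' + (y - x) * b' by ring]
    nlinarith [d h]
  · have := mul_le_mul_of_nonneg_left (Ph_sub k (sub_nonneg.2 h4) h1 le_rfl a b a' b' a b') hc
    rw [show a + x * (a' - a) = (1 - x) * a + x * a' + 0 * a by ring,
      show b + x * (b' - b) = (1 - x) * b + x * b' + 0 * b' by ring]
    nlinarith
  · have := mul_le_mul_of_nonneg_left (Ph_sub k (sub_nonneg.2 h2) h3 (sub_nonneg.2 h.le) a b a' b' a' b) hc
    rw [show a + x * (a' - a) = (1 - x) * a + y * a' + (x - y) * a' by ring,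
      show b + y * (b' - b) = (1 - x) * b + y * b' + (x - y) * b by ring]
    nlinarith [e h]

theorem dd_le {a b c : ℝ} (s t : ℝ) (ha : 0 ≤ a) (hb : 0 ≤ b) (hc : a ≤ c ∨ b ≤ c) :
    dd a s b t ≤ G.hc / 1000000 * c * |s - t| + |a - b| := by
  have h0 := Int.floor_le (t - s)
  have h1 := Int.lt_floor_add_one (t - s)
  have k : ∀ n : ℤ, Ph (fz n) a b ≤ G.hc / 1000000 * c * |(n : ℝ)| + |a - b| := fun n => by
    refine (Ph_lip (fz_le n) ha hb).trans ?_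
    have : (fz n : ℤ) ≤ |n| := by
      unfold fz
      rcases abs_cases n with h | h <;> omega
    have : (fz n : ℝ) ≤ |(n : ℝ)| := by exact_mod_cast this
    have : 0 ≤ c := (le_min ha hb).trans (min_le_iff.2 hc)
    gcongr
    exact min_le_iff.2 hc
  have a1 := mul_le_mul_of_nonneg_left (k ⌊t - s⌋) (show 0 ≤ 1 - (t - s - ⌊t - s⌋) by linarith)
  have a2 := mul_le_mul_of_nonneg_left (k (⌊t - s⌋ + 1)) (sub_nonneg.2 h0)
  have e : (1 - (t - s - ⌊t - s⌋)) * |(⌊t - s⌋ : ℝ)| + (t - s - ⌊t - s⌋) * |((⌊t - s⌋ + 1 : ℤ) : ℝ)| =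
      |s - t| := by
    push_cast
    rcases le_or_gt 0 ⌊t - s⌋ with c | c
    · have : (0 : ℝ) ≤ ⌊t - s⌋ := by exact_mod_cast c
      rw [abs_of_nonneg this, abs_of_nonneg (by linarith), abs_of_nonpos (by linarith)]
      ring
    · have : (⌊t - s⌋ : ℝ) + 1 ≤ 0 := by exact_mod_cast c
      rw [abs_of_nonpos this, abs_of_nonpos (by linarith), abs_of_nonneg (by linarith)]
      ring
  rw [dd, ← e]
  linarith

/-- lower bound for distances -/
theorem far {k l : ℕ} (hl : l < 12) {x z s t : ℝ} (hx : 0 ≤ x) (hz : 0 ≤ z)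
    (h : k = 0 ∨ k ≤ t - s ∧ t - s + k ≤ 120) (hk : k ≤ 60) : fm k l z x ≤ dd x s z t := by
  have key : ∀ n : ℤ, k ≤ fz n → fm k l z x ≤ Ph (fz n) x z := fun n hn =>
    (le_Ph k hl x z).2.trans (Ph_mono hn (fz_le n) hx hz)
  have fin : ∀ n : ℤ, n ≤ t - s → t - s ≤ n + 1 → k ≤ fz n → k ≤ fz (n + 1) →
      fm k l z x ≤ dd x s z t := fun n a b c d => by
    rw [dd_eq n a b]
    nlinarith [key n c, key _ d]
  rcases h with rfl | ⟨h1, h2⟩
  · exact fin _ (Int.floor_le _) (Int.lt_floor_add_one _).le (Nat.zero_le _) (Nat.zero_le _)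
  · rcases le_total (t - s) 60 with c | c
    · rcases c.eq_or_lt with c | c
      · rcases hk.eq_or_lt with rfl | hk
        · rw [dd_eq 60 (by simp [c]) (by simp [c]), c]
          simpa using key 60 le_rfl
        · exact fin 60 (by simp [c]) (by simp [c]) hk.le (Nat.le_of_lt_succ hk)
      · have a : (k : ℤ) ≤ ⌊t - s⌋ := Int.le_floor.2 (by exact_mod_cast h1)
        have b : ⌊t - s⌋ < 60 := Int.floor_lt.2 (by exact_mod_cast c)
        exact fin _ (Int.floor_le _) (Int.lt_floor_add_one _).le (by unfold fz; omega)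
          (by unfold fz; omega)
    · rcases c.eq_or_lt with c | c
      · rcases hk.eq_or_lt with rfl | hk
        · rw [dd_eq 60 (by simp [← c]) (by simp [← c]), ← c]
          simpa using key 60 le_rfl
        · exact fin 60 (by simp [← c]) (by simp [← c]) hk.le (Nat.le_of_lt_succ hk)
      · have a : ⌈t - s⌉ ≤ 120 - k := Int.ceil_le.2 (by push_cast; linarith)
        have b : 60 < ⌈t - s⌉ := Int.lt_ceil.2 (by exact_mod_cast c)
        exact fin (⌈t - s⌉ - 1) (by push_cast; linarith [Int.ceil_lt_add_one (t - s)])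
          (by push_cast; linarith [Int.le_ceil (t - s)]) (by unfold fz; omega) (by unfold fz; omega)

end

end Pool.Agent.MP_1037db_co.LP

/-! Several robots at one point. -/

namespace Pool.Agent.MP_1037db_co.LP

variable {α : Type} {D : α → α → ℝ} {k l : ℕ} {p q : α} {S : Finset α} {T T' : ℝ}

/-- `k` robots at `p` can wake `S` in time `T` -/
def WK (D : α → α → ℝ) (k : ℕ) (p : α) (S : Finset α) (T : ℝ) : Prop :=
  0 ≤ T ∧ ∃ L : List (BinaryTree α), L.length ≤ k ∧ (L.map labels).sum = S.val ∧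
    ∀ t ∈ L, sp D p t ≤ T

theorem WK.mono (h : WK D k p S T) (hk : k ≤ l) (hT : T ≤ T') : WK D l p S T' := by
  obtain ⟨h0, L, h1, h2, h3⟩ := h
  exact ⟨h0.trans hT, L, h1.trans hk, h2, fun t ht => (h3 t ht).trans hT⟩

theorem WK.empty (hT : 0 ≤ T) : WK D k p ∅ T := ⟨hT, [], by simp⟩

theorem WK.split (P : α → Prop) [DecidablePred P] (h1 : WK D k p (S.filter P) T)
    (h2 : WK D l p (S.filter fun s => ¬ P s) T) : WK D (k + l) p S T := by
  obtain ⟨h0, L, a1, a2, a3⟩ := h1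
  obtain ⟨-, M, b1, b2, b3⟩ := h2
  refine ⟨h0, L ++ M, by rw [List.length_append]; omega, ?_, fun t ht =>
    (List.mem_append.1 ht).elim (a3 t) (b3 t)⟩
  rw [List.map_append, List.sum_append, a2, b2, Finset.filter_val, Finset.filter_val,
    Multiset.filter_add_not]

theorem WK.cut (P : α → Prop) (h1 : ∀ S' : Finset α, (∀ s ∈ S', s ∈ S ∧ P s) → WK D k p S' T)
    (h2 : ∀ S' : Finset α, (∀ s ∈ S', s ∈ S ∧ ¬ P s) → WK D l p S' T) : WK D (k + l) p S T := by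
  classical
  exact WK.split P (h1 _ fun s => Finset.mem_filter.1) (h2 _ fun s => Finset.mem_filter.1)

theorem WK.pair (h : WK D (k + 2) p S T) : ∃ (a b : BinaryTree α) (L : List (BinaryTree α)),
    L.length ≤ k ∧ labels a + labels b + (L.map labels).sum = S.val ∧ sp D p a ≤ T ∧
    sp D p b ≤ T ∧ ∀ t ∈ L, sp D p t ≤ T := by
  obtain ⟨h0, L, h1, h2, h3⟩ := h
  match L with
  | [] => exact ⟨.nil, .nil, [], by simp, by simpa [labels] using h2, h0, h0, h3⟩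
  | [a] => exact ⟨a, .nil, [], by simp, by simpa [labels] using h2, h3 a (by simp), h0, by simp⟩
  | a :: b :: L =>
    exact ⟨a, b, L, by simpa using h1, by simpa [add_assoc] using h2, h3 a (by simp),
      h3 b (by simp), fun t ht => h3 t (by simp [ht])⟩

structure Met (D : α → α → ℝ) : Prop where
  nn : ∀ p q, 0 ≤ D p q
  tri : ∀ p q s, D p s ≤ D p q + D q s

variable [DecidableEq α]

theorem WK.step (hD : Met D) (hq : q ∈ S) (h : WK D (k + 2) q (S.erase q) T')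
    (hT : D p q + T' ≤ T) : WK D (k + 1) p S T := by
  obtain ⟨a, b, L, h1, h2, h3, h4, h5⟩ := h.pair
  refine ⟨by linarith [hD.nn p q, h.1], .node q a b :: L, by simpa using h1, ?_, fun t ht => ?_⟩
  · rw [List.map_cons, List.sum_cons, labels, Multiset.cons_add, h2, Finset.erase_val,
      Multiset.cons_erase hq]
  · rcases List.mem_cons.1 ht with rfl | ht
    · rw [sp]
      linarith [max_le h3 h4]
    · have := h5 t ht
      cases t with
      | nil => rw [sp]; linarith [hD.nn p q, h.1]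
      | node i x y =>
        rw [sp] at this ⊢
        linarith [hD.tri p q i]

theorem WK.two (hD : Met D) (hq : q ∈ S) (P : α → Prop)
    (h1 : ∀ S' : Finset α, (∀ s ∈ S', s ∈ S ∧ s ≠ q ∧ P s) → WK D k p S' T)
    (h2 : ∀ S' : Finset α, q ∉ S' → (∀ s ∈ S', s ∈ S ∧ ¬ P s) → WK D 2 q S' T')
    (hT : D p q + T' ≤ T) : WK D (k + 1) p S T := by
  classical
  refine WK.split (fun s => s ≠ q ∧ P s) (h1 _ fun s hs => ?_) (WK.step (k := 0) hD (by simp [hq])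
    (h2 _ (Finset.notMem_erase _ _) fun s hs => ?_) hT)
  · exact Finset.mem_filter.1 hs
  · obtain ⟨a, b⟩ := Finset.mem_erase.1 hs
    exact ⟨(Finset.mem_filter.1 b).1, fun c => (Finset.mem_filter.1 b).2 ⟨a, c⟩⟩

variable {x y : α → ℝ} {e f w z : ℝ}

theorem sw1 (hD : ∀ i j, j ∈ S → D i j ≤ |x i - x j| + |y i - y j|)
    (h : ∀ s ∈ S, x p ≤ x s ∧ x s ≤ x p + e ∧ |y p - y s| ≤ f ∧ z ≤ y s ∧ y s ≤ z + w)
    (hT : e + f + 13 / 8 * w ≤ T) (h0 : 0 ≤ T) : WK D 1 p S T := by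
  obtain ⟨t, h1, h2⟩ := (sweep (D := D) x y (x p + e) _ S (fun j => 0 + D p j) z (z + w) T rfl
    (fun i _ j => hD i j) fun i hi => by
      obtain ⟨a, b, c, d, g⟩ := h i hi
      have := hD p i hi
      rw [abs_of_nonpos (sub_nonpos.2 a)] at this
      exact ⟨b, d, g, by linarith⟩).tree h0
  exact ⟨h0, [t], le_rfl, by simpa using h1, by simpa using h2⟩

theorem sw1' (hD : ∀ i j, j ∈ S → D i j ≤ |x i - x j| + |y i - y j|)
    (h : ∀ s ∈ S, x s ≤ x p ∧ x p ≤ x s + e ∧ |y p - y s| ≤ f ∧ z ≤ y s ∧ y s ≤ z + w)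
    (hT : e + f + 13 / 8 * w ≤ T) (h0 : 0 ≤ T) : WK D 1 p S T :=
  sw1 (x := fun i => -x i) (y := y) (fun i j hj => by rw [neg_sub_neg, abs_sub_comm]; exact hD i j hj)
    (fun s hs => by
      obtain ⟨a, b, c⟩ := h s hs
      exact ⟨by linarith, by linarith, c⟩) hT h0

theorem sw2 (hD : ∀ i j, j ∈ S → D i j ≤ |x i - x j| + |y i - y j|)
    (h : ∀ s ∈ S, |x p - x s| ≤ e ∧ |y p - y s| ≤ f ∧ z ≤ y s ∧ y s ≤ z + w)
    (hT : e + f + 13 / 8 * w ≤ T) (h0 : 0 ≤ T) : WK D 2 p S T :=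
  WK.cut (k := 1) (l := 1) (fun s => x p ≤ x s)
    (fun _ hS => sw1 (fun i j hj => hD i j (hS j hj).1) (fun s hs =>
      ⟨(hS s hs).2, by linarith [(abs_le.1 (h s (hS s hs).1).1).1], (h s (hS s hs).1).2⟩) hT h0)
    fun _ hS => sw1' (fun i j hj => hD i j (hS j hj).1) (fun s hs =>
      ⟨(not_le.1 (hS s hs).2).le, by linarith [(abs_le.1 (h s (hS s hs).1).1).2],
        (h s (hS s hs).1).2⟩) hT h0

theorem sw3 (hD : ∀ i j, j ∈ S → D i j ≤ |x i - x j| + |y i - y j|)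
    (h : ∀ s ∈ S, x p ≤ x s ∧ x s ≤ x p + e ∧ z ≤ y s ∧ y s ≤ z + w) (h1 : z ≤ y p)
    (h2 : y p ≤ z + w) (hT : e + 13 / 8 * w ≤ T) (h0 : 0 ≤ T) : WK D 2 p S T := by
  obtain ⟨m, hm1, hm2⟩ : ∃ m, (∀ u, z ≤ u → u ≤ z + m → |y p - u| ≤ 13 / 8 * (w - m)) ∧
      ∀ u, z + m ≤ u → u ≤ z + w → |y p - u| ≤ 13 / 8 * m := by
    rcases le_total (y p) (z + w / 2) with h3 | h3
    · exact ⟨8 / 13 * w, fun u h3 h4 => abs_le.2 ⟨by linarith, by linarith⟩,
        fun u h3 h4 => abs_le.2 ⟨by linarith, by linarith⟩⟩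
    · exact ⟨5 / 13 * w, fun u h3 h4 => abs_le.2 ⟨by linarith, by linarith⟩,
        fun u h3 h4 => abs_le.2 ⟨by linarith, by linarith⟩⟩
  refine WK.cut (k := 1) (l := 1) (fun s => y s ≤ z + m) (fun _ hS => ?_) fun _ hS => ?_
  · refine sw1 (e := e) (z := z) (w := m) (f := 13 / 8 * (w - m))
      (fun i j hj => hD i j (hS j hj).1) (fun s hs => ?_) (by linarith) h0
    obtain ⟨a, b, c, d⟩ := h s (hS s hs).1
    exact ⟨a, b, hm1 _ c (hS s hs).2, c, (hS s hs).2⟩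
  · refine sw1 (e := e) (z := z + m) (w := w - m) (f := 13 / 8 * m)
      (fun i j hj => hD i j (hS j hj).1) (fun s hs => ?_) (by linarith) h0
    obtain ⟨a, b, c, d⟩ := h s (hS s hs).1
    have := (not_le.1 (hS s hs).2).le
    exact ⟨a, b, hm2 _ this d, this, by linarith⟩

theorem sw3' (hD : ∀ i j, j ∈ S → D i j ≤ |x i - x j| + |y i - y j|)
    (h : ∀ s ∈ S, x s ≤ x p ∧ x p ≤ x s + e ∧ z ≤ y s ∧ y s ≤ z + w) (h1 : z ≤ y p)
    (h2 : y p ≤ z + w) (hT : e + 13 / 8 * w ≤ T) (h0 : 0 ≤ T) : WK D 2 p S T :=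
  sw3 (x := fun i => -x i) (y := y) (fun i j hj => by rw [neg_sub_neg, abs_sub_comm]; exact hD i j hj)
    (fun s hs => by
      obtain ⟨a, b, c⟩ := h s hs
      exact ⟨by linarith, by linarith, c⟩) h1 h2 hT h0

end Pool.Agent.MP_1037db_co.LP

/-! The meaning of a node and of a reference to a node. -/

namespace Pool.Agent.MP_1037db_co.LP

open Real

noncomputable section

structure Env (α : Type) where
  D : α → α → ℝ
  ρ : α → ℝ
  r : ℕ → ℝ
  mono : StrictMono r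
  nn : ∀ p, 0 ≤ ρ p
  met : Met D
  M : α → α → ℝ
  le : ∀ p q, D p q ≤ M p q

variable [G : Geo] {α : Type} {E : Env α}

def Env.Ch (E : Env α) (t : α → ℝ) : Prop :=
  ∀ p q, E.M p q = dd (E.ρ p) (t p) (E.ρ q) (t q)

def Env.fr (E : Env α) (j : ℕ) (p : α) : ℝ := (E.ρ p - E.r j) / (E.r (j + 1) - E.r j)

structure Env.At (E : Env α) (t : α → ℝ) (c : ℤ) (j : ℕ) (p : α) : Prop where
  a : c ≤ t p
  b : t p ≤ c + 1
  lo : E.r j ≤ E.ρ p
  hi : E.ρ p ≤ E.r (j + 1)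

structure Env.Bx (E : Env α) (t : α → ℝ) (A B : ℝ) (c1 c2 : ℕ) (s : α) : Prop where
  a : A ≤ t s
  b : t s ≤ B
  lo : E.r c1 ≤ E.ρ s
  hi : E.ρ s ≤ E.r c2

structure Env.Fl (E : Env α) (t : α → ℝ) (p : α) (xL xR xI xO : ℕ) (s : α) : Prop where
  l : xL = 1 → t p ≤ t s
  r : xR = 1 → t s ≤ t p
  i : xI = 1 → E.ρ p ≤ E.ρ s
  o : xO = 1 → E.ρ s ≤ E.ρ p

def Env.Go (E : Env α) (K j c1 c2 xL xR xI xO : ℕ) (A B w0 w1 w2 w3 : ℝ) : Prop :=
  ∀ t, E.Ch t → ∀ (c : ℤ) (p : α) (S : Finset α), E.At t c j p → p ∉ S →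
    (∀ s ∈ S, E.Bx t (c + A) (c + B) c1 c2 s ∧ E.Fl t p xL xR xI xO s) →
    WK E.D (K + 1) p S (bil w0 w1 w2 w3 (t p - c) (E.fr j p))

def Env.Sem (E : Env α) (x : ℕ) : Prop :=
  E.Go (bt x 36 3) (bt x 40 31) (bt x 46 31) (31 - bt x 52 31) (bt x 60 1) 0 (bt x 62 1) (bt x 64 1)
    (bt x 108 255 - 120) ((255 - bt x 119 255 : ℕ) - 120) (bt x 0 65535) (bt x 72 65535)
    (bt x 18 65535) (bt x 90 65535)

def Env.NS (E : Env α) (H : Tr) (i : ℕ) : Prop := ∀ n < i, E.Sem (hx H (n * 8))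

variable {t t' : α → ℝ} {c : ℤ} {p q : α} {S : Finset α} {H : Tr}
  {x ref K j c1 c2 xL xR xI xO A cA B cB i : ℕ}

theorem Env.Ch.per (h : E.Ch t) (h' : ∀ s, ∃ z : ℤ, t' s = t s + 120 * z) : E.Ch t' := by
  intro p q
  obtain ⟨z, hz⟩ := h' p
  obtain ⟨w, hw⟩ := h' q
  rw [h, hz, hw, dd_per]

theorem Env.Ch.neg (h : E.Ch t) : E.Ch fun s => -t s := fun p q => by rw [h, dd_neg]

theorem Env.Ch.add (h : E.Ch t) (k : ℤ) : E.Ch fun s => t s + k := fun p q => by rw [h, dd_add]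

theorem Env.Ch.symm (h : E.Ch t) (p q : α) : E.M p q = E.M q p := by rw [h, h, dd_comm]

theorem Env.pos (E : Env α) (j : ℕ) : 0 < E.r (j + 1) - E.r j := sub_pos.2 (E.mono j.lt_succ_self)

theorem Env.At.f0 (h : E.At t c j p) : 0 ≤ E.fr j p := div_nonneg (sub_nonneg.2 h.lo) (E.pos j).le

theorem Env.At.f1 (h : E.At t c j p) : E.fr j p ≤ 1 := (div_le_one (E.pos j)).2 (by linarith [h.hi])

theorem Env.At.x0 (h : E.At t c j p) : 0 ≤ t p - c := sub_nonneg.2 h.a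

theorem Env.At.x1 (h : E.At t c j p) : t p - c ≤ 1 := by linarith [h.b]

theorem Env.fr_eq (E : Env α) (j : ℕ) (p : α) :
    E.ρ p = E.r j + E.fr j p * (E.r (j + 1) - E.r j) := by
  rw [Env.fr, div_mul_cancel₀ _ (E.pos j).ne']
  ring

theorem Env.fr_le (h : E.ρ p ≤ E.ρ q) : E.fr j p ≤ E.fr j q :=
  div_le_div_of_nonneg_right (by linarith) (E.pos j).le

theorem bil_le {v0 v1 v2 v3 w0 w1 w2 w3 x z : ℝ} (h0 : 0 ≤ x) (h1 : x ≤ 1) (h2 : 0 ≤ z) (h3 : z ≤ 1)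
    (a : v0 ≤ w0) (b : v1 ≤ w1) (c : v2 ≤ w2) (d : v3 ≤ w3) :
    bil v0 v1 v2 v3 x z ≤ bil w0 w1 w2 w3 x z := by
  have := sub_nonneg.2 h1
  have := sub_nonneg.2 h3
  unfold bil
  gcongr

theorem Env.Go.le {A B v0 v1 v2 v3 w0 w1 w2 w3 : ℝ} (h : E.Go K j c1 c2 xL xR xI xO A B v0 v1 v2 v3)
    (a : v0 ≤ w0) (b : v1 ≤ w1) (c : v2 ≤ w2) (d : v3 ≤ w3) :
    E.Go K j c1 c2 xL xR xI xO A B w0 w1 w2 w3 := fun t ht z p S hp h1 h2 =>
  (h t ht z p S hp h1 h2).mono le_rfl (bil_le hp.x0 hp.x1 hp.f0 hp.f1 a b c d)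

theorem Env.Go.mir {A B A' B' w0 w1 w2 w3 : ℝ} (h : E.Go K j c1 c2 xL xR xI xO A B w0 w1 w2 w3)
    (hA : B' + A = 1) (hB : A' + B = 1) : E.Go K j c1 c2 xR xL xI xO A' B' w1 w0 w3 w2 := by
  intro t ht c p S hp h1 h2
  have := h _ ht.neg (-c - 1) p S ⟨by push_cast; linarith [hp.b], by push_cast; linarith [hp.a],
    hp.lo, hp.hi⟩ h1 fun s hs => by
      obtain ⟨⟨a, b, d, e⟩, f, g, k, l⟩ := h2 s hs
      exact ⟨⟨by push_cast; linarith, by push_cast; linarith, d, e⟩, fun u => neg_le_neg (g u),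
        fun u => neg_le_neg (f u), k, l⟩
  convert this using 1
  push_cast
  unfold bil
  ring

theorem Cov.go (h : Cov x ref K j c1 (31 - c2) xL xI xO A cA B cB i) (hS : E.Sem x) (hc : c2 ≤ 31)
    (hL : xL ≤ 1) (hI : xI ≤ 1) (hO : xO ≤ 1) :
    E.Go K j c1 c2 xL xR xI xO (A - cA) (B - cB) (bt x 0 65535) (bt x 72 65535)
      (bt x 18 65535) (bt x 90 65535) := by
  classical
  intro t ht c p S hp h1 h2
  obtain ⟨hk, rfl, r1, r2, l, fi, fo, a, b, -⟩ := h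
  have hz : ref / 2 % 4 < 4 := Nat.mod_lt _ (by norm_num)
  generalize ref / 2 % 4 = z at l a b hz
  have := hS (fun s => if s = p then t p else t s + 120 * (z - 1 : ℤ)) (ht.per fun s => by
    by_cases e : s = p
    · exact ⟨0, by simp [e]⟩
    · exact ⟨_, if_neg e⟩) c p S ⟨by simpa using hp.a, by simpa using hp.b, hp.lo, hp.hi⟩ h1
    fun s hs => by
      obtain ⟨⟨u1, u2, u3, u4⟩, u5, -, u7, u8⟩ := h2 s hs
      have e : s ≠ p := fun e => h1 (e ▸ hs)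
      have a' : (bt x 108 255 : ℝ) + cA ≤ A + 120 * z := by exact_mod_cast a
      have b' : (B : ℝ) + 120 * z + bt x 119 255 ≤ 255 + cB := by exact_mod_cast b
      refine ⟨⟨?_, ?_, (E.mono.monotone r1).trans u3, u4.trans (E.mono.monotone (by omega))⟩,
        fun g => ?_, fun g => absurd g (by norm_num), fun g => u7 (by omega), fun g => u8 (by omega)⟩
      · simp only [if_neg e]
        push_cast
        linarith
      · simp only [if_neg e]
        push_cast [Nat.cast_sub (bt_le x 119 255)]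
        linarith
      · have : (1 : ℝ) ≤ z := by exact_mod_cast (show 1 ≤ z by omega)
        simp only [if_neg e, if_true]
        push_cast
        linarith [u5 (by omega)]
  simp only [if_true] at this
  exact this.mono (by omega) le_rfl

theorem hx_eq (H : Tr) (ref : ℕ) : hx H ref = hx H (ref / 8 * 8) := by
  have h1 : ref >>> 11 = (ref / 8 * 8) >>> 11 := by
    simp only [Nat.shiftRight_eq_div_pow]
    omega
  have h2 : ref &&& 2040 = (ref / 8 * 8) &&& 2040 := by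
    refine (fld ref 3 255).trans (Eq.trans ?_ (fld _ 3 255).symm)
    simp [bt, Nat.shiftRight_eq_div_pow]
  simp only [hx, Nat.land_eq, Nat.shiftRight_eq']
  exact h1 ▸ h2 ▸ rfl

theorem Cov.use (h : Cov (hx H ref) ref K j c1 (31 - c2) xL xI xO A cA B cB i) (hS : E.NS H i)
    (hc : c2 ≤ 31) (hL : xL ≤ 1) (hI : xI ≤ 1) (hO : xO ≤ 1) :
    E.Go K j c1 c2 xL xR xI xO (A - cA) (B - cB) (bt (hx H ref) 0 65535) (bt (hx H ref) 72 65535)
      (bt (hx H ref) 18 65535) (bt (hx H ref) 90 65535) :=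
  h.go (hx_eq H ref ▸ hS _ h.n) hc hL hI hO

theorem Cov.use' (h : Cov (hx H ref) ref K j c1 (31 - c2) xR xI xO (cB + 1) B (cA + 1) A i)
    (hS : E.NS H i) (hc : c2 ≤ 31) (hL : xR ≤ 1) (hI : xI ≤ 1) (hO : xO ≤ 1) :
    E.Go K j c1 c2 xL xR xI xO (A - cA) (B - cB) (bt (hx H ref) 72 65535) (bt (hx H ref) 0 65535)
      (bt (hx H ref) 90 65535) (bt (hx H ref) 18 65535) :=
  (h.use hS hc hL hI hO).mir (by push_cast; ring) (by push_cast; ring)

/-- the packed data of a point -/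
structure Bs (b0 b1 j i xL xR xI xO v0 v1 v2 v3 : ℕ) : Prop where
  e0 : b0 = 2 ^ 40 * j + 2 ^ 133 * i + 2854494954370962162314388224200759919719350272 + wv v0 v2 v1 v3 + 2 ^ 62 * xI + 2 ^ 64 * xO + 864691128455135232 * xL
  e1 : b1 = 2 ^ 40 * j + 2 ^ 133 * i + 2854494794277197641663706380446749756896706560 + wv v1 v3 v0 v2 + 2 ^ 62 * xI + 2 ^ 64 * xO + 864691128455135232 * xR
  j : j ≤ 31
  i : i ≤ 262144
  l : xL ≤ 1
  r : xR ≤ 1
  xi : xI ≤ 1
  xo : xO ≤ 1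
  v0 : v0 ≤ 65535
  v1 : v1 ≤ 65535
  v2 : v2 ≤ 65535
  v3 : v3 ≤ 65535

theorem rw_eq (K c1 c2 : ℕ) : LP.rw K c1 c2 = 2 ^ 36 * K + 2 ^ 46 * c1 + 2 ^ 52 * (31 - c2) := by
  simp only [LP.rw, Nat.add_eq, Nat.mul_eq, Nat.sub_eq]
  ring

theorem pr_go {b0 b1 v0 v1 v2 v3 : ℕ} (hS : E.NS H i) (hb : Bs b0 b1 j i xL xR xI xO v0 v1 v2 v3)
    (hr : ref ≤ 1048575) (hK : K ≤ 7) (h1 : c1 ≤ 31) (h2 : c2 ≤ 31) (hA : A ≤ 598) (hB : B ≤ 598)
    (h : pr H ref b0 b1 (LP.rw K c1 c2) A B = true) :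
    E.Go K j c1 c2 xL xR xI xO (A - 120) (B - 120) v0 v1 v2 v3 := by
  obtain ⟨rfl, rfl, a1, a2, a3, a4, a5, a6, a7, a8, a9, a10⟩ := hb
  have h' := Nat.eq_of_beq_eq_true h
  rw [nrec, rw_eq] at h'
  split_ifs at h'
  · obtain ⟨g, u0, u1, u2, u3⟩ := pl_aux (cA := 120) (cB := 120) (A := A) (B := B) hr hK a1 h1
      (Nat.sub_le 31 c2) a3 a5 a6 (by omega) (by norm_num) (by omega) (by norm_num) a2 a7 a9 a8 a10
      (by
        simp only [cx, Nat.add_eq, Nat.mul_eq]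
        ring) h'
    exact (g.use hS h2 a3 a5 a6).le (by exact_mod_cast u0) (by exact_mod_cast u2)
      (by exact_mod_cast u1) (by exact_mod_cast u3)
  · obtain ⟨g, u0, u1, u2, u3⟩ := pl_aux (cA := B) (cB := A) (A := 120 + 1) (B := 120 + 1) hr hK a1
      h1 (Nat.sub_le 31 c2) a4 a5 a6 (by omega) (by omega) (by omega) (by omega) a2 a8 a10 a7 a9
      (by
        simp only [cx, Nat.add_eq, Nat.mul_eq]
        ring) h'
    exact (g.use' hS h2 a4 a5 a6).le (by exact_mod_cast u2) (by exact_mod_cast u0)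
      (by exact_mod_cast u3) (by exact_mod_cast u1)

/-- bounds for the distances of corners -/
def Q4 (c : ℝ) (y p : ℕ) (a a' b b' : ℝ) (i j : ℤ) : Prop :=
  c * dd a i b j ≤ bt y p 65535 ∧ c * dd a i b' j ≤ bt y (p + 18) 65535 ∧
    c * dd a' i b j ≤ bt y (p + 36) 65535 ∧ c * dd a' i b' j ≤ bt y (p + 54) 65535

def RB (c : ℝ) (row : ℕ) (a a' b b' : ℝ) : Prop :=
  ∀ Y : ℕ, Y < 123 → ∀ i j : ℤ, co (Y - 1 : ℝ) ≤ co (i - j) → Q4 c row (Y * 72) a a' b b' i j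

theorem Q4.sh {c a a' b b' : ℝ} {y n p : ℕ} {i j : ℤ} (h : Q4 c y (n + p) a a' b b' i j) :
    Q4 c (y >>> n) p a a' b b' i j := by
  simpa only [Q4, bt_sh, Nat.add_assoc] using h

theorem rad {c a a' b b' z z' : ℝ} {g f e y p v v' w w' : ℕ} {i j : ℤ} (hc : 0 ≤ c) (h0 : 0 ≤ z)
    (h1 : z ≤ 1) (h2 : 0 ≤ z') (h3 : z' ≤ 1) (h : S4 g f e y p v v' w w')
    (hq : Q4 c y p a a' b b' i j) (hg : g = 131072) (hf : z < z' → f = 131072)
    (he : z' < z → e = 131072) :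
    c * dd (a + z * (a' - a)) i (b + z' * (b' - b)) j + ((1 - z') * w + z' * w') ≤
      (1 - z) * v + z * v' := by
  obtain ⟨s0, s1, s2, s3⟩ := h
  obtain ⟨q0, q1, q2, q3⟩ := hq
  have u : ∀ {x m n : ℕ} {d : ℝ}, d ≤ x → x + m ≤ n → d + m ≤ n := fun h1 h2 =>
    (add_le_add_left h1 _).trans (by exact_mod_cast h2)
  exact conv_r hc h0 h1 h2 h3 (u q0 (s0 hg)) (u q3 (s3 hg)) (fun h => u q1 (s1 (hf h)))
    fun h => u q2 (s2 (he h))

def Gk (G0 G1 : ℕ) (sA sI sO : Prop) : Prop := ∃ a a1 a2 c e, G0 = gx a a1 a2 c e 131072 c e ∧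
  G1 = gx 131072 c e c e a a1 a2 ∧ a ≤ 131072 ∧ a1 ≤ 131072 ∧ a2 ≤ 131072 ∧ c ≤ 131072 ∧
  e ≤ 131072 ∧ (¬ sA → a = 131072 ∧ a1 = c ∧ a2 = e) ∧ (¬ sO → c = 131072) ∧ (¬ sI → e = 131072)

theorem co_col (k : ℕ) (u w Y : ℝ) (h : Y = (k % 120 : ℕ) + w - u) :
    co Y = co (120 + u - (k + w)) := by
  have e : (k : ℝ) = 120 * (k / 120 : ℕ) + (k % 120 : ℕ) := by exact_mod_cast (Nat.div_add_mod k 120).symm
  generalize k / 120 = q at e
  rw [← co_neg, co, co, ← cos_add_int_mul_two_pi _ (1 - q)]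
  congr 1
  push_cast
  linear_combination (-π / 60) * h + (π / 60) * e

theorem qx_go {T0 T1 U0 U1 G0 G1 row k v0 v1 v2 v3 : ℕ} {d a a' b b' x x' z z' : ℝ} (hS : E.NS H i)
    (bd : Bd ref K j c1 c2 xL xR xI xO A cA B cB i) (t0 : v0 ≤ 65535) (t1 : v1 ≤ 65535)
    (t2 : v2 ≤ 65535) (t3 : v3 ≤ 65535) (hR : RB d row a a' b b') (hd : 0 ≤ d) (x0 : 0 ≤ x)
    (x1 : x ≤ 1) (y0 : 0 ≤ x') (y1 : x' ≤ 1) (z0 : 0 ≤ z) (z1 : z ≤ 1) (w0 : 0 ≤ z') (w1 : z' ≤ 1)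
    (hG : Gk G0 G1 (x ≤ x') (z ≤ z') (z' ≤ z))
    (h0 : T0 + 2 ^ 108 * cA + 2 ^ 119 * B = U0 + 2854494705179492919185874028944833089804173312 + cx K j c1 (31 - c2) xI xO i + 864691128455135232 * xL +
      2 ^ 108 * A + 2 ^ 119 * (255 + cB) + (1419612298781011615649678952475016771720260989886843619185417813866810540483857042694289260734059777086614141044292360906313165701120 + (vb v1 v3 * 7067415219060204468974481253372378698352689322148743724669014129235722240 + vb v0 v2 * 157608626012479106950455875032358246031540767862531061979056877007350196635150709975299591994347402807817141055651840)))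
    (h1 : T1 + 2 ^ 108 * B + 2 ^ 119 * (cA + 1) = U1 + 2854494705179492919185874028944833089804173312 + cx K j c1 (31 - c2) xI xO i + 864691128455135232 * xR +
      2 ^ 108 * (cB + 1) + 2 ^ 119 * (255 + A) + (1419612298781011615649678952475016771720260989886843619185417813866810540483857042694289260734059777086614141044292360906313165701120 + (vb v0 v2 * 7067415219060204468974481253372378698352689322148743724669014129235722240 + vb v1 v3 * 157608626012479106950455875032358246031540767862531061979056877007350196635150709975299591994347402807817141055651840)))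
    (h : qx H row k ref T0 T1 U0 U1 G0 G1 = true) :
    ∃ w0 w1 w2 w3, E.Go K j c1 c2 xL xR xI xO (A - cA) (B - cB) w0 w1 w2 w3 ∧
      d * dd (a + z * (a' - a)) ((120 : ℤ) + x) (b + z' * (b' - b)) ((k : ℤ) + x') +
        bil w0 w1 w2 w3 x' z' ≤ bil v0 v1 v2 v3 x z := by
  obtain ⟨g, g1, g2, f, e, e0, e1, n1, n2, n3, n4, n5, sA, sO, sI⟩ := hG
  obtain ⟨a1, a2, a3, a4, a5, a6, a7, a8, a9, a10, a11, a12, a13, a14⟩ := bd
  have hk : k % 120 < 120 := Nat.mod_lt _ (by norm_num)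
  have hf : z < z' → f = 131072 := fun h => sO h.not_ge
  have he : z' < z → e = 131072 := fun h => sI h.not_ge
  rw [qx, nrec, e0, e1] at h
  split_ifs at h
  · obtain ⟨cv, s0, s1, s2, s3⟩ := qe_spec (y := row >>> (k % 120 * 72)) a1 a2 a3 a4
      (Nat.sub_le 31 c2) a6 a8 a9 (by omega)
      (by omega) (by omega) (by omega) a14 t1 t3 t0 t2 ⟨n1, n2, n3, n4, n5, le_rfl, n4, n5⟩ h0 h
    refine ⟨_, _, _, _, cv.use hS a5 a6 a8 a9, ?_⟩
    have q : ∀ (n : ℕ) (u w : ℤ), n ≤ 2 → (n : ℝ) - 1 = w - u →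
        Q4 d (row >>> (k % 120 * 72)) (n * 72) a a' b b' (120 + u) (k + w) := fun n u w h1 h2 => by
      refine Q4.sh ?_
      rw [← add_mul]
      refine hR _ (by omega) _ _ (le_of_eq ?_)
      push_cast
      exact co_col k u w _ (by linarith)
    have r2 := rad hd z0 z1 w0 w1 s2 (q 1 0 0 (by norm_num) (by norm_num)) rfl hf he
    rw [add_zero, add_zero] at r2
    have := conv_a hd x0 x1 y0 y1 r2
      (rad hd z0 z1 w0 w1 s1 (q 1 1 1 (by norm_num) (by norm_num)) rfl hf he)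
      (fun _ => by
        simpa only [add_zero] using
          rad hd z0 z1 w0 w1 s3 (q 2 0 1 (by norm_num) (by norm_num)) rfl hf he)
      fun h => by
        obtain ⟨rfl, rfl, rfl⟩ := sA h.not_ge
        simpa only [add_zero] using
          rad hd z0 z1 w0 w1 s0 (q 0 1 0 (by norm_num) (by norm_num)) rfl hf he
    unfold bil
    linarith only [this]
  · obtain ⟨cv, s0, s1, s2, s3⟩ := qe_spec (y := row >>> ((120 - k % 120) * 72)) a1 a2 a3 a4
      (Nat.sub_le 31 c2) a7 a8 a9 (by omega)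
      (by omega) (by omega) (by omega) a14 t0 t2 t1 t3 ⟨le_rfl, n4, n5, n4, n5, n1, n2, n3⟩ h1 h
    refine ⟨_, _, _, _, cv.use' hS a5 a7 a8 a9, ?_⟩
    have q : ∀ (n : ℕ) (u w : ℤ), n ≤ 2 → (n : ℝ) - 1 = u - w →
        Q4 d (row >>> ((120 - k % 120) * 72)) (n * 72) a a' b b' (120 + u) (k + w) :=
      fun n u w h1 h2 => by
      refine Q4.sh ?_
      rw [← add_mul]
      refine hR _ (by omega) _ _ (le_of_eq ?_)
      push_cast [Nat.cast_sub hk.le]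
      rw [← co_col k u w _ rfl, ← co_neg, co, co, ← cos_add_two_pi]
      congr 1
      linear_combination (-π / 60) * h2
    have r2 := rad hd z0 z1 w0 w1 s1 (q 1 0 0 (by norm_num) (by norm_num)) rfl hf he
    rw [add_zero, add_zero] at r2
    have := conv_a hd x0 x1 y0 y1 r2
      (rad hd z0 z1 w0 w1 s2 (q 1 1 1 (by norm_num) (by norm_num)) rfl hf he)
      (fun _ => by
        simpa only [add_zero] using
          rad hd z0 z1 w0 w1 s0 (q 0 0 1 (by norm_num) (by norm_num)) rfl hf he)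
      fun h => by
        obtain ⟨rfl, rfl, rfl⟩ := sA h.not_ge
        simpa only [add_zero] using
          rad hd z0 z1 w0 w1 s3 (q 2 1 0 (by norm_num) (by norm_num)) rfl hf he
    unfold bil
    linarith only [this]

theorem sC_go {C0 C1 p0 p1 q0 q1 J k k' y v0 v1 v2 v3 : ℕ} {n : ℤ} {a a' b b' x x' z z' : ℝ}
    (hS : E.NS H i) (bd : Bd ref K j c1 c2 xL xR xI xO A cA B cB i) (t0 : v0 ≤ 65535)
    (t2 : v2 ≤ 65535) (x0 : 0 ≤ x)
    (x1 : x ≤ 1) (y0 : 0 ≤ x') (y1 : x' ≤ 1) (z0 : 0 ≤ z) (z1 : z ≤ 1) (w0 : 0 ≤ z') (w1 : z' ≤ 1)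
    (hq : ∀ u w : ℤ, u = 120 ∨ u = 120 + 1 → w = n ∨ w = n + 1 → Q4 1 y 0 a a' b b' u w)
    (h0 : C0 + J + k * p0 + 2 ^ 108 * cA + 2 ^ 119 * B = k' * q0 + 2854494705179492919185874028944833089804173312 +
      cx K j c1 (31 - c2) xI xO i + 864691128455135232 * xL + 2 ^ 108 * A + 2 ^ 119 * (255 + cB) +
      (63657617094990558659628931840444436415748764348552169814906247509277216087877029839503360 + vb (min v0 v1) (min v2 v3) * 7067415219060204468974481253372378698352689322148743724669014129235722240))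
    (h1 : C1 + J + k * p1 + 2 ^ 108 * B + 2 ^ 119 * (cA + 1) = k' * q1 + 2854494705179492919185874028944833089804173312 +
      cx K j c1 (31 - c2) xI xO i + 864691128455135232 * xR + 2 ^ 108 * (cB + 1) + 2 ^ 119 * (255 + A) +
      (63657617094990558659628931840444436415748764348552169814906247509277216087877029839503360 + vb (min v0 v1) (min v2 v3) * 7067415219060204468974481253372378698352689322148743724669014129235722240))
    (h : sC H C0 C1 p0 p1 q0 q1 J k k' ref (y &&& 1180578109866989387775) = true) :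
    ∃ w0 w1 w2 w3, E.Go K j c1 c2 xL xR xI xO (A - cA) (B - cB) w0 w1 w2 w3 ∧
      dd (a + z * (a' - a)) ((120 : ℤ) + x) (b + z' * (b' - b)) (n + x') +
        bil w0 w1 w2 w3 x' z' ≤ bil v0 v1 v2 v3 x z := by
  obtain ⟨a1, a2, a3, a4, a5, a6, a7, a8, a9, a10, a11, a12, a13, a14⟩ := bd
  have m0 := (min_le_left v0 v1).trans t0
  have m1 := (min_le_left v2 v3).trans t2
  have key : ∀ e0 e1 e2 e3 : ℕ, (bt y 0 65535 + e0 ≤ min v0 v1 ∧ bt y 18 65535 + e2 ≤ min v0 v1 ∧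
      bt y 36 65535 + e0 ≤ min v2 v3 ∧ bt y 54 65535 + e2 ≤ min v2 v3) →
      (bt y 0 65535 + e1 ≤ min v0 v1 ∧ bt y 18 65535 + e3 ≤ min v0 v1 ∧
      bt y 36 65535 + e1 ≤ min v2 v3 ∧ bt y 54 65535 + e3 ≤ min v2 v3) →
      dd (a + z * (a' - a)) ((120 : ℤ) + x) (b + z' * (b' - b)) (n + x') +
        bil e0 e1 e2 e3 x' z' ≤ bil v0 v1 v2 v3 x z := by
    intro e0 e1 e2 e3 s0 s1
    simp only [le_min_iff] at s0 s1
    have r := fun (v v' w w' : ℕ) (u n' : ℤ) hu hn (h0 h1 h2 h3) => rad (v := v) (v' := v') (w := w)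
      (w' := w') zero_le_one z0 z1 w0 w1 ⟨fun _ => h0, fun _ => h1, fun _ => h2, fun _ => h3⟩
      (hq u n' hu hn) rfl (fun _ => rfl) fun _ => rfl
    have := conv_a zero_le_one x0 x1 y0 y1
      (r _ _ _ _ _ _ (.inl rfl) (.inl rfl) s0.1.1 s0.2.1.1 s0.2.2.1.1 s0.2.2.2.1)
      (r _ _ _ _ _ _ (.inr rfl) (.inr rfl) s1.1.2 s1.2.1.2 s1.2.2.1.2 s1.2.2.2.2)
      (fun _ => r _ _ _ _ _ _ (.inl rfl) (.inr rfl) s1.1.1 s1.2.1.1 s1.2.2.1.1 s1.2.2.2.1)
      fun _ => r _ _ _ _ _ _ (.inr rfl) (.inl rfl) s0.1.2 s0.2.1.2 s0.2.2.1.2 s0.2.2.2.2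
    unfold bil
    linarith only [this]
  rw [sC, nrec] at h
  split_ifs at h
  · obtain ⟨cv, s0, s1⟩ := qc_spec a1 a2 a3 a4 (Nat.sub_le 31 c2) a6 a8 a9 (by omega)
      (by omega) (by omega) (by omega) a14 m0 m1 h0 h
    exact ⟨_, _, _, _, cv.use hS a5 a6 a8 a9, key _ _ _ _ s0 s1⟩
  · obtain ⟨cv, s0, s1⟩ := qc_spec a1 a2 a3 a4 (Nat.sub_le 31 c2) a7 a8 a9 (by omega)
      (by omega) (by omega) (by omega) a14 m0 m1 h1 h
    exact ⟨_, _, _, _, cv.use' hS a5 a7 a8 a9, key _ _ _ _ s1 s0⟩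

end

end Pool.Agent.MP_1037db_co.LP

/-! Moves to the cells of a rectangle. -/

namespace Pool.Agent.MP_1037db_co.LP

variable [G : Geo] {α : Type} {E : Env α} {t : α → ℝ} {p q : α} {S : Finset α} {H DT : Tr}
  {ref K j jp k c1 c2 xL xR xI xO fL fR fI fO a b i s row b0 b1 X0 X1 G0 G1
    u0 u1 u2 u3 v0 v1 v2 v3 : ℕ}

theorem cnb (a b x y : ℕ) : cn (Nat.beq a b) x y = if a = b then x else y := by simp [cn_eq]

theorem cbb (a b : ℕ) (x y : Bool) : cb (Nat.beq a b) x y = if a = b then x else y := by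
  simp [cb_eq]

theorem nzb (a b x : ℕ) : nz (Nat.beq a b) x = if a = b then x else 0 := by simp [nz_eq]

theorem brec (a b c : Bool) : (Bool.rec a b c : Bool) = if c = true then b else a := by
  cases c <;> rfl

theorem rec_ind {β : Type} (P : β → Prop) {z : β} {f : ℕ → β → β} (hz : P z)
    (hf : ∀ n b, P b → P (f n b)) (n : ℕ) : P (Nat.rec z f n) := by
  induction n with
  | zero => exact hz
  | succ n ih => exact hf n _ ih

theorem gE {x y z : Prop} : Gk 1419612298781011615649678952475016771720260989886843619185417813866810540483857042694292115230126086047217080772174804169130042720256 1419612298781011615649678952475016771720260989886843619185417813866810540483857042694292115230126086047217080772174804169130042720256 x y z :=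
  ⟨131072, 131072, 131072, 131072, 131072, by decide +kernel, by decide +kernel, by simp⟩

theorem gI {x y z : Prop} (h : y) : Gk 1419606883410515285933156337238064059264866959790027494531097747491732173807104316811933577388984253498001448008243454537694590271488 1419606883410515285933156337238064059264866959790027494531097747491732173807104316811933577388984253498001448008243454537694590271488 x y z :=
  ⟨131072, 131072, 0, 131072, 0, by decide +kernel, by decide +kernel, by simp [h]⟩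

theorem gO {x y z : Prop} (h : z) : Gk 1419612298760353616624983683757765043842787328868357226911993076622904995903906035794550437531846357570377827477677261096049478467584 1419612298760353616624983683757765043842787328868357226911993076622904995903906035794550437531846357570377827477677261096049478467584 x y z :=
  ⟨131072, 0, 131072, 0, 131072, by decide +kernel, by decide +kernel, by simp [h]⟩

theorem gL {x y z : Prop} (h : x) : Gk 1419612298781011615649678952475016771720260989886843619185417813853330515728068146331750118256537153253433353924168612207730544869376 300614597348733166342637721397432804271559715654932206222926367701946803336314258965696871408759412306084888576 x y z :=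
  ⟨0, 0, 0, 131072, 131072, by decide +kernel, by decide +kernel, by simp [h]⟩

theorem Env.Bx.mono {A B A' B' : ℝ} {d1 d2 : ℕ} (h : E.Bx t A B c1 c2 p) (h1 : A' ≤ A) (h2 : B ≤ B')
    (h3 : d1 ≤ c1) (h4 : c2 ≤ d2) : E.Bx t A' B' d1 d2 p :=
  ⟨h1.trans h.a, h.b.trans h2, (E.mono.monotone h3).trans h.lo, h.hi.trans (E.mono.monotone h4)⟩

theorem Env.Go.app {A B A' B' w0 w1 w2 w3 : ℝ} {c : ℤ}
    (h : E.Go K j c1 c2 xL xR xI xO A B w0 w1 w2 w3) (ht : E.Ch t) (hp : E.At t c j p) (hS : p ∉ S)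
    (h1 : ∀ s ∈ S, E.Bx t A' B' c1 c2 s ∧ E.Fl t p xL xR xI xO s) (hA : c + A ≤ A')
    (hB : B' ≤ c + B) : WK E.D (K + 1) p S (bil w0 w1 w2 w3 (t p - c) (E.fr j p)) :=
  h t ht c p S hp hS fun s hs => ⟨(h1 s hs).1.mono hA hB le_rfl le_rfl, (h1 s hs).2⟩

theorem pr_wk (hS : E.NS H i) (hb : Bs b0 b1 j i xL xR xI xO v0 v1 v2 v3) (ht : E.Ch t)
    (hp : E.At t 120 j p) (hr : ref ≤ 1048575) (hK : K ≤ 7) (h1 : c1 ≤ 31) (h2 : c2 ≤ 31)
    (hA : a ≤ 598) (hB : b ≤ 598) (h : pr H ref b0 b1 (LP.rw K c1 c2) a b = true) (hS' : p ∉ S)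
    (h3 : ∀ s ∈ S, E.Bx t a b c1 c2 s ∧ E.Fl t p xL xR xI xO s) :
    WK E.D (K + 1) p S (bil v0 v1 v2 v3 (t p - (120 : ℤ)) (E.fr j p)) :=
  (pr_go hS hb hr hK h1 h2 hA hB h).app ht hp hS' h3 (by simp) (by simp)

theorem Env.Ch.eq (ht : E.Ch t) (p q : α) (c c' : ℤ) (jp j : ℕ) : E.M p q =
    dd (E.r jp + E.fr jp p * (E.r (jp + 1) - E.r jp)) (c + (t p - c))
      (E.r j + E.fr j q * (E.r (j + 1) - E.r j)) (c' + (t q - c')) := by
  rw [← E.fr_eq, ← E.fr_eq, add_sub_cancel, add_sub_cancel, ht]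

structure Xs (X0 X1 j i xL xR xI xO v0 v1 v2 v3 : ℕ) : Prop where
  e0 : X0 = 2854494705179492919185874028944833089804173312 + 2 ^ 133 * i + 2 ^ 62 * xI + 2 ^ 64 * xO + 864691128455135232 * xL +
    (1419612298781011615649678952475016771720260989886843619185417813866810540483857042694289260734059777086614141044292360906313165701120 + (vb v1 v3 * 7067415219060204468974481253372378698352689322148743724669014129235722240 + vb v0 v2 * 157608626012479106950455875032358246031540767862531061979056877007350196635150709975299591994347402807817141055651840)) + 2 ^ 40 * j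
  e1 : X1 = 2854494705179492919185874028944833089804173312 + 2 ^ 133 * i + 2 ^ 62 * xI + 2 ^ 64 * xO + 864691128455135232 * xR +
    (1419612298781011615649678952475016771720260989886843619185417813866810540483857042694289260734059777086614141044292360906313165701120 + (vb v0 v2 * 7067415219060204468974481253372378698352689322148743724669014129235722240 + vb v1 v3 * 157608626012479106950455875032358246031540767862531061979056877007350196635150709975299591994347402807817141055651840)) + 2 ^ 40 * j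
  j : j ≤ 31
  l : xL ≤ 1
  r : xR ≤ 1
  xi : xI ≤ 1
  xo : xO ≤ 1
  v0 : v0 ≤ 65535
  v1 : v1 ≤ 65535
  v2 : v2 ≤ 65535
  v3 : v3 ≤ 65535

theorem qr_go {d : ℝ} (hS : E.NS H i) (hX : Xs X0 X1 j i xL xR xI xO v0 v1 v2 v3) (hi : i ≤ 262144)
    (hr : ref ≤ 1048575) (hK : K ≤ 7) (h1 : c1 ≤ 31) (h2 : c2 ≤ 31) (ha : a ≤ 598) (hb : b ≤ 598)
    (hk : k ≤ 598) (ht : E.Ch t) (hp : E.At t 120 jp p) (hq : E.At t k j q) (hd : 0 ≤ d)
    (hR : RB d row (E.r jp) (E.r (jp + 1)) (E.r j) (E.r (j + 1)))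
    (hG : Gk G0 G1 (t p - (120 : ℤ) ≤ t q - (k : ℤ)) (E.fr jp p ≤ E.fr j q) (E.fr j q ≤ E.fr jp p))
    (h : qr H row k ref X0 X1 a b (LP.rw K c1 c2) G0 G1 = true) :
    ∃ T, d * E.D p q + T ≤ bil v0 v1 v2 v3 (t p - (120 : ℤ)) (E.fr jp p) ∧ ∀ S : Finset α, q ∉ S →
      (∀ s ∈ S, E.Bx t a b c1 c2 s ∧ E.Fl t q xL xR xI xO s) → WK E.D (K + 1) q S T := by
  obtain ⟨e0, e1, a1, a2, a3, a4, a5, a6, a7, a8, a9⟩ := hX
  obtain ⟨w0, w1, w2, w3, g, e⟩ := qx_go hS ⟨hr, hK, a1, h1, h2, a2, a3, a4, a5, ha, hk, hb, hk, hi⟩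
    a6 a7 a8 a9 hR hd hp.x0 hp.x1 hq.x0 hq.x1 hp.f0 hp.f1 hq.f0 hq.f1 hG (by
      simp only [e0, rw_eq, cx, Nat.add_eq, Nat.mul_eq]
      ring) (by
      simp only [e1, rw_eq, cx, Nat.add_eq, Nat.mul_eq]
      ring) h
  rw [← ht.eq] at e
  exact ⟨_, le_trans (add_le_add_left (mul_le_mul_of_nonneg_left (E.le p q) hd) _) e,
    fun S h1 h2 => g.app ht hq h1 h2 (by simp) (by simp)⟩

theorem two_spec {P Q : ℕ → ℕ → ℕ → ℕ → ℕ → Bool} {c r1 r2 : ℕ} (E : Env α) (t : α → ℝ)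
    (h : two P Q s c r1 r2 a b c1 c2 = true) (ha : a ≤ 598) (hb : b ≤ 598) (hc : c ≤ 598)
    (h1 : c1 ≤ 31) (h2 : c2 ≤ 31) : ∃ A B d1 d2 A' B' e1 e2, P r1 A B d1 d2 = true ∧
      Q r2 A' B' e1 e2 = true ∧ (A ≤ 598 ∧ B ≤ 598 ∧ d1 ≤ 31 ∧ d2 ≤ 31) ∧
      (A' ≤ 598 ∧ B' ≤ 598 ∧ e1 ≤ 31 ∧ e2 ≤ 31) ∧ ∃ Z : α → Prop, ∀ s, E.Bx t a b c1 c2 s →
      (Z s → E.Bx t A B d1 d2 s) ∧ (¬ Z s → E.Bx t A' B' e1 e2 s) := by
  simp only [two, cbb] at h
  split_ifs at h <;> simp only [an_iff, Nat.ble_eq] at h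
  · exact ⟨_, _, _, _, _, _, _, _, h.1, h.2, ⟨ha, hc, h1, h2⟩, ⟨hc, hb, h1, h2⟩, fun s => t s ≤ c,
      fun s u => ⟨fun z => ⟨u.a, z, u.lo, u.hi⟩, fun z => ⟨(not_le.1 z).le, u.b, u.lo, u.hi⟩⟩⟩
  · exact ⟨_, _, _, _, _, _, _, _, h.1, h.2, ⟨hc, hb, h1, h2⟩, ⟨ha, hc, h1, h2⟩, fun s => c ≤ t s,
      fun s u => ⟨fun z => ⟨z, u.b, u.lo, u.hi⟩, fun z => ⟨u.a, (not_le.1 z).le, u.lo, u.hi⟩⟩⟩
  · exact ⟨_, _, _, _, _, _, _, _, h.2.1, h.2.2, ⟨ha, hb, h1, h.1⟩, ⟨ha, hb, h.1, h2⟩,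
      fun s => E.ρ s ≤ E.r c,
      fun s u => ⟨fun z => ⟨u.a, u.b, u.lo, z⟩, fun z => ⟨u.a, u.b, (not_le.1 z).le, u.hi⟩⟩⟩
  · exact ⟨_, _, _, _, _, _, _, _, h.2.1, h.2.2, ⟨ha, hb, h.1, h2⟩, ⟨ha, hb, h1, h.1⟩,
      fun s => E.r c ≤ E.ρ s,
      fun s u => ⟨fun z => ⟨u.a, u.b, z, u.hi⟩, fun z => ⟨u.a, u.b, u.lo, (not_le.1 z).le⟩⟩⟩

theorem sgY_go [DecidableEq α] {d V : ℝ} (hS : E.NS H i) (hb : Bs b0 b1 jp i fL fR fI fO u0 u1 u2 u3)
    (hX : Xs X0 X1 j i xL xR xI xO v0 v1 v2 v3) (hK : K ≤ 3) (h1 : c1 ≤ 31) (h2 : c2 ≤ 31)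
    (ha : a ≤ 598) (hb' : b ≤ 598) (hk : k ≤ 598) (ht : E.Ch t) (hp : E.At t 120 jp p)
    (hq : E.At t k j q) (hd : 0 ≤ d) (hR : RB d row (E.r jp) (E.r (jp + 1)) (E.r j) (E.r (j + 1)))
    (hG : Gk G0 G1 (t p - (120 : ℤ) ≤ t q - (k : ℤ)) (E.fr jp p ≤ E.fr j q) (E.fr j q ≤ E.fr jp p))
    (hpS : p ∉ S) (hqS : q ∈ S) (hin : ∀ s ∈ S, s ≠ q → E.Bx t a b c1 c2 s ∧
      E.Fl t p fL fR fI fO s ∧ E.Fl t q xL xR xI xO s)
    (hV : bil u0 u1 u2 u3 (t p - (120 : ℤ)) (E.fr jp p) ≤ V)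
    (hW : E.D p q + bil v0 v1 v2 v3 (t p - (120 : ℤ)) (E.fr jp p) ≤ d * E.D p q + V)
    (h : sgY H row b0 b1 X0 X1 K a b c1 c2 G0 G1 k s = true) : WK E.D (K + 1) p S V := by
  rw [sgY, cbb] at h
  split_ifs at h
  · obtain ⟨T, e, g⟩ := qr_go (K := K + 1) hS hX hb.i (bt_le _ _ _) (by omega) h1 h2 ha hb' hk ht hp
      hq hd hR hG h
    refine WK.step E.met hqS (g _ (Finset.notMem_erase _ _) fun s hs => ?_) (by linarith)
    obtain ⟨x, y⟩ := Finset.mem_erase.1 hs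
    exact ⟨(hin s y x).1, (hin s y x).2.2⟩
  · rw [an_iff, Nat.ble_eq] at h
    obtain ⟨A, B, d1, d2, A', B', e1, e2, hP, hQ, ⟨n1, n2, n3, n4⟩, ⟨m1, m2, m3, m4⟩, Z, hZ⟩ :=
      two_spec E t h.2 ha hb' ((bt_le _ _ _).trans (by norm_num)) h1 h2
    obtain ⟨T, e, g'⟩ := qr_go (K := 1) hS hX hb.i (bt_le _ _ _) (by omega) m3 m4 m1 m2 hk ht hp
      hq hd hR hG hQ
    refine WK.two E.met hqS Z (fun S' u => (pr_wk (K := K - 1) hS hb ht hp (bt_le _ _ _) (by omega)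
      n3 n4 n1 n2 hP (fun c => hpS (u p c).1) fun s hs => ?_).mono (by have := h.1; omega) hV)
      (fun S' u u' => g' S' u fun s hs => ?_) (by linarith)
    · obtain ⟨x, y, z⟩ := u s hs
      exact ⟨(hZ s (hin s x y).1).1 z, (hin s x y).2.1⟩
    · obtain ⟨x, z⟩ := u' s hs
      have y : s ≠ q := fun c => u (c ▸ hs)
      exact ⟨(hZ s (hin s x y).1).2 z, (hin s x y).2.2⟩

theorem segs_spec {XT C0 C1 E0 E1 p0 p1 q0 q1 G P cj co clo chi jlo : ℕ}
    {X : ℕ → ℕ → ℕ → ℕ → Bool} {j' k' : ℕ} {Z : Prop} (h1 : jlo ≤ j') (h3 : clo ≤ k')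
    (h4 : k' < chi) (z1 : ∀ k s, k ≤ k' → k' < k + bt s 2 63 →
      sC H C0 C1 p0 p1 q0 q1 (jj cj co j') k (k + bt s 2 63) (bt s 8 1048575)
        (dr DT P j' >>> (ko k s * 72) &&& 1180578109866989387775) = true → Z)
    (z2 : ∀ s, qx H (dr DT P j') k' (bt s 2 1048575) (E0 + jj cj co j' + k' * p0)
      (E1 + jj cj co j' + k' * p1) ((k' + 1) * q0) ((k' + 1) * q1) (gm G jp j') (gm G jp j') = true → Z)
    (z3 : ∀ k s, k ≤ k' → k' < k + bt s 2 63 → ko k s ≤ xe XT P j' → Z)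
    (z4 : ∀ s, X j' (dr DT P j') k' s = true → Z) :
    ∀ j k s, segs H DT XT C0 C1 E0 E1 p0 p1 q0 q1 G jp P cj co clo chi jlo X j k s (dr DT P j)
      (jj cj co j) = true → j' ≤ j → (j' = j → k ≤ k') → Z := by
  delta segs
  generalize nat_lit 9999 = n
  refine rec_ind (fun g : ℕ → ℕ → ℕ → ℕ → ℕ → Bool => ∀ j k s, g j k s (dr DT P j)
    (jj cj co j) = true → j' ≤ j → (j' = j → k ≤ k') → Z) ?_
    (fun _ g ih j k s h h5 h6 => ?_) _
  · exact fun _ _ _ h => Bool.noConfusion h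
  simp only [brec, nrec, s0, s1, nx, Nat.ble_eq] at h
  have key : ∀ w s', g j (k + w) s' (dr DT P j) (jj cj co j) = true →
      (j' = j → k ≤ k' → k' < k + w → Z) → Z := fun w s' u v => by
    by_cases c : j' = j ∧ k' < k + w
    · exact v c.1 (h6 c.1) c.2
    · exact ih _ _ _ u h5 fun e => not_lt.1 fun e' => c ⟨e, e'⟩
  split_ifs at h with c1 c2 c3 c4 c5 c6 c7 c8 c9
  · omega
  · exact ih _ _ _ h (by simp only [Nat.sub_eq]; omega) fun _ => h3
  · exact key _ _ h fun e x y => z1 k s x y (e ▸ c4)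
  · refine key _ _ h fun e x y => z2 s ?_
    obtain rfl : k = k' := by omega
    exact e ▸ c6
  · exact key _ _ h fun e x y => z3 k s x y (e ▸ c8)
  · refine key _ _ h fun e x y => z4 (s >>> 2) ?_
    obtain rfl : k = k' := by omega
    exact e ▸ c9

end Pool.Agent.MP_1037db_co.LP
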