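import Pool.Agent.MP_1037db_co.LP.SoundA

set_option linter.unusedSectionVars false

/-! Nodes that look for an extreme point. -/

namespace Pool.Agent.MP_1037db_co.LP

variable [G : Geo] {α : Type} {E : Env α} {t : α → ℝ} {p q : α} {S : Finset α} {H DT : Tr}
  {XT m K j jp k fL fI fO a b j1 j2 i s nt n b0 b1 v0 v1 v2 v3 : ℕ}

def Env.TB (E : Env α) (DT : Tr) (m : ℕ) : Prop := ∀ p < m, ∀ j < m,
  RB 1 (dr DT (p * 32 + 1) j) (E.r p) (E.r (p + 1)) (E.r j) (E.r (j + 1))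

def Env.XB (E : Env α) (XT m : ℕ) : Prop := ∀ jp < m, ∀ j < m, ∀ k s, k < 256 →
  ko k s ≤ xe XT (jp * 32 + 1) j → ∀ t, E.Ch t → ∀ (p q : α) (n : ℕ), p ≠ q → E.At t 120 jp p →
  E.At t n j q → k ≤ n → n < k + bt s 2 63 → False

noncomputable def kc (k w e c : ℕ) : Bool := an (Nat.ble 1 e) (an (Nat.ble e 61) (orr (Nat.beq e 61)
  (an (Nat.ble (c * 120 + 2) (k + e)) (Nat.ble (k + w + 1) (c * 120 + e)))))

theorem ko_chk : (al 256 fun k => al 64 fun w =>
    kc k w (ko k (w * 4)) ((2 * k + w + 119) / 240)) = true := by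
  decide +kernel

theorem ko_spec (hk : k < 256) (h1 : k ≤ n) (h2 : n < k + bt s 2 63) : 1 ≤ ko k s ∧ ko k s ≤ 61 ∧
    ∀ u w : ℤ, u = 120 ∨ u = 120 + 1 → w = n ∨ w = n + 1 → co (ko k s - 1) ≤ co (u - w) := by
  have hw : bt s 2 63 < 64 := Nat.lt_succ_of_le (bt_le _ _ _)
  have h := al_iff.1 (al_iff.1 ko_chk k hk) _ hw
  have e : ko k (bt s 2 63 * 4) = ko k s := by
    have : bt (bt s 2 63 * 4) 2 63 = bt s 2 63 := by
      rw [bt, Nat.land_eq, Nat.shiftRight_eq', Nat.shiftRight_eq_div_pow]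
      exact (Nat.and_two_pow_sub_one_eq_mod _ 6).trans (by omega)
    exact congrArg (fun w => Nat.land (Nat.shiftRight KT ((k * 64 + w) * 6)) 63) this
  rw [e] at h
  clear e
  generalize ko k s = e, (2 * k + bt s 2 63 + 119) / 240 = c at *
  generalize bt s 2 63 = W at *
  simp only [kc, an_iff, orr_iff, Nat.ble_eq, Nat.beq_eq] at h
  obtain ⟨a1, a2, a3⟩ := h
  refine ⟨a1, a2, fun u w hu hw => ?_⟩
  rcases a3 with rfl | a3
  · exact (by norm_num : ((61 : ℕ) : ℝ) - 1 = 60) ▸ co_sixty _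
  · have : (e : ℝ) ≤ 61 := by exact_mod_cast a2
    have x : |u - w - 120 * (1 - c)| ≤ e - 1 := abs_le.2 (by omega)
    exact co_anti (1 - c) (by exact_mod_cast x) (by linarith)

theorem Env.Bx.cell {clo chi jlo jhi : ℕ} (h : E.Bx t clo chi jlo jhi q) (h1 : clo < chi)
    (h2 : jlo < jhi) : ∃ k j : ℕ, clo ≤ k ∧ k < chi ∧ jlo ≤ j ∧ j < jhi ∧ E.At t k j q := by
  obtain ⟨k, a1, a2, a3, a4⟩ := exists_cell (fun n => n) h1 h.a h.b
  obtain ⟨j, b1, b2, b3, b4⟩ := exists_cell E.r h2 h.lo h.hi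
  exact ⟨k, j, a1, a2, b1, b2, by simpa using a3, by simpa using a4, b3, b4⟩

theorem bil_nn {c : ℤ} (h : E.At t c j p) (v0 v1 v2 v3 : ℕ) :
    0 ≤ bil v0 v1 v2 v3 (t p - c) (E.fr j p) := by
  have := bil_le h.x0 h.x1 h.f0 h.f1 v0.cast_nonneg v1.cast_nonneg v2.cast_nonneg v3.cast_nonneg
  simpa [bil] using this

def ind (a b : ℕ) : ℕ := if a = b then 1 else 0

theorem ind_le (a b : ℕ) : ind a b ≤ 1 := by unfold ind; split_ifs <;> simp

theorem extreme (E : Env α) (t : α → ℝ) (h : S.Nonempty) (nt : ℕ) :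
    ∃ q ∈ S, ∀ s ∈ S, E.Fl t q (ind nt 0) (ind nt 1) (ind nt 2) (ind nt 3) s := by
  obtain ⟨q, h1, h2⟩ := S.exists_min_image (fun s => if nt = 0 then t s else if nt = 1 then -t s
    else if nt = 2 then E.ρ s else -E.ρ s) h
  refine ⟨q, h1, fun s hs => ?_⟩
  have := h2 s hs
  constructor <;> intro e <;> simp only [ind, ite_eq_left_iff, zero_ne_one, imp_false, not_not] at e <;>
    simpa [e] using this

theorem gk_gm {x : Prop} (hf : E.Fl t p fL 0 fI fO q) :
    Gk (gm (if fI = 1 then 1419606883410515285933156337238064059264866959790027494531097747491732173807104316811933577388984253498001448008243454537694590271488 else if fO = 1 then 1419612298760353616624983683757765043842787328868357226911993076622904995903906035794550437531846357570377827477677261096049478467584 else 1419612298781011615649678952475016771720260989886843619185417813866810540483857042694292115230126086047217080772174804169130042720256) jp j)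
      (gm (if fI = 1 then 1419606883410515285933156337238064059264866959790027494531097747491732173807104316811933577388984253498001448008243454537694590271488 else if fO = 1 then 1419612298760353616624983683757765043842787328868357226911993076622904995903906035794550437531846357570377827477677261096049478467584 else 1419612298781011615649678952475016771720260989886843619185417813866810540483857042694292115230126086047217080772174804169130042720256) jp j) x
      (E.fr jp p ≤ E.fr j q) (E.fr j q ≤ E.fr jp p) := by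
  rw [gm, cnb]
  split_ifs with e e1 e2
  · exact gI (e ▸ E.fr_le (hf.i e1))
  · exact gO (e ▸ E.fr_le (hf.o e2))
  · exact gE
  · exact gE

theorem pk0 (hn : nt ≤ 3) (hb : b ≤ 255) (X k k' j : ℕ) :
    2854494705179492919185874028944833089804173312 + i * 10889035741470030830827987437816582766592 + ((if nt = 2 then 4611686018427387904 else 0) + if nt = 3 then 18446744073709551616 else 0) +
      (if nt = 0 then 864691128455135232 else 0) + ((K + 1) * 68719476736 + ((if nt = 2 then 0 else j1) * 70368744177664 +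
      (if nt = 3 then 0 else 31 - j2) * 4503599627370496) + ((if nt = 0 then 0 else a + 1) * 324518553658426726783156020576256 +
      (if nt = 1 then 254 else 255 - b) * 664613997892457936451903530140172288)) + X +
      jj (1099511627776 + if nt = 2 then 70368744177664 else 0) (if nt = 3 then 4503599627370496 else 0) j +
      k * (if nt = 1 then 0 else 664613997892457936451903530140172288) + 2 ^ 108 * (if nt = 0 then 0 else k') +
      2 ^ 119 * (if nt = 1 then 1 else b) = k' * (if nt = 0 then 0 else 324518553658426726783156020576256) + 2854494705179492919185874028944833089804173312 +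
      cx (K + 1) j (if nt = 2 then j else j1) (31 - if nt = 3 then j + 1 else j2) (ind nt 2)
        (ind nt 3) i + 864691128455135232 * ind nt 0 + 2 ^ 108 * (if nt = 0 then 0 else a + 1) +
      2 ^ 119 * (255 + if nt = 1 then 0 else k) + X := by
  have e : 31 - (j + 1) = 30 - j := by omega
  interval_cases nt <;> simp only [jj, cx, ind, e, Nat.add_eq, Nat.mul_eq, Nat.sub_eq, if_true,
    Nat.reduceEqDiff, if_false] <;> zify [hb] <;> ring

theorem pk1 (hn : nt ≤ 3) (hb : b ≤ 255) (X k k' j : ℕ) :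
    2854494705179492919185874028944833089804173312 + i * 10889035741470030830827987437816582766592 + ((if nt = 2 then 4611686018427387904 else 0) + if nt = 3 then 18446744073709551616 else 0) +
      (if nt = 1 then 864691128455135232 else 0) + ((K + 1) * 68719476736 + ((if nt = 2 then 0 else j1) * 70368744177664 +
      (if nt = 3 then 0 else 31 - j2) * 4503599627370496) + ((if nt = 1 then 255 else 256 - b) * 324518553658426726783156020576256 +
      (if nt = 0 then 254 else a + 255) * 664613997892457936451903530140172288) - 82752231182898815329704785246945280) + X +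
      jj (1099511627776 + if nt = 2 then 70368744177664 else 0) (if nt = 3 then 4503599627370496 else 0) j +
      k * (if nt = 1 then 0 else 324518553658426726783156020576256) + 2 ^ 108 * (if nt = 1 then 1 else b) +
      2 ^ 119 * ((if nt = 0 then 0 else k') + 1) = k' * (if nt = 0 then 0 else 664613997892457936451903530140172288) + 2854494705179492919185874028944833089804173312 +
      cx (K + 1) j (if nt = 2 then j else j1) (31 - if nt = 3 then j + 1 else j2) (ind nt 2)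
        (ind nt 3) i + 864691128455135232 * ind nt 1 + 2 ^ 108 * ((if nt = 1 then 0 else k) + 1) +
      2 ^ 119 * (255 + if nt = 0 then 0 else a + 1) + X := by
  have e : 31 - (j + 1) = 30 - j := by omega
  have hb' : b ≤ 256 := by omega
  have e' : ∀ x y z : ℕ, 254 ≤ z → 82752231182898815329704785246945280 ≤ x + (y + z * 664613997892457936451903530140172288) := by
    intro x y z h
    omega
  interval_cases nt <;> simp only [jj, cx, ind, e, Nat.add_eq, Nat.mul_eq, Nat.sub_eq, if_true,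
    Nat.reduceEqDiff, if_false] <;> zify [hb'] <;> rw [Nat.cast_sub (e' _ _ _ (by omega))] <;>
    push_cast [Nat.cast_sub hb'] <;> ring

theorem ts1_go [DecidableEq α] (hS : E.NS H i) (hT : E.TB DT m) (hX : E.XB XT m)
    (hb : Bs b0 b1 jp i fL 0 fI fO v0 v1 v2 v3) (hK : K ≤ 3) (ha : a ≤ 255) (hb' : b ≤ 255)
    (h1 : j1 ≤ 31) (h2 : j2 ≤ 31) (hp' : jp < m) (hm : j2 ≤ m) (hn : nt ≤ 3) (ht : E.Ch t)
    (hp : E.At t 120 jp p) (hpS : p ∉ S)
    (hin : ∀ s ∈ S, E.Bx t a b j1 j2 s ∧ E.Fl t p fL 0 fI fO s)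
    (h : ts1 H DT XT i b0 b1 K fL fI fO jp a b j1 j2 v0 v1 v2 v3 s nt n = true) :
    WK E.D (K + 1) p S (bil v0 v1 v2 v3 (t p - (120 : ℤ)) (E.fr jp p)) := by
  rcases S.eq_empty_or_nonempty with rfl | hne
  · exact WK.empty (bil_nn hp _ _ _ _)
  obtain ⟨q, hq, hf⟩ := extreme E t hne nt
  simp only [ts1, ts2, ts3, nx, an_iff, orr_iff, lt_iff, cnb, nzb, mn_eq, Nat.ble_eq, Nat.add_eq,
    Nat.mul_eq, Nat.sub_eq] at h
  have g1 : nt ≠ 1 → (if nt = 1 then b - n else a) = a := fun e => if_neg e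
  have g0 : nt ≠ 0 → (if nt = 0 then a + n else b) = b := fun e => if_neg e
  have g3 : nt ≠ 3 → (if nt = 3 then j2 - n else j1) = j1 := fun e => if_neg e
  have g2 : nt ≠ 2 → (if nt = 2 then j1 + n else j2) = j2 := fun e => if_neg e
  generalize (if nt = 1 then b - n else a) = clo, (if nt = 0 then a + n else b) = chi,
    (if nt = 3 then j2 - n else j1) = jlo, (if nt = 2 then j1 + n else j2) = jhi at h g0 g1 g2 g3
  obtain ⟨c1, c2, c3, c4, c5, h⟩ := h
  obtain ⟨hqb, hqf⟩ := hin q hq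
  by_cases hsl : E.Bx t clo chi jlo jhi q
  swap
  · rcases c5 with c5 | c5
    · exact absurd (hqb.mono (by exact_mod_cast c5.1) (by exact_mod_cast c5.2.1) c5.2.2.1 c5.2.2.2)
        hsl
    refine pr_wk hS hb ht hp (bt_le _ _ _) (by omega) (by split_ifs <;> omega)
      (by split_ifs <;> omega) (by split_ifs <;> omega) (by split_ifs <;> omega) c5 hpS
      fun s hs => ⟨?_, (hin s hs).2⟩
    obtain ⟨u1, u2, u3, u4⟩ := (hin s hs).1
    obtain ⟨f0, f1, f2, f3⟩ := hf s hs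
    refine ⟨?_, ?_, ?_, ?_⟩ <;> split_ifs with e <;> try assumption
    all_goals
      subst e
      refine not_lt.1 fun c => hsl ?_
    · rw [g1 (by norm_num), g2 (by norm_num), g3 (by norm_num)]
      exact ⟨hqb.a, (f0 rfl).trans c.le, hqb.lo, hqb.hi⟩
    · rw [g0 (by norm_num), g2 (by norm_num), g3 (by norm_num)]
      exact ⟨c.le.trans (f1 rfl), hqb.b, hqb.lo, hqb.hi⟩
    · rw [g0 (by norm_num), g1 (by norm_num), g3 (by norm_num)]
      exact ⟨hqb.a, hqb.b, hqb.lo, (f2 rfl).trans c.le⟩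
    · rw [g0 (by norm_num), g1 (by norm_num), g2 (by norm_num)]
      exact ⟨hqb.a, hqb.b, c.le.trans (f3 rfl), hqb.hi⟩
  obtain ⟨k, j, k1, k2, l1, l2, hc⟩ := hsl.cell c1 c2
  have hY : ∀ s ∈ S, E.Bx t (if nt = 0 then k else a : ℕ) (if nt = 1 then k + 1 else b : ℕ)
      (if nt = 2 then j else j1) (if nt = 3 then j + 1 else j2) s := fun s hs => by
    obtain ⟨u1, u2, u3, u4⟩ := (hin s hs).1
    obtain ⟨f0, f1, f2, f3⟩ := hf s hs
    refine ⟨?_, ?_, ?_, ?_⟩ <;> split_ifs with e <;> try assumption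
    · exact hc.a.trans (f0 (if_pos e))
    · exact (f1 (if_pos e)).trans (by simpa using hc.b)
    · exact hc.lo.trans (f2 (if_pos e))
    · exact (f3 (if_pos e)).trans hc.hi
  have hR := hT jp hp' j (by omega)
  have bd : ∀ r k' k'', r ≤ 1048575 → k' ≤ 598 → k'' ≤ 598 → Bd r (K + 1) j (if nt = 2 then j else j1)
      (if nt = 3 then j + 1 else j2) (ind nt 0) (ind nt 1) (ind nt 2) (ind nt 3)
      (if nt = 0 then 0 else a + 1) (if nt = 0 then 0 else k') (if nt = 1 then 1 else b)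
      (if nt = 1 then 0 else k'') i := fun r k' k'' a1 a2 a3 =>
    ⟨a1, by omega, by omega, by split_ifs <;> omega, by split_ifs <;> omega, ind_le _ _, ind_le _ _,
      ind_le _ _, ind_le _ _, by split_ifs <;> omega, by split_ifs <;> omega, by split_ifs <;> omega,
      by split_ifs <;> omega, hb.i⟩
  have fin : ∀ (k' k'' : ℕ) (w0 w1 w2 w3 : ℝ), k < k' → k'' ≤ k → E.Go (K + 1) j
      (if nt = 2 then j else j1) (if nt = 3 then j + 1 else j2) (ind nt 0) (ind nt 1) (ind nt 2)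
      (ind nt 3) ((if nt = 0 then 0 else a + 1 : ℕ) - (if nt = 0 then 0 else k' : ℕ))
      ((if nt = 1 then 1 else b : ℕ) - (if nt = 1 then 0 else k'' : ℕ)) w0 w1 w2 w3 →
      E.D p q + bil w0 w1 w2 w3 (t q - (k : ℤ)) (E.fr j q) ≤
        bil v0 v1 v2 v3 (t p - (120 : ℤ)) (E.fr jp p) →
      WK E.D (K + 1) p S (bil v0 v1 v2 v3 (t p - (120 : ℤ)) (E.fr jp p)) := by
    intro k' k'' w0 w1 w2 w3 a1 a2 g e
    have a3 : (k : ℝ) + 1 ≤ k' := by exact_mod_cast a1
    have a4 : (k'' : ℝ) ≤ k := by exact_mod_cast a2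
    refine WK.step E.met hq (g.app ht hc (Finset.notMem_erase _ _) (fun s hs =>
      ⟨hY s (Finset.mem_of_mem_erase hs), hf s (Finset.mem_of_mem_erase hs)⟩) ?_ ?_) e <;>
      split_ifs <;> push_cast <;> linarith
  refine segs_spec l1 k1 k2 (fun k0 s0 x y z => ?_) (fun s0 z => ?_) (fun k0 s0 x y z => ?_)
    (fun s0 z => ?_) _ _ _ h (by omega) fun _ => k1
  · have := bt_le s0 2 63
    obtain ⟨-, o2, o3⟩ := ko_spec (s := s0) (by omega) x y
    obtain ⟨w0, w1, w2, w3, g, e⟩ := sC_go hS (bd _ (k0 + bt s0 2 63) k0 (bt_le _ _ _) (by omega)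
      (by omega)) hb.v0 hb.v2 hp.x0 hp.x1 hc.x0 hc.x1 hp.f0 hp.f1 hc.f0 hc.f1
      (fun u w hu hw => Q4.sh (p := 0) (hR (ko k0 s0) (by omega) u w (o3 u w hu hw))) (pk0 hn hb' _ _ _ _)
      (pk1 hn hb' _ _ _ _) z
    exact fin _ _ _ _ _ _ y x g (by rw [← ht.eq] at e; linarith [E.le p q])
  · obtain ⟨w0, w1, w2, w3, g, e⟩ := qx_go hS (bd _ (k + 1) k (bt_le _ _ _) (by omega) (by omega))
      hb.v0 hb.v1 hb.v2 hb.v3 hR zero_le_one hp.x0 hp.x1 hc.x0 hc.x1 hp.f0 hp.f1 hc.f0 hc.f1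
      (gk_gm hqf) (pk0 hn hb' _ _ _ _) (pk1 hn hb' _ _ _ _) z
    exact fin _ _ _ _ _ _ k.lt_succ_self le_rfl g (by rw [← ht.eq, one_mul] at e; linarith [E.le p q])
  · exact (hX jp hp' j (by omega) k0 s0 (by omega) z t ht p q k (fun e => hpS (e ▸ hq)) hp hc x
      y).elim
  · simp only [sgX, cnb, Nat.add_eq, Nat.mul_eq] at z
    refine sgY_go (xL := ind nt 0) (xR := ind nt 1) (xI := ind nt 2) (xO := ind nt 3) hS hb
      ⟨?_, ?_, by omega, ind_le _ _, ind_le _ _, ind_le _ _, ind_le _ _, hb.v0, hb.v1, hb.v2, hb.v3⟩ hK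
      (by split_ifs <;> omega) (by split_ifs <;> omega) (by split_ifs <;> omega)
      (by split_ifs <;> omega) (by omega) ht hp hc zero_le_one hR ?_ hpS hq
      (fun s hs _ => ⟨hY s hs, (hin s hs).2, hf s hs⟩) le_rfl (by rw [one_mul]) z
    · interval_cases nt <;> simp only [ind, if_true, Nat.reduceEqDiff, if_false] <;> ring
    · interval_cases nt <;> simp only [ind, if_true, Nat.reduceEqDiff, if_false] <;> ring
    · rw [cn_eq, cn_eq]
      split_ifs with e
      · simp only [an_iff, Nat.beq_eq] at e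
        exact gL (by simpa [e.2] using hqf.l e.1)
      all_goals simpa [*] using gk_gm (jp := jp) (j := j) hqf

end Pool.Agent.MP_1037db_co.LP

/-! The tables. -/

namespace Pool.Agent.MP_1037db_co.LP

open Real

variable [G : Geo]

theorem Q4.un {c a a' b b' : ℝ} {y n : ℕ} {i j : ℤ} (h : Q4 c (y >>> n) 0 a a' b b' i j) :
    Q4 c y n a a' b b' i j := by
  simpa only [Q4, bt_sh, Nat.add_zero, Nat.zero_add] using h

variable {α : Type} {E : Env α} {DT : Tr} {R m XT TL : ℕ}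

def Env.RR (E : Env α) (R m : ℕ) : Prop := ∀ j ≤ m, E.r j = rd R j

/-- the parameters stored with the grid -/
structure PR (R m : ℕ) : Prop where
  hc : hcv R = G.hc
  c0 : rd R 33 = G.c0
  lim : rd R 34 = G.lim
  le : G.c0 ≤ G.lim
  row : ∀ j < m, rd R (j + 1) ≤ G.c0 ∨ G.c0 ≤ rd R j

theorem dk_spec {a b d Y : ℕ} (ha : a ≤ 65535) (hb : b ≤ 65535) (hY : Y < 123)
    (h : dk G.A G.B (ones 123) (ones 123 * 2 ^ 71) a b d = true) :
    Ph (fo (Y + 119)) a b ≤ bt d (Y * 72) 65535 := by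
  simp only [dk, fb_eq, al_iff, an_iff, Nat.add_eq, Nat.mul_eq, Nat.land_eq] at h
  refine Ph_le fun l hl => ?_
  obtain ⟨g1, g2, g3, -⟩ := geo_spec.1 l hl
  have key : ∀ a b : ℕ, a ≤ 65535 → b ≤ 65535 → lv (ones 123 * 2 ^ 71)
      ((d &&& ones 123 * 65535) * 65536 + b * 65536 * ones 123) (a * G.A.get l + b * G.B.get l) = true →
      fm (fo (Y + 119)) l a b ≤ bt d (Y * 72) 65535 := by
    intro a b ha hb h
    have e := ones_eq 123 1
    rw [Nat.mul_one] at e
    rw [pk_and _ _ (by norm_num), Nat.mul_comm _ 65536, g1, g2, pk_lin] at h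
    nth_rewrite 2 [e] at h
    rw [pk_lin] at h
    have := lv_spec _ _ _ (fun y => by have := bt_le d (y * 72) 65535; omega) (fun y => by
      have := Nat.mul_le_mul ha (bt_le (G.A.get l) (y * 72) 131071)
      have := Nat.mul_le_mul hb (bt_le (G.B.get l) (y * 72) 262143)
      simp only [fa, fc, Nat.mul_eq]
      omega) h Y hY
    rw [(g3 Y hY).1, (g3 Y hY).2] at this
    have := (Nat.cast_le (α := ℝ)).2 this
    push_cast at this
    unfold fm
    linarith
  exact ⟨key a b ha hb (h l hl).1, key b a hb ha (h l hl).2⟩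

theorem tab_go (hR : E.RR R m) (h : tab G.A G.B DT R m = true) : E.TB DT m := by
  intro p hp j hj Y hY u w hc
  have := al_iff.1 (an_iff.1 (al_iff.1 h p hp)).2 j hj
  simp only [dk4, an_iff] at this
  obtain ⟨a, b, c, d⟩ := this
  have e : fz (w - u) ≤ fo (Y + 119) := by
    rw [fo_eq]
    refine fz_of_co ?_
    have : co (Y + 119 : ℕ) = co (Y - 1) := by
      rw [co, co, ← cos_add_two_pi (π * (Y - 1) / 60)]
      congr 1
      push_cast
      ring
    rw [fz_co, Int.cast_natCast, this, ← co_neg (w - u : ℤ)]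
    simpa using hc
  have k : ∀ x y z : ℕ, dk G.A G.B (ones 123) (ones 123 * 2 ^ 71) (rd R x) (rd R y) z = true →
      1 * dd (rd R x) u (rd R y) w ≤ bt z (Y * 72) 65535 := fun x y z h => by
    rw [one_mul, dd_int]
    exact (Ph_mono e (fo_eq _ ▸ fz_le _) (Nat.cast_nonneg _) (Nat.cast_nonneg _)).trans
      (dk_spec (bt_le _ _ _) (bt_le _ _ _) hY h)
  rw [hR p hp.le, hR _ hp, hR j hj.le, hR _ hj]
  have sh : ∀ z n, bt (z >>> n) (Y * 72) 65535 = bt z (Y * 72 + n) 65535 := fun z n => by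
    rw [bt_sh, Nat.add_comm]
  exact ⟨k _ _ _ a, sh _ _ ▸ k _ _ _ b, sh _ _ ▸ k _ _ _ c, sh _ _ ▸ k _ _ _ d⟩

/-- the time to reach a point -/
def Env.τ (E : Env α) (p : α) : ℝ := min (E.ρ p) G.c0

theorem tau_eq {t : α → ℝ} {c : ℤ} {j : ℕ} {p : α} (hR : E.RR R m) (hP : PR R m) (hj : j < m)
    (h : E.At t c j p) : E.τ p = (1 - E.fr j p) * rq R j + E.fr j p * rq R (j + 1) := by
  have a := hR j hj.le
  have b := hR (j + 1) hj
  have c := h.lo
  have d := h.hi
  simp only [rq, mn_eq, hP.c0, Nat.cast_min, Env.τ]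
  rcases hP.row j hj with e | e <;> have e := (Nat.cast_le (α := ℝ)).2 e
  · rw [min_eq_left (by linarith), min_eq_left (by linarith), min_eq_left e, ← a, ← b]
    linarith [E.fr_eq j p]
  · rw [min_eq_right (by linarith), min_eq_right e, min_eq_right (by linarith)]
    ring

/-- lower bounds for the radius and for radius plus distance -/
def Env.Inv (E : Env α) (m j0 TL : ℕ) : Prop := (∀ p, E.r j0 ≤ E.ρ p ∧ E.ρ p ≤ E.r m) ∧
  ∀ p q, p ≠ q → ∀ j < m, E.ρ p ≤ E.r (j + 1) → (rd TL j : ℝ) ≤ E.τ p + E.M p q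

theorem xtab_go {j0 : ℕ} (hR : E.RR R m) (hP : PR R m) (hT : E.TB DT m) (hI : E.Inv m j0 TL)
    (h : xtab DT XT R TL m = true) : E.XB XT m := by
  intro jp hp j hj k s hk he t ht p q n hne a b k1 k2
  obtain ⟨o1, -, o3⟩ := ko_spec (s := s) hk k1 k2
  have := al_iff.1 (al_iff.1 h jp hp) j hj
  simp only [xk, x4, an_iff, orr_iff, lt_iff, Nat.beq_eq, Nat.ble_eq, Nat.add_eq, Nat.mul_eq] at this
  generalize xe XT (jp * 32 + 1) j = e at this he
  obtain ⟨e1, this⟩ := this.resolve_left (by omega)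
  have hq : ∀ u w : ℤ, u = 120 ∨ u = 120 + 1 → w = n ∨ w = n + 1 → Q4 1
      (dr DT (jp * 32 + 1) j >>> (e * 72)) 0 (E.r jp) (E.r (jp + 1)) (E.r j) (E.r (j + 1)) u w := by
    refine fun u w hu hw => Q4.sh (hT jp hp j hj e (by omega) u w (le_trans ?_ (o3 u w hu hw)))
    have x1 : (1 : ℝ) ≤ ko k s := by exact_mod_cast o1
    have x2 : (ko k s : ℝ) ≤ e := by exact_mod_cast he
    have x3 : (e : ℝ) ≤ 61 := by exact_mod_cast e1
    exact co_anti 0 (abs_le.2 ⟨by simp; linarith, by simp; linarith⟩) (by linarith)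
  have key : ∀ v v' w w' : ℝ, (∀ {u x : ℤ}, Q4 1 (dr DT (jp * 32 + 1) j >>> (e * 72)) 0 (E.r jp)
      (E.r (jp + 1)) (E.r j) (E.r (j + 1)) u x → 1 * dd (E.r jp) u (E.r j) x + w ≤ v ∧
      1 * dd (E.r jp) u (E.r (j + 1)) x + w' ≤ v ∧ 1 * dd (E.r (jp + 1)) u (E.r j) x + w ≤ v' ∧
      1 * dd (E.r (jp + 1)) u (E.r (j + 1)) x + w' ≤ v') → E.M p q + ((1 - E.fr j q) * w +
      E.fr j q * w') ≤ (1 - E.fr jp p) * v + E.fr jp p * v' := by
    intro v v' w w' g
    have r := fun u x hu hx => conv_r zero_le_one a.f0 a.f1 b.f0 b.f1 (g (hq u x hu hx)).1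
      (g (hq u x hu hx)).2.2.2 (fun _ => (g (hq u x hu hx)).2.1) fun _ => (g (hq u x hu hx)).2.2.1
    have := conv_a zero_le_one a.x0 a.x1 b.x0 b.x1 (r _ _ (.inl rfl) (.inl rfl))
      (r _ _ (.inr rfl) (.inr rfl)) (fun _ => r _ _ (.inl rfl) (.inr rfl))
      fun _ => r _ _ (.inr rfl) (.inl rfl)
    rw [← ht.eq] at this
    linarith
  have c : ∀ {x y z : ℕ} {d : ℝ}, x + y < z → d ≤ y → d + x ≤ z - 1 := fun h1 h2 => by
    have := (Nat.cast_le (α := ℝ)).2 (Nat.succ_le_of_lt h1)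
    push_cast at this
    linarith
  rcases this with ⟨x1, x2, x3, x4⟩ | ⟨x1, x2, x3, x4⟩
  · have := key (rd TL jp - 1 - rq R jp) (rd TL jp - 1 - rq R (jp + 1)) 0 0 fun ⟨y1, y2, y3, y4⟩ =>
      ⟨by linarith [c x1 y1], by linarith [c x2 y2], by linarith [c x3 y3], by linarith [c x4 y4]⟩
    linarith [hI.2 p q hne jp hp a.hi, tau_eq hR hP hp a]
  · have := key (rd TL j - 1) (rd TL j - 1) (rq R j) (rq R (j + 1)) fun ⟨y1, y2, y3, y4⟩ =>
      ⟨by linarith [c x1 y1], by linarith [c x2 y2], by linarith [c x3 y3], by linarith [c x4 y4]⟩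
    linarith [hI.2 q p hne.symm j hj b.hi, tau_eq hR hP hj b, ht.symm p q]

end Pool.Agent.MP_1037db_co.LP

/-! Every node that passes the check is valid. -/

namespace Pool.Agent.MP_1037db_co.LP

variable [G : Geo] {α : Type} [DecidableEq α] {E : Env α} {t : α → ℝ} {p q : α} {S : Finset α} {H DT : Tr}
  {XT R m K j jp k fL fI fO a b j1 j2 i s b0 b1 e0 e1 v0 v1 v2 v3 : ℕ}

theorem Bs.fl {xL xR xI xO : ℕ} (h : Bs e0 e1 j i 0 0 0 0 v0 v1 v2 v3)
    (h0 : b0 = e0 + (2 ^ 62 * xI + 2 ^ 64 * xO + 864691128455135232 * xL))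
    (h1 : b1 = e1 + (2 ^ 62 * xI + 2 ^ 64 * xO + 864691128455135232 * xR)) (hL : xL ≤ 1) (hR : xR ≤ 1)
    (hI : xI ≤ 1) (hO : xO ≤ 1) : Bs b0 b1 j i xL xR xI xO v0 v1 v2 v3 :=
  ⟨by rw [h0, h.e0]; ring, by rw [h1, h.e1]; ring, h.j, h.i, hL, hR, hI, hO, h.v0, h.v1, h.v2, h.v3⟩

theorem bs_of (x : ℕ) (hj : j ≤ 31) (hi : i ≤ 262144) :
    Bs (j * 1099511627776 + i * 10889035741470030830827987437816582766592 + 2854494954370962162314388224200759919719350272 + (x &&& 81128709954854851177730365259775)) (j * 1099511627776 + i * 10889035741470030830827987437816582766592 + 2854494794277197641663706380446749756896706560 + sw x) j i 0 0 0 0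
      (bt x 0 65535) (bt x 72 65535) (bt x 18 65535) (bt x 90 65535) :=
  ⟨by rw [mw]; ring, by rw [sw_eq]; ring, hj, hi, zero_le_one, zero_le_one, zero_le_one,
    zero_le_one, bt_le _ _ _, bt_le _ _ _, bt_le _ _ _, bt_le _ _ _⟩

omit [DecidableEq α] in
theorem pln_go (hS : E.NS H i) (hb : Bs b0 b1 jp i fL 0 fI fO v0 v1 v2 v3)
    (he : Bs e0 e1 jp i 0 0 0 0 v0 v1 v2 v3) (hK : K ≤ 3) (ha : a ≤ 255) (hb' : b ≤ 255)
    (h1 : j1 ≤ 31) (h2 : j2 ≤ 31) (hj : jp < 31) (ht : E.Ch t) (hp : E.At t 120 jp p) (hpS : p ∉ S)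
    (hin : ∀ s ∈ S, E.Bx t a b j1 j2 s ∧ E.Fl t p fL 0 fI fO s)
    (h : pln H b0 b1 e0 e1 K jp a b j1 j2 s = true) :
    WK E.D (K + 1) p S (bil v0 v1 v2 v3 (t p - (120 : ℤ)) (E.fr jp p)) := by
  simp only [pln, pl1, nrec, an_iff, lt_iff, Nat.sub_eq, Nat.add_eq] at h
  obtain ⟨hg, h⟩ := h
  have r1 := bt_le s 11 1048575
  have r2 := bt_le s 31 1048575
  have hc := bt_le s 2 255
  generalize bt s 10 1 = g, bt s 11 1048575 = x, bt s 31 1048575 = y, bt s 2 255 = c at *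
  have key : ∀ (Z : α → Prop) {b0 b1 e0 e1 A B d1 d2 A' B' f1 f2 l r u o l' r' u' o' : ℕ},
      Bs b0 b1 jp i l r u o v0 v1 v2 v3 → Bs e0 e1 jp i l' r' u' o' v0 v1 v2 v3 →
      pr H x b0 b1 (LP.rw g d1 d2) A B = true → pr H y e0 e1 (LP.rw (K - 1 - g) f1 f2) A' B' = true →
      d1 ≤ 31 ∧ d2 ≤ 31 ∧ A ≤ 598 ∧ B ≤ 598 ∧ f1 ≤ 31 ∧ f2 ≤ 31 ∧ A' ≤ 598 ∧ B' ≤ 598 →
      (∀ s, E.Bx t a b j1 j2 s → E.Fl t p fL 0 fI fO s →
        (Z s → E.Bx t A B d1 d2 s ∧ E.Fl t p l r u o s) ∧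
        (¬ Z s → E.Bx t A' B' f1 f2 s ∧ E.Fl t p l' r' u' o' s)) →
      WK E.D (K + 1) p S (bil v0 v1 v2 v3 (t p - (120 : ℤ)) (E.fr jp p)) := by
    intro Z b0 b1 e0 e1 A B d1 d2 A' B' f1 f2 l r u o l' r' u' o' hb he hP hQ
      ⟨n1, n2, n3, n4, n5, n6, n7, n8⟩ hZ
    exact (WK.cut Z (fun S' w => pr_wk hS hb ht hp r1 (by omega) n1 n2 n3 n4 hP
      (fun c => hpS (w p c).1) fun s hs => (hZ s (hin s (w s hs).1).1 (hin s (w s hs).1).2).1
        (w s hs).2) fun S' w => pr_wk hS he ht hp r2 (by omega) n5 n6 n7 n8 hQ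
      (fun c => hpS (w p c).1) fun s hs => (hZ s (hin s (w s hs).1).1 (hin s (w s hs).1).2).2
        (w s hs).2).mono (by omega) le_rfl
  have no : ∀ {P : Prop}, 0 = 1 → P := fun h => nomatch h
  split_ifs at h <;> simp only [an_iff, Nat.ble_eq] at h
  · exact key (fun s => t s ≤ c) hb hb h.1 h.2 (by omega) fun s u f =>
      ⟨fun z => ⟨⟨u.a, z, u.lo, u.hi⟩, f⟩, fun z => ⟨⟨(not_le.1 z).le, u.b, u.lo, u.hi⟩, f⟩⟩
  · exact key (fun s => E.ρ s ≤ E.r c) hb hb h.2.1 h.2.2 (by omega) fun s u f =>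
      ⟨fun z => ⟨⟨u.a, u.b, u.lo, z⟩, f⟩, fun z => ⟨⟨u.a, u.b, (not_le.1 z).le, u.hi⟩, f⟩⟩
  · exact key (fun s => t s ≤ t p) (he.fl (xL := 0) (xR := 1) (xI := 0) (xO := 0) rfl rfl (by omega)
      le_rfl (by omega) (by omega)) (he.fl (xL := 1) (xR := 0) (xI := 0) (xO := 0) rfl rfl le_rfl
      (by omega) (by omega) (by omega)) h.1 h.2 (by omega) fun s u f =>
      ⟨fun z => ⟨⟨u.a, z.trans (hp.b.trans (by norm_num)), u.lo, u.hi⟩, no, fun _ => z, no, no⟩,
        fun z => ⟨⟨(hp.a.trans (not_le.1 z).le).trans' (by norm_num), u.b, u.lo, u.hi⟩,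
          fun _ => (not_le.1 z).le, no, no, no⟩⟩
  · exact key (fun s => E.ρ s ≤ E.ρ p) (he.fl (xL := 0) (xR := 0) (xI := 0) (xO := 1) rfl rfl
      (by omega) (by omega) (by omega) le_rfl) (he.fl (xL := 0) (xR := 0) (xI := 1) (xO := 0) rfl rfl
      (by omega) (by omega) le_rfl (by omega)) h.1 h.2 (by omega) fun s u f =>
      ⟨fun z => ⟨⟨u.a, u.b, u.lo, z.trans hp.hi⟩, no, no, no, fun _ => z⟩,
        fun z => ⟨⟨u.a, u.b, hp.lo.trans (not_le.1 z).le, u.hi⟩, no, no, fun _ => (not_le.1 z).le,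
          no⟩⟩

theorem sub_le (a b : ℕ) : (a : ℝ) - b ≤ (a - b : ℕ) := by
  rcases le_total a b with h | h
  · simpa [Nat.sub_eq_zero_of_le h] using h
  · rw [Nat.cast_sub h]

theorem lin1 (f g lo hi y0 y1 : ℕ) {x η : ℝ} (h0 : 0 ≤ x) (h1 : x ≤ 1)
    (hη : η = y0 + x * (y1 - y0)) : ∃ ζ, ∀ σ : ℝ, lo ≤ σ → σ ≤ hi → (f = 1 → η ≤ σ) → (g = 1 → σ ≤ η) →
    |η - σ| ≤ (1 - x) * sel f g (hi - y0) (y0 - lo) (max (hi - y0) (y0 - lo)) +
      x * sel f g (hi - y1) (y1 - lo) (max (hi - y1) (y1 - lo)) ∧ ζ ≤ σ ∧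
    σ ≤ ζ + ((1 - x) * sel f g (hi - y0) (y0 - lo) (hi - lo) +
      x * sel f g (hi - y1) (y1 - lo) (hi - lo)) := by
  have h2 := sub_nonneg.2 h1
  have a0 := mul_le_mul_of_nonneg_left (sub_le hi y0) h2
  have a1 := mul_le_mul_of_nonneg_left (sub_le hi y1) h0
  have b0 := mul_le_mul_of_nonneg_left (sub_le y0 lo) h2
  have b1 := mul_le_mul_of_nonneg_left (sub_le y1 lo) h0
  simp only [sel, cnb]
  split_ifs with c1 c2
  · refine ⟨η, fun σ u1 u2 u3 _ => ?_⟩
    have := u3 c1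
    exact ⟨abs_le.2 ⟨by linarith, by linarith⟩, this, by linarith⟩
  · refine ⟨lo, fun σ u1 u2 _ u3 => ?_⟩
    have := u3 c2
    exact ⟨abs_le.2 ⟨by linarith, by linarith⟩, u1, by linarith⟩
  · refine ⟨lo, fun σ u1 u2 _ _ => ?_⟩
    have m := fun (a b : ℕ) => And.intro ((Nat.cast_le (α := ℝ)).2 (le_max_left a b))
      ((Nat.cast_le (α := ℝ)).2 (le_max_right a b))
    have c0 := mul_le_mul_of_nonneg_left (m (hi - y0) (y0 - lo)).1 h2
    have c1 := mul_le_mul_of_nonneg_left (m (hi - y1) (y1 - lo)).1 h0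
    have d0 := mul_le_mul_of_nonneg_left (m (hi - y0) (y0 - lo)).2 h2
    have d1 := mul_le_mul_of_nonneg_left (m (hi - y1) (y1 - lo)).2 h0
    exact ⟨abs_le.2 ⟨by linarith, by linarith⟩, u1, by linarith [sub_le hi lo]⟩

theorem bil_ge {A0 A1 B0 B1 v0 v1 v2 v3 x z : ℝ} (h0 : 0 ≤ x) (h1 : x ≤ 1) (h2 : 0 ≤ z) (h3 : z ≤ 1)
    (a : A0 + B0 ≤ v0) (b : A1 + B0 ≤ v1) (c : A0 + B1 ≤ v2) (d : A1 + B1 ≤ v3) :
    (1 - x) * A0 + x * A1 + ((1 - z) * B0 + z * B1) ≤ bil v0 v1 v2 v3 x z :=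
  le_of_eq_of_le (by unfold bil; ring) (bil_le h0 h1 h2 h3 a b c d)

theorem bs_spec {hc md lo hi c y v : ℕ} (h : bs hc md fL fI fO a b lo hi c y v = true) :
    (md = 0 → hc / 1000000 * hi * sel fL 0 (b - c) (c - a) (max (b - c) (c - a)) +
      (sel fI fO (hi - y) (y - lo) (max (hi - y) (y - lo)) +
        13 / 8 * sel fI fO (hi - y) (y - lo) (hi - lo)) ≤ (v : ℝ)) ∧
    (md = 1 → hc / 1000000 * hi * sel fL 0 (b - c) (c - a) (max (b - c) (c - a)) +
      13 / 8 * (hc / 1000000 * hi * sel fL 0 (b - c) (c - a) (b - a)) +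
      sel fI fO (hi - y) (y - lo) (max (hi - y) (y - lo)) ≤ (v : ℝ)) ∧
    (md = 2 → hc / 1000000 * hi * sel fL 0 (b - c) (c - a) (max (b - c) (c - a)) +
      13 / 8 * (hi - lo : ℕ) ≤ (v : ℝ)) ∧
    (2 < md → 13 / 8 * (hc / 1000000 * hi * (b - a : ℕ)) +
      sel fI fO (hi - y) (y - lo) (max (hi - y) (y - lo)) ≤ (v : ℝ)) := by
  have e : ∀ x y z, cn (Nat.beq fL 1) x z = sel fL 0 x y z := fun _ _ _ => rfl
  simp only [bs, fb_eq, mx_eq, Nat.ble_eq, Nat.add_eq, Nat.mul_eq, Nat.sub_eq, e _ (c - a)] at h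
  simp only [cn_eq, Nat.ble_eq, Nat.beq_eq] at h
  refine ⟨?_, ?_, ?_, fun e => ?_⟩
  iterate 3
    rintro rfl
    simp only [Nat.reduceLeDiff, Nat.reduceEqDiff, if_true, if_false, zero_le, le_refl] at h
    have := (Nat.cast_le (α := ℝ)).2 h
    push_cast at this
    linarith
  rw [if_neg (by omega), if_neg (by omega)] at h
  have := (Nat.cast_le (α := ℝ)).2 h
  push_cast at this
  linarith

theorem bas_go (hR : E.RR R m) (hP : PR R m) (hj : jp < m) (hm : j2 ≤ m) (ht : E.Ch t) (hp : E.At t 120 jp p)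
    (hin : ∀ s ∈ S, E.Bx t a b j1 j2 s ∧ E.Fl t p fL 0 fI fO s)
    (h : bas R K fL fI fO jp a b j1 j2 v0 v1 v2 v3 s = true) :
    WK E.D (K + 1) p S (bil v0 v1 v2 v3 (t p - (120 : ℤ)) (E.fr jp p)) := by
  have h0 := bil_nn hp v0 v1 v2 v3
  rcases S.eq_empty_or_nonempty with rfl | ⟨q, hq⟩
  · exact WK.empty h0
  have hj1 : j1 ≤ j2 := E.mono.le_iff_le.1 ((hin q hq).1.lo.trans (hin q hq).1.hi)
  simp only [bas, fb_eq, an_iff, cbb, hP.hc] at h
  obtain ⟨hc, s0, s1, s2, s3⟩ := h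
  generalize Nat.land s 3 = md at *
  have s0 := bs_spec s0
  have s1 := bs_spec s1
  have s2 := bs_spec s2
  have s3 := bs_spec s3
  have e1 := hR j1 (hj1.trans hm)
  have e2 := hR j2 hm
  obtain ⟨ζ, hζ⟩ := lin1 fL 0 a b 120 121 hp.x0 hp.x1 (η := t p) (by push_cast; ring)
  obtain ⟨ξ, hξ⟩ := lin1 fI fO (rd R j1) (rd R j2) (rd R jp) (rd R (jp + 1)) hp.f0 hp.f1
    (η := E.ρ p) (by rw [← hR jp hj.le, ← hR _ hj]; exact E.fr_eq jp p)
  have X := fun s hs => hζ (t s) (hin s hs).1.a (hin s hs).1.b (hin s hs).2.l nofun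
  have Y := fun s hs => hξ (E.ρ s) (e1 ▸ (hin s hs).1.lo) (e2 ▸ (hin s hs).1.hi) (hin s hs).2.i
    (hin s hs).2.o
  have hh : (0 : ℝ) ≤ Geo.hc / 1000000 * rd R j2 := by positivity
  have hD : ∀ i j, j ∈ S → E.D i j ≤
      |Geo.hc / 1000000 * rd R j2 * t i - Geo.hc / 1000000 * rd R j2 * t j| + |E.ρ i - E.ρ j| := fun i j hj => by
    rw [← mul_sub, abs_mul, abs_of_nonneg hh]
    exact (E.le i j).trans <| (ht i j).trans_le <| dd_le _ _ (E.nn i) (E.nn j) (.inr (e2 ▸ (hin j hj).1.hi))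
  have hD' := fun i j hj => (hD i j hj).trans_eq (add_comm _ _)
  have XA := fun s hs => (show |Geo.hc / 1000000 * rd R j2 * t p - Geo.hc / 1000000 * rd R j2 * t s| =
    Geo.hc / 1000000 * rd R j2 * |t p - t s| by rw [← mul_sub, abs_mul, abs_of_nonneg hh]).trans_le
      (mul_le_mul_of_nonneg_left (X s hs).1 hh)
  have L := fun s hs (e : fL = 1) => mul_le_mul_of_nonneg_left ((hin s hs).2.l e) hh
  have G := fun {A0 A1 B0 B1 : ℝ} => bil_ge (A0 := A0) (A1 := A1) (B0 := B0) (B1 := B1) (v0 := v0)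
    (v1 := v1) (v2 := v2) (v3 := v3) hp.x0 hp.x1 hp.f0 hp.f1
  split_ifs at hc with m0 m1 m2 <;> simp only [orr_iff, an_iff, lt_iff, Nat.ble_eq, Nat.beq_eq] at hc
  · have G := G (s0.1 m0) (s1.1 m0) (s2.1 m0) (s3.1 m0)
    rcases hc with hc | hc
    · exact (sw2 hD (fun s hs => ⟨XA s hs, Y s hs⟩) (by linarith) h0).mono (by omega) le_rfl
    · exact (sw1 hD (fun s hs => ⟨L s hs hc, le_add_of_sub_left_le ((le_abs_self _).trans
        ((abs_sub_comm _ _).trans_le (XA s hs))), Y s hs⟩) (by linarith) h0).mono (by omega) le_rfl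
  · have G := G (s0.2.1 m1) (s1.2.1 m1) (s2.2.1 m1) (s3.2.1 m1)
    have Z := fun s hs => And.intro (XA s hs) (And.intro (mul_le_mul_of_nonneg_left (X s hs).2.1 hh)
      ((mul_le_mul_of_nonneg_left (X s hs).2.2 hh).trans_eq (mul_add _ _ _)))
    rcases hc with hc | hc | hc
    · exact (sw2 hD' (fun s hs => ⟨(Y s hs).1, Z s hs⟩) (by linarith) h0).mono (by omega) le_rfl
    · exact (sw1 hD' (fun s hs => ⟨(hin s hs).2.i hc, le_add_of_sub_left_le ((le_abs_self _).trans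
        ((abs_sub_comm _ _).trans_le (Y s hs).1)), Z s hs⟩) (by linarith) h0).mono (by omega) le_rfl
    · exact (sw1' hD' (fun s hs => ⟨(hin s hs).2.o hc, le_add_of_sub_left_le ((le_abs_self _).trans
        (Y s hs).1), Z s hs⟩) (by linarith) h0).mono (by omega) le_rfl
  · obtain ⟨hK, hc⟩ := hc
    have G := G (s0.2.2.1 m2) (s1.2.2.1 m2) (s2.2.2.1 m2) (s3.2.2.1 m2)
    have := sub_le (rd R j2) (rd R j1)
    exact (sw3 (z := rd R j1) (w := (rd R j2 - rd R j1 : ℕ)) hD (fun s hs => ⟨L s hs hc.1,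
      le_add_of_sub_left_le ((le_abs_self _).trans ((abs_sub_comm _ _).trans_le (XA s hs))),
      e1 ▸ (hin s hs).1.lo, by linarith [(hin s hs).1.hi]⟩)
      (e1 ▸ (E.mono.monotone hc.2.1).trans hp.lo)
      (by linarith [hp.hi.trans (E.mono.monotone hc.2.2)]) (by linarith) h0).mono (by omega) le_rfl
  · obtain ⟨hK, hc⟩ := hc
    have m3 : 2 < md := by omega
    have G := G (s0.2.2.2 m3) (s1.2.2.2 m3) (s2.2.2.2 m3) (s3.2.2.2 m3)
    have Z : ∀ x : ℝ, a ≤ x → x ≤ b → Geo.hc / 1000000 * rd R j2 * a ≤ Geo.hc / 1000000 * rd R j2 * x ∧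
        Geo.hc / 1000000 * rd R j2 * x ≤ Geo.hc / 1000000 * rd R j2 * a + Geo.hc / 1000000 * rd R j2 * (b - a : ℕ) :=
      fun x u1 u2 => ⟨mul_le_mul_of_nonneg_left u1 hh, (mul_le_mul_of_nonneg_left
        (by linarith [sub_le b a]) hh).trans_eq (mul_add _ _ _)⟩
    have Zp := Z (t p) (le_trans (by exact_mod_cast hc.2.1) hp.a)
      (hp.b.trans (by exact_mod_cast hc.2.2))
    rcases hc.1 with c | c
    · exact (sw3 hD' (fun s hs => ⟨(hin s hs).2.i c, le_add_of_sub_left_le ((le_abs_self _).trans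
        ((abs_sub_comm _ _).trans_le (Y s hs).1)), Z _ (hin s hs).1.a (hin s hs).1.b⟩) Zp.1 Zp.2
        (by linarith) h0).mono (by omega) le_rfl
    · exact (sw3' hD' (fun s hs => ⟨(hin s hs).2.o c, le_add_of_sub_left_le ((le_abs_self _).trans
        (Y s hs).1), Z _ (hin s hs).1.a (hin s hs).1.b⟩) Zp.1 Zp.2 (by linarith) h0).mono
        (by omega) le_rfl

theorem mv_spec {l v x y : ℕ} (hl : l ≤ 7) (h : mv l v x y = true) :
    (l : ℝ) / 8 * x + (1 - l / 8) * y ≤ v := by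
  simp only [mv, Nat.ble_eq, Nat.add_eq, Nat.mul_eq, Nat.sub_eq] at h
  have := (Nat.cast_le (α := ℝ)).2 h
  push_cast [Nat.cast_sub (show l ≤ 8 by omega)] at this
  linarith

omit [DecidableEq α] in
theorem Env.Go.of {A B w0 w1 w2 w3 : ℝ} {xL xR xI xO : ℕ} (h : ∀ t, E.Ch t → ∀ (p : α) (S : Finset α),
    E.At t 120 j p → p ∉ S → (∀ s ∈ S, E.Bx t A B j1 j2 s ∧ E.Fl t p xL xR xI xO s) →
    WK E.D (K + 1) p S (bil w0 w1 w2 w3 (t p - (120 : ℤ)) (E.fr j p))) :
    E.Go K j j1 j2 xL xR xI xO (A - 120) (B - 120) w0 w1 w2 w3 := by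
  intro t ht c p S hp h1 h2
  have := h _ (ht.add (120 - c)) p S ⟨by push_cast; linarith [hp.a], by push_cast; linarith [hp.b],
    hp.lo, hp.hi⟩ h1 fun s hs => by
      obtain ⟨⟨a, b, d, e⟩, f, g, k, l⟩ := h2 s hs
      exact ⟨⟨by push_cast; linarith, by push_cast; linarith, d, e⟩,
        fun u => add_le_add_left (f u) _, fun u => add_le_add_left (g u) _, k, l⟩
  convert this using 2
  push_cast
  ring

theorem node_go (hS : E.NS H i) (hT : E.TB DT m) (hX : E.XB XT m) (hR : E.RR R m) (hP : PR R m) (hm : m ≤ 31)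
    (hi : i ≤ 262144) (h : node H DT XT R m i s = true) : E.Sem (hx H (i * 8)) := by
  change nd0 H DT XT R m i s (hx H (i * 8)) = true at h
  generalize hx H (i * 8) = x at h
  simp only [nd0, nd1, nd2, nrec, an_iff, lt_iff, Nat.ble_eq, Nat.add_eq, Nat.mul_eq, Nat.sub_eq,
    Nat.land_eq, Nat.shiftRight_eq'] at h
  obtain ⟨h1, h2, h⟩ := h
  refine Env.Go.of fun t ht p S hp hpS hin => ?_
  have bs := fun y => bs_of (i := i) y (bt_le x 40 31) hi
  have bf := fun y b0 b1 h0 h1 => (bs y).fl (b0 := b0) (b1 := b1) h0 h1 (bt_le x 60 1) zero_le_one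
    (bt_le x 62 1) (bt_le x 64 1)
  have hK := bt_le x 36 3
  have ha := bt_le x 108 255
  have hj := bt_le x 46 31
  split_ifs at h
  · exact pln_go hS (bf x _ _ (by ring) (by ring)) (bs x) hK ha (Nat.sub_le _ _) hj (Nat.sub_le _ _)
      (by omega) ht hp hpS hin h
  · exact ts1_go hS hT hX (bf x _ _ (by ring) (by ring)) hK ha (Nat.sub_le _ _) hj (Nat.sub_le _ _)
      h1 h2 (bt_le _ _ _) ht hp hpS hin h
  · exact bas_go hR hP h1 h2 ht hp hin h
  · simp only [mix, an_iff, Nat.add_eq, Nat.land_eq] at h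
    obtain ⟨a, b, c0, c1, c2, c3⟩ := h
    have a := pr_wk hS (bf _ _ _ (by ring) (by ring)) ht hp (bt_le _ _ _) (by omega) hj
      (Nat.sub_le _ _) (by omega) (by omega) a hpS hin
    have b := pr_wk hS (bf _ _ _ (by ring) (by ring)) ht hp (bt_le _ _ _) (by omega) hj
      (Nat.sub_le _ _) (by omega) (by omega) b hpS hin
    have hl : s >>> 2 &&& 7 ≤ 7 := Nat.and_le_right
    have c := bil_le hp.x0 hp.x1 hp.f0 hp.f1 (mv_spec hl c0) (mv_spec hl c1) (mv_spec hl c2)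
      (mv_spec hl c3)
    have l1 : ((s >>> 2 &&& 7 : ℕ) : ℝ) ≤ 7 := by exact_mod_cast hl
    have l0 : (0 : ℝ) ≤ (s >>> 2 &&& 7 : ℕ) := Nat.cast_nonneg _
    have e : ∀ l x0 x1 x2 x3 y0 y1 y2 y3 u z : ℝ, bil (l * x0 + (1 - l) * y0) (l * x1 + (1 - l) * y1)
        (l * x2 + (1 - l) * y2) (l * x3 + (1 - l) * y3) u z =
        l * bil x0 x1 x2 x3 u z + (1 - l) * bil y0 y1 y2 y3 u z := by
      intros
      unfold bil
      ring
    rw [e] at c
    by_contra n
    have a := not_le.1 fun u => n (a.mono le_rfl u)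
    have b := not_le.1 fun u => n (b.mono le_rfl u)
    have k : ∀ l X Y V : ℝ, 0 ≤ l → l ≤ 7 → V < X → V < Y → V < l / 8 * X + (1 - l / 8) * Y := by
      intro l X Y V l0 l1 a b
      linarith [mul_le_mul_of_nonneg_left a.le l0, mul_le_mul_of_nonneg_left b.le (sub_nonneg.2 l1)]
    exact (k _ _ _ _ l0 l1 a b).not_ge c

theorem rng_go {M : Tr} {o c n : ℕ} (hT : E.TB DT m) (hX : E.XB XT m) (hR : E.RR R m) (hP : PR R m) (hm : m ≤ 31)
    (hn : (c + n) * 32 ≤ 262144) (h : rng H DT M XT R m o c n = true) (hS : E.NS H (c * 32)) :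
    E.NS H ((c + n) * 32) := by
  have key : ∀ n i s, blk H DT XT R m n i s = true → ∀ x < n, ∃ s, node H DT XT R m (i + x) s = true := by
    intro n
    induction n with
    | zero => exact fun _ _ _ _ h => nomatch h
    | succ n ih =>
      intro i s h x hx
      obtain ⟨a, b⟩ := an_iff.1 h
      cases x with
      | zero => exact ⟨_, a⟩
      | succ x => exact Nat.add_right_comm i 1 x ▸ ih _ _ b x (by omega)
  intro i
  induction i using Nat.strong_induction_on with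
  | _ i ih =>
  intro hi
  rcases lt_or_ge i (c * 32) with u | u
  · exact hS i u
  · obtain ⟨s, e⟩ := key 32 ((c + (i / 32 - c)) * 32) _ (al_iff.1 h (i / 32 - c) (by omega)) (i % 32)
      (by omega)
    rw [show (c + (i / 32 - c)) * 32 + i % 32 = i by omega] at e
    exact node_go (fun k hk => ih k hk (hk.trans hi)) hT hX hR hP hm (by omega) e

end Pool.Agent.MP_1037db_co.LP

/-! One step of the chain of certificates. -/

namespace Pool.Agent.MP_1037db_co.LP

open Real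

variable [G : Geo] {α : Type} {E : Env α} {t : α → ℝ} {p q : α} {H DT PT : Tr}
  {XT R m i j0 jn TL TN NS : ℕ}

theorem Env.Ch.fit (h : E.Ch t) (X : α → Prop) (A : ℝ) : ∃ t', E.Ch t' ∧ (∀ s, X s → t' s = t s) ∧
    ∀ s, ¬ X s → A ≤ t' s ∧ t' s ≤ A + 120 := by
  classical
  refine ⟨fun s => if X s then t s else t s + 120 * (⌈(A - t s) / 120⌉ : ℤ), h.per fun s => ?_,
    fun s hs => if_pos hs, fun s hs => ?_⟩
  · by_cases e : X s
    · exact ⟨0, by simp [e]⟩
    · exact ⟨_, if_neg e⟩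
  · simp only [if_neg hs]
    exact ⟨by linarith [Int.le_ceil ((A - t s) / 120)],
      by linarith [Int.ceil_lt_add_one ((A - t s) / 120)]⟩

theorem Env.Ch.pair (h : E.Ch t) (p q : α) : ∃ t', E.Ch t' ∧ 120 ≤ t' p ∧ t' p ≤ 121 ∧
    t' p ≤ t' q ∧ t' q ≤ t' p + 60 := by
  have key : ∀ t, E.Ch t → t p ≤ t q → t q ≤ t p + 60 → ∃ t', E.Ch t' ∧ 120 ≤ t' p ∧ t' p ≤ 121 ∧
      t' p ≤ t' q ∧ t' q ≤ t' p + 60 := fun t ht h1 h2 =>
    ⟨_, ht.add (120 - ⌊t p⌋), by push_cast; linarith [Int.floor_le (t p)],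
      by push_cast; linarith [Int.lt_floor_add_one (t p)], by linarith, by linarith⟩
  obtain ⟨t', h1, h2, h3⟩ := h.fit (· = p) (t p - 60)
  have a := h2 p rfl
  by_cases e : q = p
  · exact key t h (e ▸ le_rfl) (by rw [e]; linarith)
  · obtain ⟨b, c⟩ := h3 q e
    rcases le_total (t' p) (t' q) with d | d
    · exact key t' h1 d (by linarith)
    · exact key _ h1.neg (by linarith) (by linarith)

theorem sgs_spec {f : ℕ → ℕ → ℕ → Bool} {jlo j' k' : ℕ} (h1 : jlo ≤ j') (h3 : 120 ≤ k')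
    (h4 : k' < 181) : ∀ j k s, sgs f jlo j k s = true → j' ≤ j → (j' = j → k ≤ k') →
    ∃ k s, k ≤ k' ∧ k' < k + tw s ∧ f j' k s = true := by
  delta sgs
  generalize nat_lit 9999 = n
  refine rec_ind (fun g : ℕ → ℕ → ℕ → Bool => ∀ j k s, g j k s = true → j' ≤ j → (j' = j → k ≤ k') →
    ∃ k s, k ≤ k' ∧ k' < k + tw s ∧ f j' k s = true) ?_ (fun _ g ih j k s h h5 h6 => ?_) _
  · exact fun _ _ _ h => Bool.noConfusion h
  simp only [cb_eq, Nat.ble_eq] at h
  split_ifs at h with c <;> simp only [an_iff, orr_iff, Nat.ble_eq, Nat.sub_eq, Nat.add_eq] at h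
  · exact ih _ _ _ (h.resolve_left (by omega)) (by omega) fun _ => h3
  · by_cases e : j' = j ∧ k' < k + tw s
    · exact ⟨k, s, h6 e.1, e.2, e.1 ▸ h.1⟩
    · exact ih _ _ _ h.2 h5 fun u => not_lt.1 fun v => e ⟨u, v⟩

theorem inf_go {a a' b T l k n : ℕ} {x z s u : ℝ} (hk : k ≤ n) (hn : n < 181) (s0 : 120 ≤ s)
    (s1 : s ≤ 121) (u0 : n ≤ u) (u1 : u ≤ n + 1) (x0 : a ≤ x) (x1 : x ≤ a') (z0 : b ≤ z)
    (z1 : x ≤ z) (hb : a' ≤ b ∨ b ≤ a) (h : inf G.A G.B (k - 121) l T G.c0 a a' b = true) :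
    T < min x G.c0 + dd x s z u := by
  simp only [inf, if1, an_iff, lt_iff, wf, mn_eq, mx_eq, Nat.add_eq, Nat.mul_eq] at h
  obtain ⟨hl, h1, h2⟩ := h
  have h1 := (Nat.cast_lt (α := ℝ)).2 h1
  have h2 := (Nat.cast_lt (α := ℝ)).2 h2
  have a0 := a.cast_nonneg (α := ℝ)
  have := far (k := k - 121) hl (a0.trans x0) ((a0.trans x0).trans z1) (s := s) (t := u)
    ((Nat.eq_zero_or_pos _).imp_right fun c => by
      have : (k : ℝ) ≤ n := by exact_mod_cast hk
      have : (n : ℝ) + 1 ≤ 181 := by exact_mod_cast hn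
      rw [Nat.cast_sub (by omega)]
      push_cast
      exact ⟨by linarith, by linarith⟩) (by omega)
  refine lt_of_lt_of_le ?_ (add_le_add_right this _)
  unfold fm
  push_cast at h1 h2
  have p := (fa G.A (k - 121 + 1) l).cast_nonneg (α := ℝ)
  generalize (fa G.A (k - 121 + 1) l : ℝ) = A, (fc G.B (k - 121 + 1) l : ℝ) = B, (G.c0 : ℝ) = c at *
  rcases (x0.trans x1).eq_or_lt with e | e
  · obtain rfl : x = a := le_antisymm (e ▸ x1) x0
    nlinarith [mul_le_mul_of_nonneg_left z0 p]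
  obtain ⟨f, f0, f1, rfl⟩ : ∃ f : ℝ, 0 ≤ f ∧ f ≤ 1 ∧ x = (1 - f) * a + f * a' :=
    ⟨(x - a) / (a' - a), div_nonneg (by linarith) (by linarith),
      (div_le_one (by linarith)).2 (by linarith), by
        have : (a' : ℝ) - a ≠ 0 := by linarith
        field_simp
        ring⟩
  have g := sub_nonneg.2 f1
  have m : (1 - f) * min (a : ℝ) c + f * min (a' : ℝ) c ≤ min ((1 - f) * a + f * a') c :=
    le_min (by gcongr <;> exact min_le_left _ _) (by
      nlinarith [mul_le_mul_of_nonneg_left (min_le_right (a : ℝ) c) g,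
        mul_le_mul_of_nonneg_left (min_le_right (a' : ℝ) c) f0])
  have y : (1 - f) * b + f * max (b : ℝ) a' ≤ z := by
    rcases hb with hb | hb <;> have hb := (Nat.cast_le (α := ℝ)).2 hb
    · rw [max_eq_left hb]
      linarith
    · rw [max_eq_right (hb.trans e.le)]
      nlinarith [mul_le_mul_of_nonneg_left hb g]
  have y := mul_le_mul_of_nonneg_left y p
  rcases f0.eq_or_lt with rfl | f2
  · simp only [sub_zero, one_mul, zero_mul, add_zero] at m y ⊢
    linarith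
  · nlinarith [mul_le_mul_of_nonneg_left h1.le g, mul_lt_mul_of_pos_left h2 f2]

theorem bs_top {j x y : ℕ} (hj : j ≤ 31) (hi : i ≤ 262144) (hx : x ≤ 65535) (hy : y ≤ 65535) :
    Bs (j * 1099511627776 + i * 10889035741470030830827987437816582766592 + w2 x y + 2854494954370962162314388224200759919719350272) (j * 1099511627776 + i * 10889035741470030830827987437816582766592 + w2 x y + 2854494794277197641663706380446749756896706560) j i 0 0 0 0
      x x y y := by
  refine ⟨?_, ?_, hj, hi, zero_le_one, zero_le_one, zero_le_one, zero_le_one, hx, hx, hy, hy⟩ <;>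
    simp only [w2, wv, Nat.add_eq, Nat.mul_eq] <;> ring

theorem tl_le (R j : ℕ) : tl R j ≤ 65535 := (Nat.sub_le _ _).trans (bt_le _ _ _)

theorem bil_top {j : ℕ} {x : ℝ} {c : ℤ} (hR : E.RR R m) (hM : PR R m) (hj : j < m)
    (hp : E.At t c j p) :
    bil (tl R j) (tl R j) (tl R (j + 1)) (tl R (j + 1)) x (E.fr j p) = G.lim - E.τ p := by
  have k : ∀ j, (tl R j : ℝ) = G.lim - rq R j := fun j => by
    rw [tl, Nat.sub_eq, hM.lim, Nat.cast_sub]
    rw [rq, mn_eq, hM.c0]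
    exact (min_le_right _ _).trans hM.le
  rw [k, k, tau_eq hR hM hj hp, bil]
  ring

variable [Fintype α] [DecidableEq α]

def Env.Done (E : Env α) : Prop := ∃ a, WK E.D 2 a (Finset.univ.erase a) (G.lim - E.τ a)

theorem tc_go {ja j k n s T : ℕ} (hS : E.NS H i) (hT : E.TB DT m) (hX : E.XB XT m) (hR : E.RR R m)
    (hm : m ≤ 31) (hM : PR R m) (hi : i ≤ 262144) (hn : jn < m) (hT' : T ≤ G.lim)
    (hI : ∀ s, E.r jn ≤ E.ρ s ∧ E.ρ s ≤ E.r m) (ha : ja < m) (hj : j < m) (ht : E.Ch t)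
    (hp : E.At t 120 ja p) (hq : E.At t n j q) (hne : p ≠ q) (k1 : k ≤ n) (k2 : n < k + tw s)
    (k3 : n < 181) (hD : E.τ p + E.M p q < T) (hpq : E.ρ p ≤ E.ρ q)
    (h : tc G.A G.B H DT XT R m i jn ja T j k s = true) :
    E.Done := by
  simp only [tc, cbb, fb_eq, cnb, Nat.add_eq, Nat.mul_eq, Nat.sub_eq, hM.c0, hM.lim] at h
  simp only [tw, cn_eq, Nat.ble_eq] at k2
  by_cases c0 : s.land 3 = 0
  · rw [if_pos c0, Nat.ble_eq] at h
    rw [if_pos (by omega)] at k2
    exact (hX ja ha j hj k s (by omega) h t ht p q n hne hp hq k1 k2).elim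
  rw [if_neg c0] at h
  by_cases c1 : s.land 3 = 1
  · rw [if_pos c1] at h
    have := inf_go k1 k3 hp.a (hp.b.trans (by norm_num)) hq.a hq.b (hR ja ha.le ▸ hp.lo)
      (hR _ ha ▸ hp.hi) (hR j hj.le ▸ hq.lo) hpq ((lt_or_ge ja j).imp (fun c => by
        have := E.mono.monotone (Nat.succ_le_of_lt c)
        rwa [hR _ ha, hR j hj.le, Nat.cast_le] at this) fun c => by
        have := E.mono.monotone c
        rwa [hR _ ha.le, hR j hj.le, Nat.cast_le] at this) h
    exact absurd (ht p q ▸ hD) this.not_gt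
  rw [if_neg c1] at h
  rw [if_neg (by omega)] at k2
  obtain rfl : k = n := by omega
  obtain ⟨u, hu, u1, u2⟩ := ht.fit (fun s => s = p ∨ s = q) (bt s 8 255)
  have e1 := u1 p (.inl rfl)
  have e2 := u1 q (.inr rfl)
  have hb := bs_top (i := i) (show ja ≤ 31 by omega) hi
    (tl_le R ja) (tl_le R (ja + 1))
  have hA := bt_le s 8 255
  have no : ∀ {P : Prop}, 0 = 1 → P := fun h => nomatch h
  have xs : ∀ x y, x ≤ 65535 → y ≤ 65535 → Xs (2854494705179492919185874028944833089804173312 + 1419612298781011615649678952475016771720260989886843619185417813866810540483857042694289260734059777086614141044292360906313165701120 + (j * 1099511627776 + i * 10889035741470030830827987437816582766592) + vb x y * 157608626012479106950455875032358246031540774929946281039261345981831450007529408327988914143091127476831270291374080)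
      (2854494705179492919185874028944833089804173312 + 1419612298781011615649678952475016771720260989886843619185417813866810540483857042694289260734059777086614141044292360906313165701120 + (j * 1099511627776 + i * 10889035741470030830827987437816582766592) + vb x y * 157608626012479106950455875032358246031540774929946281039261345981831450007529408327988914143091127476831270291374080) j i 0 0 0 0 x x y y := fun x y hx hy =>
    ⟨by ring, by ring, by omega, zero_le_one, zero_le_one, zero_le_one, zero_le_one, by omega,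
      by omega, by omega, by omega⟩
  have go := fun {X row x y d} hX hd hrow => sgY_go (X0 := X) (X1 := X) (v0 := x) (v1 := x) (v2 := y)
    (v3 := y) (K := 1) (row := row) (d := d) (s := s >>> 17) (V := G.lim - E.τ p)
    (S := Finset.univ.erase p) hS hb hX (by norm_num) (show jn ≤ 31 by omega) hm
    (show bt s 8 255 ≤ 598 by omega) (show bt s 8 255 + 120 ≤ 598 by omega) (by omega) hu
    ⟨e1 ▸ hp.a, e1 ▸ hp.b, hp.lo, hp.hi⟩ ⟨e2 ▸ hq.a, e2 ▸ hq.b, hq.lo, hq.hi⟩ hd hrow gE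
    (Finset.notMem_erase _ _) (by simp [hne.symm]) (fun s hs e => by
      have := u2 s (not_or.2 ⟨(Finset.mem_erase.1 hs).1, e⟩)
      exact ⟨⟨this.1, by push_cast; exact this.2, (hI s).1, (hI s).2⟩, ⟨no, no, no, no⟩,
        no, no, no, no⟩) (bil_top hR hM ha ⟨e1 ▸ hp.a, e1 ▸ hp.b, hp.lo, hp.hi⟩).le
  split_ifs at h
  · exact ⟨p, go (xs _ _ (tl_le _ _) (tl_le _ _)) zero_le_one (hT ja ha j hj)
      (by rw [bil_top hR hM ha hp, one_mul]) h⟩
  · have b : G.lim - T ≤ 65535 := (Nat.sub_le _ _).trans (hM.lim ▸ bt_le _ _ _)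
    refine ⟨p, go (xs _ _ b b) le_rfl
      (fun Y _ a b _ => by simp [Q4]) ?_ h⟩
    rw [Nat.cast_sub hT']
    unfold bil
    linarith [E.le p q]

theorem top_go (hS : E.NS H i) (hT : E.TB DT m) (hX : E.XB XT m) (hR : E.RR R m) (hm : m ≤ 31)
    (hM : PR R m) (ht : E.Ch t) (hI : E.Inv m j0 TL)
    (h : top G.A G.B H DT PT XT R m i j0 jn TL TN NS = true) : E.Done ∨ E.Inv m jn TN := by
  simp only [top, an_iff, lt_iff, al_iff, Nat.ble_eq, cb_eq] at h
  obtain ⟨hi, hn, h⟩ := h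
  rw [or_iff_not_imp_left]
  intro nd
  have h1 := fun j (hj : j < jn) => (if_pos hj).symm.trans (h j (hj.trans hn))
  have h2 := fun j (hj : jn ≤ j) (hm : j < m) => (if_neg hj.not_gt).symm.trans (h j hm)
  simp only [an_iff, orr_iff, lt_iff, mx_eq, Nat.ble_eq, Nat.beq_eq, Nat.add_eq, Nat.mul_eq,
    Nat.sub_eq] at h1 h2
  have hlo : ∀ s, E.r jn ≤ E.ρ s ∧ E.ρ s ≤ E.r m := fun s => ⟨not_lt.1 fun c => nd <| by
    obtain ⟨a, -, ha⟩ := Finset.univ.exists_min_image E.ρ ⟨s, Finset.mem_univ s⟩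
    have c' := (ha s (Finset.mem_univ s)).trans_lt c
    obtain ⟨j, j1, j2, j3, j4⟩ := exists_cell E.r (E.mono.lt_iff_lt.1 ((hI.1 a).1.trans_lt c'))
      (hI.1 a).1 c'.le
    have g := (h1 j j2).2.resolve_left j1.not_gt
    obtain ⟨u, hu, u1, u2, -⟩ := ht.pair a a
    obtain ⟨w, hw, w1, w2⟩ := hu.fit (· = a) (NS >>> (j * 28) &&& 255 : ℕ)
    have e := w1 a rfl
    have hA : NS >>> (j * 28) &&& 255 ≤ 255 := Nat.and_le_right
    have no : ∀ {P : Prop}, 0 = 1 → P := fun h => nomatch h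
    have ha' : E.At w 120 j a := ⟨e ▸ u1, e ▸ u2.trans (by norm_num), j3, j4⟩
    refine ⟨a, bil_top hR hM (j2.trans hn) ha' ▸ pr_wk (K := 1) hS ((bs_top (i := i) (by omega) hi
      (tl_le R j) (tl_le R (j + 1))).fl (xL := 0) (xR := 0) (xI := 1) (xO := 0) ?_ ?_ (by omega) (by omega) le_rfl
      (by omega)) hw ha' (bt_le _ _ _) (by norm_num)
      (by omega) hm (hA.trans (by norm_num)) ((Nat.add_le_add_right hA 120).trans (by norm_num)) g (Finset.notMem_erase _ _) fun s hs => ?_⟩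
    · simp only [Nat.add_eq]
      ring
    · simp only [Nat.add_eq]
      ring
    · have := w2 s (Finset.mem_erase.1 hs).1
      have b := ha s (Finset.mem_univ s)
      exact ⟨⟨this.1, by push_cast [Nat.add_eq]; exact this.2, j3.trans b, (hI.1 s).2⟩, no, no,
        fun _ => b, no⟩, (hI.1 s).2⟩
  have anti : ∀ a b, jn ≤ a → a ≤ b → b < m → rd TN b ≤ rd TN a := by
    intro a b ha hab
    induction hab with
    | refl => exact fun _ => le_rfl
    | step u ih => exact fun v => (h2 _ (ha.trans u) (by omega)).1.trans (ih (by omega))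
  have key : ∀ p q, p ≠ q → E.ρ p ≤ E.ρ q → ∀ j < m, E.ρ p ≤ E.r (j + 1) →
      (rd TN j : ℝ) ≤ E.τ p + E.M p q := by
    intro p q hne hpq j hj hp
    refine not_lt.1 fun c => nd ?_
    have d0 := (E.met.nn p q).trans (E.le p q)
    have hjn : jn ≤ j := not_lt.1 fun e => by
      rw [(h1 j e).1, Nat.cast_zero] at c
      linarith [le_min (E.nn p) G.c0.cast_nonneg, show E.τ p = min _ _ from rfl]
    obtain ⟨a, a1, a2, a3, a4⟩ := exists_cell E.r (Nat.lt_succ_of_le hjn) (hlo p).1 hp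
    have am : a < m := by omega
    have c' := c.trans_le ((Nat.cast_le (α := ℝ)).2 (anti a j a1 (by omega) hj))
    obtain ⟨-, b2, b3⟩ := h2 a a1 am
    rcases b3 with b3 | b3
    · have := (Nat.cast_le (α := ℝ)).2 b3
      have e : min (E.r a) G.c0 ≤ E.τ p := min_le_min_right _ a3
      rw [Nat.cast_max, rq, mn_eq, hM.c0, Nat.cast_min, ← hR a am.le] at this
      exact absurd (c'.trans_le this) (not_lt.2 (max_le (by linarith) (hI.2 p q hne a am a4)))
    obtain ⟨u, hu, u1, u2, u3, u4⟩ := ht.pair p q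
    obtain ⟨k, x, k1, k2, x1, x2, hq⟩ := Env.Bx.cell (E := E) (t := u) (q := q) (clo := 120)
      (chi := 181) ⟨u1.trans u3, by push_cast; linarith, a3.trans hpq, (hlo q).2⟩ (by norm_num) am
    obtain ⟨k0, s, y1, y2, y3⟩ := sgs_spec x1 k1 k2 _ _ _ b3 (by omega) fun _ => k1
    exact tc_go hS hT hX hR hm hM hi hn (hM.lim ▸ b2) hlo am x2 hu ⟨u1, u2.trans (by norm_num), a3, a4⟩ hq hne
      y1 y2 k2 c' hpq y3
  refine ⟨hlo, fun p q hne j hj hp => ?_⟩
  rcases le_total (E.ρ p) (E.ρ q) with c | c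
  · exact key p q hne c j hj hp
  · linarith [key q p hne.symm c j hj (c.trans hp), ht.symm p q,
      show E.τ q ≤ E.τ p from min_le_min_right _ c]

end Pool.Agent.MP_1037db_co.LP

/-! Composition of the certificates. -/

namespace Pool.Agent.MP_1037db_co.LP

variable [G : Geo] {α : Type} {E : Env α} {H DT PT M : Tr} {XT R m i j jn TL TN NS o c n ro : ℕ}

/-- the same points with another grid -/
noncomputable def Env.re (E : Env α) (h : tab G.A G.B DT R m = true) : Env α :=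
  { E with
    r := fun j => rd R (min j m) + (j - m : ℕ)
    mono := strictMono_nat_of_lt_succ fun j => by
      rcases lt_or_ge j m with c | c
      · have := lt_iff.1 (an_iff.1 (an_iff.1 (al_iff.1 h j c)).1).1
        rw [min_eq_left c.le, min_eq_left c, Nat.sub_eq_zero_of_le c.le, Nat.sub_eq_zero_of_le c]
        exact_mod_cast this
      · rw [min_eq_right c, min_eq_right (c.trans j.le_succ)]
        exact_mod_cast (by omega : rd R m + (j - m) < rd R m + (j + 1 - m)) }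

structure Env.Gr (E : Env α) (DT : Tr) (R m ro : ℕ) : Prop where
  rr : E.RR R m
  tb : E.TB DT m
  hm : m ≤ 31
  hM : rd R m = ro
  pr : PR R m
  ch : ∃ t, E.Ch t

theorem Env.gr (h : tab G.A G.B DT R m = true) (hm : m ≤ 31) (hM : rd R m = ro ∧ hcv R = G.hc ∧
    rd R 33 = G.c0 ∧ rd R 34 = G.lim ∧ G.c0 ≤ G.lim) (ht : ∃ t, E.Ch t) :
    (E.re h).Gr DT R m ro :=
  have rr : (E.re h).RR R m := fun j hj => by simp [Env.re, hj]
  ⟨rr, tab_go rr h, hm, hM.1, ⟨hM.2.1, hM.2.2.1, hM.2.2.2.1, hM.2.2.2.2, fun j hj => by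
    simpa only [orr_iff, Nat.ble_eq, hM.2.2.1] using
      (an_iff.1 (an_iff.1 (al_iff.1 h j hj)).1).2⟩, ht⟩

theorem Env.t0 (E : Env α) (p q : α) : 0 ≤ E.τ p + E.M p q :=
  add_nonneg (le_min (E.nn p) G.c0.cast_nonneg) ((E.met.nn p q).trans (E.le p q))

variable [Fintype α] [DecidableEq α]

def Env.St (E : Env α) (H : Tr) (i m j TL : ℕ) : Prop := E.Done ∨ E.NS H i ∧ E.Inv m j TL

theorem Env.Gr.init (g : E.Gr DT R m ro) (H : Tr) (h0 : rd R 0 = 0) (h : ∀ p, E.ρ p ≤ ro) :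
    E.St H 0 m 0 0 :=
  .inr ⟨nofun, fun p => ⟨by rw [g.rr 0 m.zero_le, h0]; simpa using E.nn p,
    by rw [g.rr m le_rfl, g.hM]; simpa using h p⟩, fun p q _ j _ _ => by
      simpa [rd, bt] using E.t0 p q⟩

theorem Env.St.rng (s : E.St H (c * 32) m j TL) (g : E.Gr DT R m ro) (x : xtab DT XT R TL m = true)
    (h : rng H DT M XT R m o c n = true) (hn : (c + n) * 32 ≤ 262144) :
    E.St H ((c + n) * 32) m j TL :=
  s.imp_right fun s => ⟨rng_go g.tb (xtab_go g.rr g.pr g.tb s.2 x) g.rr g.pr g.hm hn h s.1, s.2⟩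

theorem Env.St.top (s : E.St H i m j TL) (g : E.Gr DT R m ro) (x : xtab DT XT R TL m = true)
    (h : top G.A G.B H DT PT XT R m i j jn TL TN NS = true) : E.St H i m jn TN :=
  s.elim .inl fun s => g.ch.elim fun _ ht => (top_go s.1 g.tb (xtab_go g.rr g.pr g.tb s.2 x) g.rr g.hm
    g.pr ht s.2 h).imp_right fun u => ⟨s.1, u⟩

theorem Env.St.glue {DT' : Tr} {R' m' : ℕ} (s : E.St H i m jn TN) (g : E.Gr DT R m ro)
    (h' : tab G.A G.B DT' R' m' = true) (g' : (E.re h').Gr DT' R' m' ro) (H' : Tr) (hn : jn ≤ m)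
    (h : glue R m jn TN R' m' TL = true) : (E.re h').St H' 0 m' 0 TL := by
  refine s.imp_right fun s => ⟨nofun, fun p => ?_, fun p q hne j hj hp => ?_⟩
  all_goals simp only [LP.glue, an_iff, al_iff, orr_iff, Nat.ble_eq, Nat.beq_eq] at h
  · obtain ⟨a, b⟩ := s.2.1 p
    rw [g.rr _ hn] at a
    rw [g.rr _ le_rfl, g.hM] at b
    rw [g'.rr _ m'.zero_le, g'.rr _ le_rfl, g'.hM]
    exact ⟨le_trans (by exact_mod_cast h.1) a, b⟩
  · rcases h.2 j hj with e | e
    · rw [e, Nat.cast_zero]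
      exact E.t0 p q
    · rw [Bool.not_eq_true', ← Bool.not_eq_true, al_iff] at e
      simp only [Bool.not_eq_true', ← Bool.not_eq_true, not_forall, not_not, an_iff, Nat.ble_eq] at e
      obtain ⟨x, hx, a, b⟩ := e
      rw [g'.rr _ hj] at hp
      refine le_trans (by exact_mod_cast b) (s.2.2 p q hne x hx (hp.trans ?_))
      rw [g.rr _ hx]
      exact_mod_cast a

theorem Env.St.fin (s : E.St H i (m + 1) jn TN) (g : E.Gr DT R (m + 1) ro)
    (h : ro * 1000000 + 15 * G.hc * G.c0 < rd TN m * 1000000 ∧ 15 * G.hc ≤ 1000000)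
    (hc : 8 ≤ Fintype.card α) : E.Done := by
  refine s.resolve_right fun s => ?_
  obtain ⟨t, ht⟩ := g.ch
  obtain ⟨u, hu, -, h2⟩ := ht.fit (fun _ => False) 0
  obtain ⟨p, -, q, -, hne, hg⟩ := exists_close (S := Finset.univ) (θ := u) (L := 60) (by norm_num)
    (fun i => by linarith [(h2 i id).2]) (fun i => (h2 i id).1) hc
  have hρ := fun p => (s.2.1 p).2
  have k := fun p q hne => s.2.2 p q hne m m.lt_succ_self (hρ p)
  rw [g.rr _ le_rfl, g.hM] at hρ
  have a := (Nat.cast_lt (α := ℝ)).2 h.1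
  have b := (Nat.cast_le (α := ℝ)).2 h.2
  push_cast at a b
  have c0 : (0 : ℝ) ≤ G.hc / 1000000 * min (E.ρ p) (E.ρ q) :=
    mul_nonneg (by positivity) (le_min (E.nn p) (E.nn q))
  have d : E.M p q ≤ G.hc / 1000000 * min (E.ρ p) (E.ρ q) * 15 + |E.ρ p - E.ρ q| := by
    have := fun s => dd_le (c := min (E.ρ p) (E.ρ q)) (u p) s (E.nn p) (E.nn q)
      ((le_total _ _).imp (fun c => le_min le_rfl c) fun c => le_min c le_rfl)
    rw [hu]
    unfold gap at hg
    split_ifs at hg with c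
    · have := this (u q)
      rw [abs_sub_comm, abs_of_nonneg (sub_nonneg.2 c)] at this
      linarith [mul_le_mul_of_nonneg_left (show u q - u p ≤ 15 by linarith) c0]
    · have := this (u q + 120 * (1 : ℤ))
      have e := dd_per (E.ρ p) (u p) (E.ρ q) (u q) 0 1
      rw [Int.cast_zero, mul_zero, add_zero] at e
      rw [abs_sub_comm, abs_of_nonneg (by push_cast; linarith [(h2 p id).2, (h2 q id).1]), e] at this
      push_cast at this
      linarith [mul_le_mul_of_nonneg_left (show u q + 120 * 1 - u p ≤ 15 by linarith) c0]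
  have f : ∀ x : ℝ, min x G.c0 - x + G.hc / 1000000 * x * 15 ≤ G.hc / 1000000 * G.c0 * 15 := fun x => by
    have := G.hc.cast_nonneg (α := ℝ)
    rcases le_total x G.c0 with c | c
    · rw [min_eq_left c]
      nlinarith
    · rw [min_eq_right c]
      nlinarith
  rcases le_total (E.ρ p) (E.ρ q) with c | c
  · rw [min_eq_left c, abs_of_nonpos (sub_nonpos.2 c)] at d
    linarith [k p q hne, hρ q, f (E.ρ p), show E.τ p = min _ _ from rfl]
  · rw [min_eq_right c, abs_of_nonneg (sub_nonneg.2 c)] at d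
    linarith [k q p hne.symm, ht.symm p q, hu.symm p q, hρ p, f (E.ρ q), show E.τ q = min _ _ from rfl]

end Pool.Agent.MP_1037db_co.LP

/-! Polar coordinates with respect to a polygon with 120 sides. -/

namespace Pool.Agent.MP_1037db_co.LP

noncomputable section

variable [G : Geo] {PX PY GX GY : ℕ} {N : Seminorm ℝ (ℝ × ℝ)}

/-- the vertices -/
def V (PX PY : ℕ) (j : ℤ) : ℝ × ℝ :=
  ((vx PX (j % 120).toNat - 131072) / 65544, (vx PY (j % 120).toNat - 131072) / 65544)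

def U (PX PY : ℕ) (t : ℝ) : ℝ × ℝ :=
  V PX PY ⌊t⌋ + (t - ⌊t⌋) • (V PX PY (⌊t⌋ + 1) - V PX PY ⌊t⌋)

def rot (x : ℝ × ℝ) : ℝ × ℝ := (-x.2, x.1)

structure Sy (N : Seminorm ℝ (ℝ × ℝ)) (PX PY GX GY ro : ℕ) : Prop where
  r : ∀ x, N (rot x) = N x
  a : ∀ x y, N (x, y) = N (|x|, |y|)
  w : ∀ f < 31, N ((vx PX f - 131072 : ℕ), (vx PY f - 131072 : ℕ)) ≤ 65536
  g : ∀ f < 30, ∀ x y, 0 ≤ x → 0 ≤ y →
    10000 * 65544 * (gl GX f * x + gl GY f * y) ≤ ro * 4294967296 * N (x, y)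

omit G in
theorem ad_eq (t u w : ℕ) : (ad t u w : ℝ) = |1024 * (u - 131072) - t * (w - 131072 : ℝ)| := by
  have : ∀ x y : ℕ, (df x y : ℝ) = |(x : ℝ) - y| := fun x y => by
    simp only [df, Nat.add_eq, Nat.sub_eq]
    rcases le_total x y with h | h
    · rw [Nat.sub_eq_zero_of_le h, Nat.zero_add, Nat.cast_sub h, abs_sub_comm,
        abs_of_nonneg (sub_nonneg.2 (by exact_mod_cast h))]
    · rw [Nat.sub_eq_zero_of_le h, Nat.add_zero, Nat.cast_sub h,
        abs_of_nonneg (sub_nonneg.2 (by exact_mod_cast h))]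
  rw [ad, this]
  simp only [Nat.add_eq, Nat.mul_eq]
  push_cast
  congr 1
  ring

omit G in
theorem cone_aux {x0 y0 x1 y1 gx gy : ℕ} {x y : ℝ} (d : x1 * y0 < x0 * y1)
    (g1 : 4294967296 ≤ gx * x0 + gy * y0) (g2 : 4294967296 ≤ gx * x1 + gy * y1)
    (a : y0 * x - x0 * y ≤ 0) (b : 0 ≤ y1 * x - x1 * y) : ∃ l m : ℝ, 0 ≤ l ∧ 0 ≤ m ∧
      4294967296 * (l + m) ≤ gx * x + gy * y ∧
      (x, y) = l • ((x0, y0) : ℝ × ℝ) + m • ((x1, y1) : ℝ × ℝ) := by
  have d := sub_pos.2 ((Nat.cast_lt (α := ℝ)).2 d)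
  have g1 := (Nat.cast_le (α := ℝ)).2 g1
  have g2 := (Nat.cast_le (α := ℝ)).2 g2
  simp only [Nat.cast_add, Nat.cast_mul, Nat.cast_ofNat] at d g1 g2
  generalize (x0 : ℝ) = x0, (y0 : ℝ) = y0, (x1 : ℝ) = x1, (y1 : ℝ) = y1 at *
  have l0 := div_nonneg b d.le
  have m0 := div_nonneg (neg_nonneg.2 a) d.le
  have e1 : x = (y1 * x - x1 * y) / (x0 * y1 - x1 * y0) * x0 +
    -(y0 * x - x0 * y) / (x0 * y1 - x1 * y0) * x1 := by
    rw [div_mul_eq_mul_div, div_mul_eq_mul_div, ← add_div, eq_div_iff d.ne']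
    ring
  have e2 : y = (y1 * x - x1 * y) / (x0 * y1 - x1 * y0) * y0 +
    -(y0 * x - x0 * y) / (x0 * y1 - x1 * y0) * y1 := by
    rw [div_mul_eq_mul_div, div_mul_eq_mul_div, ← add_div, eq_div_iff d.ne']
    ring
  refine ⟨_, _, l0, m0, ?_, Prod.ext e1 e2⟩
  generalize (y1 * x - x1 * y) / (x0 * y1 - x1 * y0) = l,
    -(y0 * x - x0 * y) / (x0 * y1 - x1 * y0) = m at *
  rw [e1, e2]
  linarith [mul_le_mul_of_nonneg_left g1 l0, mul_le_mul_of_nonneg_left g2 m0]

theorem emb {ro : ℕ} (hN : Sy N PX PY GX GY ro) (h : poly G.A G.B G.T PX PY GX GY = true) :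
    (∀ z, N z ≤ 10000 → ∃ a t : ℝ, 0 ≤ a ∧ a ≤ ro ∧ z = a • U PX PY t) ∧
    ∀ a s b t, 0 ≤ a → 0 ≤ b → N (a • U PX PY s - b • U PX PY t) ≤ dd a s b t := by
  simp only [poly, fb_eq, an_iff, al_iff, lt_iff, Nat.ble_eq, Nat.beq_eq, Nat.add_eq, Nat.mul_eq,
    Nat.sub_eq, Nat.land_eq] at h
  obtain ⟨⟨m1, m2⟩, h1, ⟨h2, h3⟩, h4, h5⟩ := h
  have vr : ∀ j, V PX PY (j + 30) = rot (V PX PY j) := fun j => by
    obtain ⟨a, b⟩ := h1 (j % 120).toNat (by omega)
    have e : ((j + 30) % 120).toNat = Nat.mod ((j % 120).toNat + 30) 120 := by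
      change _ = ((j % 120).toNat + 30) % 120
      omega
    have a := congrArg (Nat.cast (R := ℝ)) a
    push_cast at a
    simp only [V, rot, e, b]
    congr 1
    linarith
  have vq : ∀ f : ℕ, f < 31 → (((vx PX f - 131072 : ℕ), (vx PY f - 131072 : ℕ)) : ℝ × ℝ) =
      (65544 : ℝ) • V PX PY f := fun f hf => by
    rw [Nat.cast_sub (h3 f hf).1, Nat.cast_sub (h3 f hf).2, V, show ((f : ℤ) % 120).toNat = f by omega]
    ext <;> simp only [Prod.smul_mk, smul_eq_mul] <;> push_cast <;> ring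
  have cone : ∀ x y : ℝ, 0 ≤ x → 0 ≤ y → ∃ f < 30, ∃ l m : ℝ, 0 ≤ l ∧ 0 ≤ m ∧
      4294967296 * (l + m) ≤ gl GX f * x + gl GY f * y ∧
      (x, y) = l • (((vx PX f - 131072 : ℕ), (vx PY f - 131072 : ℕ)) : ℝ × ℝ) +
        m • (((vx PX (f + 1) - 131072 : ℕ), (vx PY (f + 1) - 131072 : ℕ)) : ℝ × ℝ) := by
    intro x y hx hy
    have z : vx PX 30 = 131072 := by
      have : vx PX 30 + vx PY 0 = 262144 := (h1 0 (by norm_num)).1
      omega
    obtain ⟨f, -, hf, a, b⟩ := exists_cell (fun f => (vx PY f - 131072 : ℕ) * x -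
      (vx PX f - 131072 : ℕ) * y) (x := 0) (lo := 0) (hi := 30) (by norm_num)
      (by rw [h2, Nat.sub_self, Nat.cast_zero, zero_mul, zero_sub, neg_nonpos]
          exact mul_nonneg (Nat.cast_nonneg _) hy)
      (by rw [z, Nat.sub_self, Nat.cast_zero, zero_mul, sub_zero]
          exact mul_nonneg (Nat.cast_nonneg _) hx)
    obtain ⟨d, g1, g2⟩ := h4 f hf
    exact ⟨f, hf, cone_aux d g1 g2 a b⟩
  have sm : ∀ (c : ℝ) x, 0 ≤ c → N (c • x) = c * N x := fun c x hc => by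
    rw [map_smul_eq_mul, Real.norm_of_nonneg hc]
  have ue : ∀ (k : ℤ) (t : ℝ), k ≤ t → t ≤ k + 1 →
      U PX PY t = V PX PY k + (t - k) • (V PX PY (k + 1) - V PX PY k) := fun k t h1 h2 => by
    rcases h2.eq_or_lt with rfl | h
    · have : ⌊(k : ℝ) + 1⌋ = k + 1 := by simp
      simp [U, this]
    · rw [U, Int.floor_eq_iff.2 ⟨h1, h⟩]
  constructor
  · intro z hz
    have P : ∀ z : ℝ × ℝ, (∃ (j : ℤ) (l m : ℝ), 0 ≤ l ∧ 0 ≤ m ∧ 10000 * (l + m) ≤ ro * N z ∧
        z = l • V PX PY j + m • V PX PY (j + 1)) → ∃ (j : ℤ) (l m : ℝ), 0 ≤ l ∧ 0 ≤ m ∧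
        10000 * (l + m) ≤ ro * N (rot z) ∧ rot z = l • V PX PY j + m • V PX PY (j + 1) :=
      fun z ⟨j, l, m, a, b, c, d⟩ => ⟨j + 30, l, m, a, b, hN.r z ▸ c, by
        rw [add_right_comm, vr, vr, d]
        ext <;> simp [rot, add_comm]⟩
    have Q : ∀ x y : ℝ, 0 ≤ x → 0 ≤ y → ∃ (j : ℤ) (l m : ℝ), 0 ≤ l ∧ 0 ≤ m ∧
        10000 * (l + m) ≤ ro * N (x, y) ∧ (x, y) = l • V PX PY j + m • V PX PY (j + 1) := by
      intro x y hx hy
      obtain ⟨f, hf, l, m, a, b, c, d⟩ := cone x y hx hy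
      refine ⟨f, l * 65544, m * 65544, by positivity, by positivity, by linarith [hN.g f hf x y hx hy],
        ?_⟩
      rw [d, vq f (by omega), vq _ (by omega), smul_smul, smul_smul]
      rfl
    obtain ⟨j, l, m, a, b, c, d⟩ : ∃ (j : ℤ) (l m : ℝ), 0 ≤ l ∧ 0 ≤ m ∧
        10000 * (l + m) ≤ ro * N z ∧ z = l • V PX PY j + m • V PX PY (j + 1) := by
      obtain ⟨x, y⟩ := z
      rcases le_total 0 x with hx | hx <;> rcases le_total 0 y with hy | hy
      · exact Q x y hx hy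
      · simpa [rot] using P _ (P _ (P _ (Q (-y) x (neg_nonneg.2 hy) hx)))
      · simpa [rot] using P _ (Q y (-x) hy (neg_nonneg.2 hx))
      · simpa [rot] using P _ (P _ (Q (-x) (-y) (neg_nonneg.2 hx) (neg_nonneg.2 hy)))
    have e := mul_le_mul_of_nonneg_left hz ro.cast_nonneg
    rcases (add_nonneg a b).eq_or_lt with h | h
    · refine ⟨0, 0, le_rfl, ro.cast_nonneg, ?_⟩
      rw [d, show l = 0 by linarith, show m = 0 by linarith]
      simp
    · have : m / (l + m) ≤ 1 := (div_le_one h).2 (by linarith)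
      refine ⟨l + m, j + m / (l + m), h.le, by linarith, ?_⟩
      rw [ue j _ (by linarith [div_nonneg b h.le]) (by linarith), add_sub_cancel_left, d, smul_add,
        smul_smul, mul_div_cancel₀ _ h.ne']
      module
  have up : ∀ x y c : ℝ, 0 ≤ x → 0 ≤ y → (∀ f < 30, gl GX f * x + gl GY f * y ≤ c) →
      65536 * N (x, y) ≤ c := by
    intro x y c hx hy hc
    obtain ⟨f, hf, l, m, a, b, e, d⟩ := cone x y hx hy
    have := map_add_le_add N (l • _) (m • _) |>.trans_eq' (congrArg N d).symm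
    rw [sm _ _ a, sm _ _ b] at this
    linarith [hc f hf, mul_le_mul_of_nonneg_left (hN.w f (by omega)) a,
      mul_le_mul_of_nonneg_left (hN.w (f + 1) (by omega)) b]
  have ray : ∀ k < 61, ∀ r < 13, ∀ i j : ℕ, i < 120 → j < 120 → pe PX PY GX GY (ones 30 * 2361183241434822606848)
      ((wr G.A G.B G.T k r - ta G.T k r * 65536) * 65544 * ones 30) (ta G.T k r) i j = true →
      N ((1024 : ℝ) • V PX PY i - (ta G.T k r : ℝ) • V PX PY j) ≤
        (wr G.A G.B G.T k r - 65536 * ta G.T k r) / 65536 := by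
    intro k hk r hr i j hi hj h
    have t0 : ta G.T k r ≤ 65535 := bt_le _ _ _
    have w0 : wr G.A G.B G.T k r < 2 ^ 40 := by
      have := Nat.mul_le_mul (bt_le (G.A.get (r - 1)) ((k + 1) * 72) 131071) (le_refl 1024)
      have := Nat.mul_le_mul (bt_le (G.B.get (r - 1)) ((k + 1) * 72) 262143) t0
      rw [wr, mn_eq]
      refine (min_le_right _ _).trans_lt ?_
      simp only [wf, fa, fc, Nat.add_eq, Nat.mul_eq, Nat.sub_eq]
      omega
    have ab : ∀ u w, u ≤ 4294967295 → w ≤ 4294967295 → ad (ta G.T k r) u w ≤ 2 ^ 50 := fun u w a b => by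
      have := Nat.mul_le_mul t0 b
      simp only [ad, df, Nat.add_eq, Nat.mul_eq, Nat.sub_eq]
      omega
    simp only [pe, Nat.add_eq, Nat.mul_eq] at h
    rw [← m1, ← m2, pk_and _ _ (by norm_num), pk_and _ _ (by norm_num), pk_lin,
      Nat.mul_comm _ (ones 30), ones_eq 30 (_ * 65544)] at h
    have := lv_spec _ _ _ (fun _ => by omega) (fun y => by
      have := Nat.mul_le_mul (ab _ _ (bt_le PX (i * 32) _) (bt_le PX (j * 32) _)) (bt_le GX (y * 72) 262143)
      have := Nat.mul_le_mul (ab _ _ (bt_le PY (i * 32) _) (bt_le PY (j * 32) _)) (bt_le GY (y * 72) 262143)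
      simp only [vx, Nat.mul_eq]
      omega) h
    have := up _ _ ((wr G.A G.B G.T k r - 65536 * ta G.T k r) * 65544) (abs_nonneg _) (abs_nonneg _)
      fun f hf => by
        have := (Nat.cast_le (α := ℝ)).2 (this f hf)
        rw [Nat.cast_add, Nat.cast_mul, Nat.cast_mul, ad_eq, ad_eq, Nat.cast_mul,
          Nat.cast_sub (h5 k hk r hr).1] at this
        push_cast at this
        exact le_of_eq_of_le (by rw [gl, gl, mul_comm, mul_comm (bt GY _ _ : ℝ)]; rfl) (this.trans_eq (by ring))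
    rw [← hN.a] at this
    have e := sm 65544 ((1024 : ℝ) • V PX PY i - (ta G.T k r : ℝ) • V PX PY j) (by norm_num)
    rw [show (65544 : ℝ) • ((1024 : ℝ) • V PX PY i - (ta G.T k r : ℝ) • V PX PY j) =
      (1024 * (vx PX i - 131072) - ta G.T k r * (vx PX j - 131072 : ℝ),
        1024 * (vx PY i - 131072) - ta G.T k r * (vx PY j - 131072 : ℝ)) by
      rw [V, V, show ((i : ℤ) % 120).toNat = i by omega, show ((j : ℤ) % 120).toNat = j by omega]
      ext <;> simp only [Prod.smul_mk, Prod.mk_sub_mk, smul_eq_mul] <;> ring] at e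
    linarith
  have sh : ∀ (x y : ℝ) (i j z : ℤ), N (x • V PX PY (i + 30 * z) - y • V PX PY (j + 30 * z)) =
      N (x • V PX PY i - y • V PX PY j) := by
    intro x y i j z
    have k : ∀ i j : ℤ, N (x • V PX PY (i + 30) - y • V PX PY (j + 30)) =
        N (x • V PX PY i - y • V PX PY j) := fun i j => by
      rw [vr, vr, ← hN.r (x • V PX PY i - _)]
      congr 1
      ext <;> simp [rot]
      ring
    induction z using Int.induction_on with
    | zero => simp
    | succ n ih => rw [← ih, mul_add, ← add_assoc, ← add_assoc, mul_one, k]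
    | pred n ih =>
      rw [← ih, ← k]
      congr 4 <;> ring
  have v1 : ∀ (i j : ℤ) (a b : ℝ), 0 ≤ b → b ≤ a →
      N (a • V PX PY i - b • V PX PY j) ≤ Ph (fz (j - i)) a b := by
    intro i j a b hb ha
    refine dom (fz_le _) (fun a b => N (a • V PX PY i - b • V PX PY j)) (fun l m a b c hl hm => ?_)
      (fun r hr => ?_) hb ha
    · rw [← sm _ _ hl, ← sm _ _ hm]
      exact (map_add_le_add N _ _).trans_eq' (congrArg N (by module))
    · have hk : fz (j - i) < 61 := Nat.lt_succ_of_le (fz_le _)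
      obtain ⟨x, y⟩ := (h5 _ hk r hr).2 (i % 30).toNat (by omega)
      have e : ∀ n : ℕ, (n : ℤ) % 120 = (j - 30 * (i / 30)) % 120 →
          N ((1024 : ℝ) • V PX PY i - (ta G.T (fz (j - i)) r : ℝ) • V PX PY j) =
          N ((1024 : ℝ) • V PX PY (i % 30).toNat - (ta G.T (fz (j - i)) r : ℝ) • V PX PY n) :=
        fun n hn => by
          rw [← sh _ _ (i % 30).toNat n (i / 30), show ((i % 30).toNat : ℤ) + 30 * (i / 30) = i by omega]
          simp only [V, show (n + 30 * (i / 30)) % 120 = j % 120 by omega]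
      rcases le_total ((j - i) % 120) 60 with c | c
      · rw [e ((i % 30).toNat + fz (j - i)) (by unfold fz; omega)]
        exact ray _ hk r hr _ _ (by omega) (by omega) x
      · rw [e (((i % 30).toNat + 120 - fz (j - i)) % 120) (by unfold fz; omega)]
        exact ray _ hk r hr _ _ (by omega) (by omega) y
  have v2 : ∀ (i j : ℤ) (a b : ℝ), 0 ≤ a → 0 ≤ b →
      N (a • V PX PY i - b • V PX PY j) ≤ Ph (fz (j - i)) a b := by
    intro i j a b ha hb
    rcases le_total b a with c | c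
    · exact v1 i j a b hb c
    · rw [map_sub_rev, Ph_comm, show fz (j - i) = fz (i - j) by unfold fz; omega]
      exact v1 j i b a ha c
  have key : ∀ a s b t : ℝ, 0 ≤ a → 0 ≤ b → s - ⌊s⌋ ≤ t - ⌊t⌋ →
      N (a • U PX PY s - b • U PX PY t) ≤ dd a s b t := by
    intro a s b t ha hb c
    have x0 := Int.floor_le s
    have y1 := Int.lt_floor_add_one t
    rw [dd_eq (⌊t⌋ - ⌊s⌋) (by push_cast; linarith) (by push_cast; linarith), U, U]
    have a1 := v2 ⌊s⌋ ⌊t⌋ a b ha hb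
    have a2 := v2 (⌊s⌋ + 1) (⌊t⌋ + 1) a b ha hb
    have a3 := v2 ⌊s⌋ (⌊t⌋ + 1) a b ha hb
    rw [add_sub_add_right_eq_sub] at a2
    rw [add_sub_right_comm] at a3
    have l0 : 0 ≤ 1 - (t - ⌊t⌋) := by linarith
    have m0 := sub_nonneg.2 x0
    have n0 := sub_nonneg.2 c
    have b1 := mul_le_mul_of_nonneg_left a1 l0
    have b2 := mul_le_mul_of_nonneg_left a2 m0
    have b3 := mul_le_mul_of_nonneg_left a3 n0
    rw [← sm _ _ l0] at b1
    rw [← sm _ _ m0] at b2
    rw [← sm _ _ n0] at b3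
    refine le_trans (le_of_eq (congrArg N ?_)) (((map_add_le_add N _ _).trans (add_le_add
      ((map_add_le_add N _ _).trans (add_le_add b1 b2)) b3)).trans_eq (by push_cast; ring))
    module
  intro a s b t ha hb
  rcases le_total (s - ⌊s⌋) (t - ⌊t⌋) with c | c
  · exact key a s b t ha hb c
  · rw [map_sub_rev, dd_comm]
    exact key b t a s hb ha c

end

end Pool.Agent.MP_1037db_co.LP

/-! The `p`-norms of the plane. -/

namespace Pool.Agent.MP_1037db_co.LP

noncomputable section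

open Real

/-- the certificates of a model are valid -/
def Many (G : Geo) (ro : ℕ) : Prop := ∀ (n : ℕ) (E : Env (Fin n)), (∃ t, E.Ch t) →
  (∀ p, E.ρ p ≤ ro) → 8 ≤ Fintype.card (Fin n) → E.Done

theorem sp_mul {α : Type} (D : α → α → ℝ) {c : ℝ} (hc : 0 ≤ c) (T : BinaryTree α) :
    ∀ k, sp (fun i j => c * D i j) k T = c * sp D k T := by
  induction T with
  | nil => simp [sp]
  | node i l r h1 h2 => intro k; rw [sp, sp, h1, h2, mul_add, mul_max_of_nonneg _ _ hc]

theorem Many.use {G : Geo} {ro n : ℕ} (h : Many G ro) (hn : 7 < n) (η : Seminorm ℝ (ℝ × ℝ))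
    (p : Fin n → ℝ × ℝ) {c Z : ℝ} (hc : 0 < c) (ρ t : Fin n → ℝ) (h0 : ∀ i, 0 ≤ ρ i)
    (h1 : ∀ i, ρ i ≤ ro) (hD : ∀ i j, c * η (p j - p i) ≤ dd (ρ i) (t i) (ρ j) (t j))
    (hZ : ∀ i, c * η (p i) + (G.lim - min (ρ i) G.c0) ≤ c * Z) :
    ∃ T : BinaryTree (Fin n), labels T = Finset.univ.val ∧ span η p 0 T ≤ Z := by
  obtain ⟨a, h⟩ := h n ⟨fun i j => c * η (p j - p i), ρ, fun j => j, Nat.strictMono_cast, h0,
    ⟨fun i j => by positivity, fun i j k => by
      have := map_add_le_add η (p j - p i) (p k - p j)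
      rw [add_comm, sub_add_sub_cancel] at this
      nlinarith⟩, fun i j => dd (ρ i) (t i) (ρ j) (t j), hD⟩ ⟨t, fun _ _ => rfl⟩ h1
      (by rw [Fintype.card_fin]; exact hn)
  obtain ⟨l, r, L, h1, h2, h3, h4, -⟩ := WK.pair (k := 0) h
  obtain rfl : L = [] := List.length_eq_zero_iff.1 (by omega)
  refine ⟨.node a l r, ?_, ?_⟩
  · rw [labels, show labels l + labels r = _ by simpa using h2,
      Multiset.cons_erase (Finset.mem_univ a)]
  · rw [sp_mul _ hc.le] at h3 h4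
    rw [span, span_eq, span_eq, sub_zero]
    refine le_of_mul_le_mul_left ?_ hc
    rw [mul_add, mul_max_of_nonneg _ _ hc.le]
    exact (add_le_add_right (max_le h3 h4) _).trans (hZ a)

theorem Many.sand {G : Geo} {ro n PX PY GX GY : ℕ} (h : Many G ro) (hn : 7 < n)
    {N : Seminorm ℝ (ℝ × ℝ)} (hN : Sy N PX PY GX GY ro) (hP : poly G.A G.B G.T PX PY GX GY = true)
    (η : Seminorm ℝ (ℝ × ℝ)) (p : Fin n → ℝ × ℝ) (hp : ∀ i, η (p i) ≤ 1) {s l B : ℝ} (hl : 0 < l)
    (h1 : ∀ x, η x ≤ 1 → N (s • x) ≤ 10000) (h2 : ∀ x, 10000 * η x ≤ l * N (s • x))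
    (h3 : G.c0 * l ≤ 10000) (h4 : (G.lim - G.c0) * l ≤ 10000 * B) :
    ∃ T : BinaryTree (Fin n), labels T = Finset.univ.val ∧ span η p 0 T ≤ 1 + B := by
  obtain ⟨e1, e2⟩ := emb hN hP
  choose ρ t r0 r1 e using fun i => e1 _ (h1 _ (hp i))
  have k : ∀ x, 10000 / l * η x ≤ N (s • x) := fun x => by
    rw [div_mul_eq_mul_div, div_le_iff₀' hl]
    exact h2 x
  refine h.use hn η p (c := 10000 / l) (by positivity) ρ t r0 r1 (fun i j => ?_) fun i => ?_
  · refine (k _).trans ?_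
    rw [smul_sub, map_sub_rev, e, e]
    exact e2 _ _ _ _ (r0 i) (r0 j)
  · have a := ((k _).trans_eq (by rw [e, zero_smul, sub_zero])).trans ((e2 (ρ i) (t i) 0 (t i) (r0 i)
      le_rfl).trans (dd_le (c := 0) _ _ (r0 i) le_rfl (.inr le_rfl)))
    rw [mul_zero, zero_mul, zero_add, sub_zero, abs_of_nonneg (r0 i)] at a
    have b := mul_le_mul_of_nonneg_left (hp i) (show 0 ≤ 10000 / l by positivity)
    have c := (le_div_iff₀ hl).2 h3
    have d := (le_div_iff₀ hl).2 h4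
    rw [mul_div_right_comm] at d
    rcases min_cases (ρ i) G.c0 with h | h <;> linarith [h.1]

/-- the `p`-norm -/
def lp (p : ℝ) (hp : 1 ≤ p) : Seminorm ℝ (ℝ × ℝ) :=
  Seminorm.of (fun x => (|x.1| ^ p + |x.2| ^ p) ^ (1 / p))
    (fun x y => by simpa using Lp_add_le Finset.univ ![x.1, x.2] ![y.1, y.2] hp) fun c x => by
      have : 0 < p := by linarith
      simp only [Prod.smul_fst, Prod.smul_snd, smul_eq_mul, abs_mul, norm_eq_abs]
      rw [mul_rpow (abs_nonneg _) (abs_nonneg _), mul_rpow (abs_nonneg _) (abs_nonneg _), ← mul_add,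
        mul_rpow (by positivity) (by positivity), one_div, rpow_rpow_inv (abs_nonneg _) this.ne']

variable {p q : ℝ}

theorem lp_eq (hp : 1 ≤ p) (x : ℝ × ℝ) : lp p hp x = (|x.1| ^ p + |x.2| ^ p) ^ (1 / p) := rfl

theorem lp_anti (hp : 1 ≤ p) (hq : 1 ≤ q) (h : p ≤ q) (x : ℝ × ℝ) : lp q hq x ≤ lp p hp x :=
  rpow_add_rpow_le (abs_nonneg _) (abs_nonneg _) (by linarith) h

theorem lp_rev (hp : 1 ≤ p) (hq : 1 ≤ q) (h : p ≤ q) (x : ℝ × ℝ) :
    lp p hp x ≤ 2 ^ (1 / p - 1 / q) * lp q hq x := by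
  have p0 : 0 < p := by linarith
  have q0 : 0 < q := by linarith
  have := arith_mean_le_rpow_mean Finset.univ ![1 / 2, 1 / 2] ![|x.1| ^ p, |x.2| ^ p]
    (by simp) (by simp; norm_num) (by simp; constructor <;> positivity) ((one_le_div p0).2 h)
  simp only [Fin.sum_univ_two, Matrix.cons_val_zero, Matrix.cons_val_one, ← mul_add,
    ← rpow_mul (abs_nonneg _), mul_div_cancel₀ _ p0.ne'] at this
  have := rpow_le_rpow (by positivity) this (show 0 ≤ 1 / p by positivity)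
  rw [← rpow_mul (by positivity), mul_rpow (by norm_num) (by positivity),
    mul_rpow (by norm_num) (by positivity), show 1 / (q / p) * (1 / p) = 1 / q by field_simp,
    one_div 2, inv_rpow zero_le_two, inv_rpow zero_le_two, inv_mul_le_iff₀ (by positivity)] at this
  rw [lp_eq, lp_eq, rpow_sub two_pos, div_eq_mul_inv (2 ^ _), mul_assoc]
  exact this

theorem lp_def (hp : 1 ≤ p) (x : ℝ × ℝ) (h : lp p hp x = 0) : x = 0 := by
  have p0 : 0 < p := by linarith
  rw [lp_eq, rpow_eq_zero (by positivity) (by positivity),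
    add_eq_zero_iff_of_nonneg (by positivity) (by positivity), rpow_eq_zero (abs_nonneg _) p0.ne',
    rpow_eq_zero (abs_nonneg _) p0.ne', abs_eq_zero, abs_eq_zero] at h
  exact Prod.ext h.1 h.2

theorem lam_lp (hp : 1 ≤ p) : Lam (lp p hp) ≤ 2 ^ (1 + max (1 / p) (1 - 1 / p)) := by
  refine Real.sSup_le ?_ (by positivity)
  rintro _ ⟨u, v, hu, hv, rfl⟩
  have sq : ∀ x : ℝ × ℝ, lp 2 one_le_two x ^ 2 = x.1 ^ 2 + x.2 ^ 2 := fun x => by
    rw [lp_eq, ← rpow_two, ← rpow_mul (by positivity)]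
    norm_num
  have key : ∀ c : ℝ, lp 2 one_le_two u ≤ c → lp 2 one_le_two v ≤ c →
      lp 2 one_le_two (u + v) + lp 2 one_le_two (u - v) ≤ 2 ^ (3 / 2 : ℝ) * c := fun c a b => by
    have c0 := (apply_nonneg _ _).trans a
    have a := pow_le_pow_left₀ (apply_nonneg _ _) a 2
    have b := pow_le_pow_left₀ (apply_nonneg _ _) b 2
    have d := sq (u + v)
    have e := sq (u - v)
    rw [sq] at a b
    simp only [Prod.fst_add, Prod.snd_add, Prod.fst_sub, Prod.snd_sub] at d e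
    refine (abs_le_of_sq_le_sq' ?_ (by positivity)).2
    rw [mul_pow, ← rpow_two (2 ^ _), ← rpow_mul zero_le_two, show (3 / 2 * 2 : ℝ) = (3 : ℕ) by norm_num,
      rpow_natCast]
    nlinarith [sq_nonneg (lp 2 one_le_two (u + v) - lp 2 one_le_two (u - v))]
  rcases le_total p 2 with c | c
  · have := key 1 ((lp_anti hp _ c u).trans hu) ((lp_anti hp _ c v).trans hv)
    have a := lp_rev hp one_le_two c (u + v)
    have b := lp_rev hp one_le_two c (u - v)
    have := mul_le_mul_of_nonneg_left this (show (0 : ℝ) ≤ 2 ^ (1 / p - 1 / 2) by positivity)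
    rw [mul_one, ← rpow_add two_pos] at this
    refine le_trans (by linarith) (this.trans (rpow_le_rpow_of_exponent_le one_le_two ?_))
    linarith [le_max_left (1 / p) (1 - 1 / p)]
  · have z : (0 : ℝ) ≤ 2 ^ (1 / 2 - 1 / p) := by positivity
    have := key (2 ^ (1 / 2 - 1 / p)) ((lp_rev _ hp c u).trans (mul_le_of_le_one_right z hu))
      ((lp_rev _ hp c v).trans (mul_le_of_le_one_right z hv))
    rw [← rpow_add two_pos] at this
    refine (add_le_add (lp_anti _ hp c _) (lp_anti _ hp c _)).trans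
      (this.trans (rpow_le_rpow_of_exponent_le one_le_two ?_))
    linarith [le_max_right (1 / p) (1 - 1 / p)]

theorem bl_spec {a b x y D u : ℕ} (ha : 0 < a) (hb : 0 < b) (hD : 0 < D)
    (h : bl a b x y D u = true) :
    (|(x : ℝ)| ^ (a / b : ℝ) + |(y : ℝ)| ^ (a / b : ℝ)) ^ (1 / (a / b : ℝ)) ≤ D := by
  simp only [bl, an_iff, Nat.ble_eq, Nat.mul_eq, Nat.sub_eq, Nat.pow_eq] at h
  obtain ⟨h0, h1, h2⟩ := h
  have k : ∀ x u : ℕ, x ^ a * 16777216 ^ b ≤ u ^ b * D ^ a →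
      |(x : ℝ)| ^ (a / b : ℝ) * 16777216 ≤ u * (D : ℝ) ^ (a / b : ℝ) := fun x u h => by
    have e : ∀ z : ℕ, ((z : ℝ) ^ (a / b : ℝ)) ^ b = z ^ a := fun z => by
      rw [← rpow_natCast, ← rpow_mul z.cast_nonneg, div_mul_cancel₀ _ (by positivity), rpow_natCast]
    rw [Nat.abs_cast]
    refine le_of_pow_le_pow_left₀ hb.ne' (by positivity) ?_
    rw [mul_pow, mul_pow, e, e]
    exact_mod_cast h
  have a1 := k x u h1
  have a2 := k y _ h2
  rw [Nat.cast_sub h0] at a2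
  push_cast at a2
  refine (rpow_le_rpow (by positivity) (show _ ≤ (D : ℝ) ^ (a / b : ℝ) by linarith)
    (by positivity)).trans_eq ?_
  rw [one_div, rpow_rpow_inv D.cast_nonneg (by positivity)]

theorem lpk_spec {a b PX PY GX GY W W' Rg ro : ℕ} (hp : 1 ≤ p) (e : p = a / b)
    (h : lpk a b PX PY GX GY W W' Rg ro = true) : Sy (lp p hp) PX PY GX GY ro := by
  simp only [lpk, an_iff, al_iff, lt_iff, Nat.ble_eq, Nat.mul_eq, Nat.sub_eq] at h
  obtain ⟨⟨h1, h2, h3, h4⟩, h5, h6⟩ := h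
  subst e
  refine ⟨fun x => by simp only [lp_eq, rot, abs_neg, add_comm], fun x y => by
    simp only [lp_eq, abs_abs], fun f hf => bl_spec (h2.trans h1) h2 (by norm_num) (h5 f hf),
    fun f hf x y hx hy => ?_⟩
  have b0 : (0 : ℝ) < b := by exact_mod_cast h2
  have ab : (b : ℝ) < a := by exact_mod_cast h1
  have c : HolderConjugate (a / (a - b : ℕ) : ℝ) (a / b) := by
    rw [Nat.cast_sub h1.le]
    refine ⟨?_, div_pos (b0.trans ab) (sub_pos.2 ab), div_pos (b0.trans ab) b0⟩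
    rw [inv_div, inv_div, ← add_div, sub_add_cancel, div_self (b0.trans ab).ne', inv_one]
  have := inner_le_Lp_mul_Lq Finset.univ ![((16 * gl GX f : ℕ) : ℝ), (16 * gl GY f : ℕ)] ![x, y] c
  simp only [Fin.sum_univ_two, Matrix.cons_val_zero, Matrix.cons_val_one] at this
  have z := apply_nonneg (lp _ hp) (x, y)
  have d := mul_le_mul_of_nonneg_right (bl_spec (h2.trans h1) (by omega) h3 (h6 f hf)) z
  have h4 := (Nat.cast_le (α := ℝ)).2 h4
  have := this.trans d
  push_cast at h4 this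
  linarith [mul_le_mul_of_nonneg_right h4 z]

theorem two_le {x y : ℝ} {m n : ℕ} (hx : 0 ≤ x) (hn : 0 < n) (h : y = m / n) (e : x ^ n ≤ 2 ^ m) :
    x ≤ 2 ^ y := by
  refine le_of_pow_le_pow_left₀ hn.ne' (by positivity) ?_
  rwa [← rpow_natCast (2 ^ y), ← rpow_mul zero_le_two, h, div_mul_cancel₀ _ (by positivity),
    rpow_natCast]

theorem le_two {x y : ℝ} {m n : ℕ} (hx : 0 ≤ x) (hn : 0 < n) (h : y = m / n) (e : 2 ^ m ≤ x ^ n) :
    2 ^ y ≤ x := by
  refine le_of_pow_le_pow_left₀ hn.ne' hx ?_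
  rwa [← rpow_natCast (2 ^ y), ← rpow_mul zero_le_two, h, div_mul_cancel₀ _ (by positivity),
    rpow_natCast]

/-- one class of exponents -/
theorem Many.cls {G : Geo} {ro n PX PY GX GY QX QY HX HY : ℕ} (h : Many G ro) (hn : 7 < n)
    {a b q0 q1 : ℝ} (ha : 1 ≤ a) (hb : 1 ≤ b) (e1 : 1 / a = q0) (e2 : 1 - 1 / b = q0)
    (hN : Sy (lp a ha) PX PY GX GY ro) (hP : poly G.A G.B G.T PX PY GX GY = true)
    (hN' : Sy (lp b hb) QX QY HX HY ro) (hP' : poly G.A G.B G.T QX QY HX HY = true)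
    (h3 : 2 ^ (q1 - q0) ≤ (10000 / G.c0 : ℝ)) (h4 : (G.lim - G.c0) / 10000 ≤ (2 : ℝ) ^ (1 + q0))
    (h5 : 0 < G.c0) (hp : 1 ≤ p) (x : Fin n → ℝ × ℝ) (hx : ∀ i, lp p hp (x i) ≤ 1)
    (l0 : q0 ≤ max (1 / p) (1 - 1 / p)) (l1 : max (1 / p) (1 - 1 / p) ≤ q1) :
    ∃ T : BinaryTree (Fin n), labels T = Finset.univ.val ∧
      span (lp p hp) x 0 T ≤ 1 + 2 ^ (1 + max (1 / p) (1 - 1 / p)) := by
  have z : (0 : ℝ) < 2 ^ (max (1 / p) (1 - 1 / p) - q0) := by positivity
  have k3 : G.c0 * (2 : ℝ) ^ (max (1 / p) (1 - 1 / p) - q0) ≤ 10000 :=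
    (le_div_iff₀' (by exact_mod_cast h5)).1
      ((rpow_le_rpow_of_exponent_le one_le_two (by linarith)).trans h3)
  have k4 : (G.lim - G.c0) * (2 : ℝ) ^ (max (1 / p) (1 - 1 / p) - q0) ≤
      10000 * 2 ^ (1 + max (1 / p) (1 - 1 / p)) := by
    rw [show 1 + max (1 / p) (1 - 1 / p) = 1 + q0 + (max (1 / p) (1 - 1 / p) - q0) by ring,
      rpow_add two_pos (1 + q0), ← mul_assoc]
    exact mul_le_mul_of_nonneg_right (by linarith) z.le
  have sm : ∀ (N : Seminorm ℝ (ℝ × ℝ)) (c : ℝ) x, 0 ≤ c → N (c • x) = c * N x := fun N c x hc => by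
    rw [map_smul_eq_mul, Real.norm_of_nonneg hc]
  rcases max_cases (1 / p) (1 - 1 / p) with ⟨e, -⟩ | ⟨e, -⟩
  · have c : p ≤ a := le_of_one_div_le_one_div (by linarith) (by linarith)
    refine h.sand hn hN hP _ x hx (s := 10000) z (fun x hx => ?_) (fun x => ?_) k3 k4 <;>
      rw [sm _ _ _ (by norm_num)]
    · linarith [lp_anti hp ha c x]
    · rw [e, ← e1]
      linarith [lp_rev hp ha c x]
  · have c : b ≤ p := le_of_one_div_le_one_div (by linarith) (by linarith)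
    refine h.sand hn hN' hP' _ x hx (s := 10000 / 2 ^ (max (1 / p) (1 - 1 / p) - q0)) z
      (fun x hx => ?_) (fun x => ?_) k3 k4 <;> rw [sm _ _ _ (by positivity)]
    · have := lp_rev hb hp c x
      rw [show 1 / b - 1 / p = max (1 / p) (1 - 1 / p) - q0 by linarith] at this
      rw [div_mul_eq_mul_div, div_le_iff₀ z]
      linarith [mul_le_of_le_one_right z.le hx]
    · rw [← mul_assoc, mul_div_cancel₀ _ z.ne']
      linarith [lp_anti hb hp c x]

end

end Pool.Agent.MP_1037db_co.LP
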